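import Mathlib

set_option autoImplicit false

namespace Pool.Agent.Helper519.Schauder

open scoped Topology
open Filter

noncomputable section

variable {𝕜 : Type*} [RCLike 𝕜] {X : Type*} [NormedAddCommGroup X] [NormedSpace 𝕜 X]

/-- The sequence `e` is a Schauder basis of the normed space `X`: every vector has exactly one
expansion along `e`, converging in norm. -/
def IsBasis (𝕜 : Type*) [RCLike 𝕜] {X : Type*} [NormedAddCommGroup X] [NormedSpace 𝕜 X]
    (e : ℕ → X) : Prop :=
  ∀ x : X, ∃! a : ℕ → 𝕜,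
    Tendsto (fun n : ℕ => ∑ i ∈ Finset.range n, a i • e i) atTop (nhds x)

/-- The coefficients of the expansion. -/
def coef {e : ℕ → X} (h : IsBasis 𝕜 e) (x : X) : ℕ → 𝕜 := (h x).choose

lemma coef_spec {e : ℕ → X} (h : IsBasis 𝕜 e) (x : X) :
    Tendsto (fun n : ℕ => ∑ i ∈ Finset.range n, coef h x i • e i) atTop (nhds x) :=
  (h x).choose_spec.1

lemma coef_unique {e : ℕ → X} (h : IsBasis 𝕜 e) (x : X) (a : ℕ → 𝕜)
    (ha : Tendsto (fun n : ℕ => ∑ i ∈ Finset.range n, a i • e i) atTop (nhds x)) :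
    a = coef h x := (h x).choose_spec.2 a ha

lemma coef_add {e : ℕ → X} (h : IsBasis 𝕜 e) (x y : X) :
    coef h (x + y) = coef h x + coef h y := by
  symm
  apply coef_unique
  have := (coef_spec h x).add (coef_spec h y)
  refine this.congr fun n => ?_
  rw [← Finset.sum_add_distrib]
  exact Finset.sum_congr rfl fun i _ => by rw [Pi.add_apply, add_smul]

lemma coef_smul {e : ℕ → X} (h : IsBasis 𝕜 e) (c : 𝕜) (x : X) :
    coef h (c • x) = c • coef h x := by
  symm
  apply coef_unique
  have := (coef_spec h x).const_smul c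
  refine this.congr fun n => ?_
  rw [Finset.smul_sum]
  exact Finset.sum_congr rfl fun i _ => by rw [Pi.smul_apply, smul_smul, smul_eq_mul]

/-- The `n`-th partial-sum operator. -/
def S {e : ℕ → X} (h : IsBasis 𝕜 e) (n : ℕ) : X →ₗ[𝕜] X where
  toFun x := ∑ i ∈ Finset.range n, coef h x i • e i
  map_add' x y := by
    rw [coef_add, ← Finset.sum_add_distrib]
    exact Finset.sum_congr rfl fun i _ => by rw [Pi.add_apply, add_smul]
  map_smul' c x := by
    rw [coef_smul, RingHom.id_apply, Finset.smul_sum]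
    exact Finset.sum_congr rfl fun i _ => by rw [Pi.smul_apply, smul_smul, smul_eq_mul]

lemma S_apply {e : ℕ → X} (h : IsBasis 𝕜 e) (n : ℕ) (x : X) :
    S h n x = ∑ i ∈ Finset.range n, coef h x i • e i := rfl

lemma S_tendsto {e : ℕ → X} (h : IsBasis 𝕜 e) (x : X) :
    Tendsto (fun n => S h n x) atTop (nhds x) := coef_spec h x

lemma coef_comb {e : ℕ → X} (h : IsBasis 𝕜 e) (n : ℕ) (a : ℕ → 𝕜) :
    coef h (∑ i ∈ Finset.range n, a i • e i) = fun i => if i < n then a i else 0 := by
  symm
  apply coef_unique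
  apply tendsto_const_nhds.congr'
  filter_upwards [eventually_ge_atTop n] with m hm
  rw [← Finset.sum_range_add_sum_Ico _ hm]
  rw [Finset.sum_eq_zero (s := Finset.Ico n m), add_zero]
  · apply Finset.sum_congr rfl
    intro i hi
    rw [Finset.mem_range] at hi
    rw [if_pos hi]
  · intro i hi
    rw [Finset.mem_Ico] at hi
    rw [if_neg (by omega), zero_smul]

lemma S_S {e : ℕ → X} (h : IsBasis 𝕜 e) (n : ℕ) (x : X) : S h n (S h n x) = S h n x := by
  rw [S_apply, S_apply, coef_comb]
  apply Finset.sum_congr rfl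
  intro i hi
  rw [Finset.mem_range] at hi
  simp only [if_pos hi]

/-- the range of the partial-sum operator is contained in a finite-dimensional space -/
lemma S_mem {e : ℕ → X} (h : IsBasis 𝕜 e) (n : ℕ) (x : X) :
    S h n x ∈ Submodule.span 𝕜 (e '' (Finset.range n : Set ℕ)) := by
  rw [S_apply]
  apply Submodule.sum_mem
  intro i hi
  exact Submodule.smul_mem _ _ (Submodule.subset_span ⟨i, hi, rfl⟩)

/-- bound of partial-sum operators for a continuous seminorm-like function -/
lemma S_bound {e : ℕ → X} (h : IsBasis 𝕜 e) (N : X → ℝ) (hN : Continuous N) (K : ℝ)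
    (hK : ∀ (a : ℕ → 𝕜) (m n : ℕ), m ≤ n →
      N (∑ i ∈ Finset.range m, a i • e i) ≤ K * N (∑ i ∈ Finset.range n, a i • e i))
    (n : ℕ) (x : X) : N (S h n x) ≤ K * N x := by
  have h1 : Tendsto (fun m => K * N (S h m x)) atTop (nhds (K * N x)) :=
    ((hN.tendsto x).comp (S_tendsto h x)).const_mul K
  apply ge_of_tendsto h1
  filter_upwards [eventually_ge_atTop n] with m hm
  exact hK _ _ _ hm

end

end Pool.Agent.Helper519.Schauder
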