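import Mathlib
import Pool.Agent.Helper519.Schauder

set_option autoImplicit false

namespace Pool.Agent.Helper519.Schauder

open scoped Topology
open Filter

noncomputable section

variable {𝕜 : Type*} [RCLike 𝕜] {X : Type*} [NormedAddCommGroup X] [NormedSpace 𝕜 X]

/-- The space of convergent sequences `(y_n)` with `y_0 = 0` and `y_{n+1} - y_n` a multiple of
`e_n`, realised inside the continuous functions on the one point compactification of `ℕ`. -/
def convY (𝕜 : Type*) [RCLike 𝕜] {X : Type*} [NormedAddCommGroup X] [NormedSpace 𝕜 X]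
    (e : ℕ → X) : Submodule 𝕜 C(OnePoint ℕ, X) where
  carrier := {y | y ((0 : ℕ) : OnePoint ℕ) = 0 ∧
    ∀ n : ℕ, y ((n + 1 : ℕ) : OnePoint ℕ) - y (n : OnePoint ℕ) ∈ Submodule.span 𝕜 {e n}}
  add_mem' := by
    rintro y z ⟨hy0, hy⟩ ⟨hz0, hz⟩
    refine ⟨by simp [hy0, hz0], fun n => ?_⟩
    have := Submodule.add_mem _ (hy n) (hz n)
    simp only [ContinuousMap.add_apply]
    rwa [add_sub_add_comm]
  zero_mem' := by
    refine ⟨by simp, fun n => by simp⟩
  smul_mem' := by
    rintro c y ⟨hy0, hy⟩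
    refine ⟨by simp [hy0], fun n => ?_⟩
    have := Submodule.smul_mem _ c (hy n)
    simp only [ContinuousMap.smul_apply]
    rwa [← smul_sub]

lemma mem_convY {e : ℕ → X} {y : C(OnePoint ℕ, X)} : y ∈ convY 𝕜 e ↔
    y ((0 : ℕ) : OnePoint ℕ) = 0 ∧
    ∀ n : ℕ, y ((n + 1 : ℕ) : OnePoint ℕ) - y (n : OnePoint ℕ) ∈ Submodule.span 𝕜 {e n} := Iff.rfl

lemma isClosed_convY (e : ℕ → X) : IsClosed (convY 𝕜 e : Set C(OnePoint ℕ, X)) := by
  have hset : (convY 𝕜 e : Set C(OnePoint ℕ, X)) =
      {y | y ((0 : ℕ) : OnePoint ℕ) = 0} ∩ ⋂ n : ℕ,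
        {y | y ((n + 1 : ℕ) : OnePoint ℕ) - y (n : OnePoint ℕ) ∈ Submodule.span 𝕜 {e n}} := by
    ext y
    simp only [SetLike.mem_coe, mem_convY, Set.mem_inter_iff, Set.mem_iInter]
    exact Iff.rfl
  rw [hset]
  apply IsClosed.inter
  · exact isClosed_eq (continuous_eval_const _) continuous_const
  · apply isClosed_iInter
    intro n
    have hcl : IsClosed (Submodule.span 𝕜 {e n} : Set X) :=
      Submodule.closed_of_finiteDimensional _
    exact hcl.preimage ((continuous_eval_const _).sub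
      (continuous_eval_const _))

/-- Every Schauder basis of a Banach space has uniformly bounded partial-sum operators. -/
theorem exists_bound [CompleteSpace X] {e : ℕ → X} (h : IsBasis 𝕜 e) :
    ∃ K : ℝ, 0 < K ∧ ∀ n x, ‖S h n x‖ ≤ K * ‖x‖ := by
  haveI : CompleteSpace (convY 𝕜 e) := (isClosed_convY e).completeSpace_coe
  let L : convY 𝕜 e →L[𝕜] X :=
    (ContinuousMap.evalCLM 𝕜 (OnePoint.infty : OnePoint ℕ)).comp (convY 𝕜 e).subtypeL
  have hL : ∀ y : convY 𝕜 e, L y = (y : C(OnePoint ℕ, X)) OnePoint.infty := fun y => rfl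
  -- an element of `convY` is determined by its limit
  have hdet : ∀ y : convY 𝕜 e, ∀ n : ℕ,
      (y : C(OnePoint ℕ, X)) (n : OnePoint ℕ) = S h n (L y) := by
    intro y
    obtain ⟨hy0, hy⟩ := mem_convY.mp y.2
    choose a ha using fun n => Submodule.mem_span_singleton.mp (hy n)
    have hsum : ∀ n : ℕ, (y : C(OnePoint ℕ, X)) (n : OnePoint ℕ)
        = ∑ i ∈ Finset.range n, a i • e i := by
      intro n
      induction n with
      | zero => simpa using hy0
      | succ n ih =>
        rw [Finset.sum_range_succ, ← ih, ha n]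
        abel
    have hlim : Tendsto (fun n : ℕ => ∑ i ∈ Finset.range n, a i • e i) atTop (nhds (L y)) := by
      have := (OnePoint.continuous_iff_from_nat _).mp (y : C(OnePoint ℕ, X)).continuous
      exact this.congr hsum
    have hac := coef_unique h (L y) a hlim
    intro n
    rw [hsum n, S_apply, ← hac]
  have hsurj : Function.Surjective L := by
    intro x
    let y : C(OnePoint ℕ, X) :=
      OnePoint.continuousMapMkNat (fun n => S h n x) x (S_tendsto h x)
    have hyn : ∀ n : ℕ, y (n : OnePoint ℕ) = S h n x := fun n => rfl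
    refine ⟨⟨y, mem_convY.mpr ⟨?_, fun n => ?_⟩⟩, rfl⟩
    · rw [hyn, S_apply, Finset.range_zero, Finset.sum_empty]
    · rw [hyn, hyn, S_apply, S_apply, Finset.sum_range_succ, add_sub_cancel_left]
      exact Submodule.smul_mem _ _ (Submodule.mem_span_singleton_self _)
  obtain ⟨K, hK, hKx⟩ := ContinuousLinearMap.exists_preimage_norm_le L hsurj
  refine ⟨K, hK, fun n x => ?_⟩
  obtain ⟨y, hy, hyn⟩ := hKx x
  rw [← hy, ← hdet y n, hy]
  exact ((y : C(OnePoint ℕ, X)).norm_coe_le_norm _).trans hyn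

end

end Pool.Agent.Helper519.Schauder
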