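import Mathlib

set_option autoImplicit false

namespace Pool.Agent.Helper519.Renorm

open scoped Topology NNReal
open Filter

noncomputable section

variable {𝕜 : Type*} [RCLike 𝕜] {X : Type*} [NormedAddCommGroup X] [NormedSpace 𝕜 X]

/-- A bounded biorthogonal system of norm-one vectors. -/
structure BSys (𝕜 : Type*) [RCLike 𝕜] (X : Type*) [NormedAddCommGroup X] [NormedSpace 𝕜 X] where
  x : ℕ → X
  f : ℕ → X →ₗ[𝕜] 𝕜
  M : ℝ
  hM : 1 ≤ M
  nx : ∀ j, ‖x j‖ = 1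
  nf : ∀ j y, ‖f j y‖ ≤ M * ‖y‖
  ortho : ∀ i j, f i (x j) = if i = j then 1 else 0

namespace BSys

variable (B : BSys 𝕜 X)

lemma M_pos : 0 < B.M := lt_of_lt_of_le one_pos B.hM

/-- facet functionals -/
def Φ (k : ℕ) : X →ₗ[𝕜] 𝕜 := B.f (k + 2) + B.f (k + 1)

/-- facet centres -/
def U (k : ℕ) : X := B.x (k + 1) - (1 / 2 : 𝕜) • B.x k

/-- exposing functionals: `V k` exposes `x (k+3)` -/
def V (k : ℕ) : X →ₗ[𝕜] 𝕜 := B.Φ (k + 1) - (1 / 2 : 𝕜) • B.Φ k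

lemma Φ_bound (k : ℕ) (y : X) : ‖B.Φ k y‖ ≤ 2 * B.M * ‖y‖ := by
  rw [Φ, LinearMap.add_apply]
  calc _ ≤ ‖B.f (k + 2) y‖ + ‖B.f (k + 1) y‖ := norm_add_le _ _
    _ ≤ _ := by linarith [B.nf (k + 2) y, B.nf (k + 1) y]

lemma V_eq (k : ℕ) (y : X) : B.V k y =
    B.f (k + 3) y + (1 / 2) * B.f (k + 2) y - (1 / 2) * B.f (k + 1) y := by
  simp only [V, Φ, LinearMap.sub_apply, LinearMap.smul_apply, LinearMap.add_apply, smul_eq_mul]
  ring

lemma V_bound (k : ℕ) (y : X) : ‖B.V k y‖ ≤ 2 * B.M * ‖y‖ := by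
  rw [V_eq]
  have h1 := B.nf (k + 3) y
  have h2 := B.nf (k + 2) y
  have h3 := B.nf (k + 1) y
  have hh : ‖(1 / 2 : 𝕜)‖ = 1 / 2 := by
    rw [norm_div, norm_one]; simp
  calc _ ≤ ‖B.f (k + 3) y + (1 / 2) * B.f (k + 2) y‖ + ‖(1 / 2) * B.f (k + 1) y‖ := norm_sub_le _ _
    _ ≤ ‖B.f (k + 3) y‖ + ‖(1 / 2) * B.f (k + 2) y‖ + ‖(1 / 2) * B.f (k + 1) y‖ := by
        gcongr; exact norm_add_le _ _
    _ ≤ _ := by rw [norm_mul, norm_mul, hh]; linarith

lemma norm_half : ‖(1 / 2 : 𝕜)‖ = 1 / 2 := by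
  rw [norm_div, norm_one]; simp

lemma Φ_x (k j : ℕ) : ‖B.Φ k (B.x j)‖ ≤ 1 := by
  rw [Φ, LinearMap.add_apply, B.ortho, B.ortho]
  split_ifs with h1 h2
  · omega
  · simp
  · simp
  · simp

lemma Φ_U_self (k : ℕ) : B.Φ k (B.U k) = 1 := by
  rw [Φ, U, LinearMap.add_apply, map_sub, map_sub, map_smul, map_smul, B.ortho, B.ortho,
    B.ortho, B.ortho]
  simp

lemma Φ_U (k l : ℕ) (h : l ≠ k) : ‖B.Φ k (B.U l)‖ ≤ 1 / 2 := by
  have hh := norm_half (𝕜 := 𝕜)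
  rw [Φ, U, LinearMap.add_apply, map_sub, map_sub, map_smul, map_smul, B.ortho, B.ortho,
    B.ortho, B.ortho]
  by_cases h1 : l = k + 1
  · subst h1
    have : (1 : 𝕜) - (1 / 2 : 𝕜) • 0 + (0 - (1 / 2 : 𝕜) • 1) = 1 / 2 := by
      simp only [smul_eq_mul]; ring
    simp only [show k + 2 = k + 1 + 1 from rfl, if_true, show ¬ (k + 1 + 1 = k + 1) by omega,
      show ¬ (k + 1 = k + 1 + 1) by omega, if_false]
    rw [this, hh]
  · by_cases h2 : l = k + 2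
    · subst h2
      have : (0 : 𝕜) - (1 / 2 : 𝕜) • 1 + (0 - (1 / 2 : 𝕜) • 0) = - (1 / 2) := by
        simp only [smul_eq_mul]; ring
      simp only [if_true, show ¬ (k + 2 = k + 2 + 1) by omega,
        show ¬ (k + 1 = k + 2 + 1) by omega, show ¬ (k + 1 = k + 2) by omega, if_false]
      rw [this, norm_neg, hh]
    · simp only [show ¬ (k + 2 = l + 1) by omega, show ¬ (k + 2 = l) by omega,
        show ¬ (k + 1 = l + 1) by omega, show ¬ (k + 1 = l) by omega, if_false]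
      simp

lemma V_x_self (k : ℕ) : B.V k (B.x (k + 3)) = 1 := by
  rw [V_eq, B.ortho, B.ortho, B.ortho]
  simp

lemma V_x (k j : ℕ) (h : j ≠ k + 3) : ‖B.V k (B.x j)‖ ≤ 1 / 2 := by
  have hh := norm_half (𝕜 := 𝕜)
  rw [V_eq, B.ortho, B.ortho, B.ortho]
  rw [if_neg (by omega : ¬ (k + 3 = j))]
  by_cases h1 : k + 2 = j
  · rw [if_pos h1, if_neg (by omega : ¬ (k + 1 = j))]
    simp
  · by_cases h2 : k + 1 = j
    · rw [if_neg h1, if_pos h2]
      simp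
    · rw [if_neg h1, if_neg h2]
      simp

lemma V_U (k l : ℕ) : ‖B.V k (B.U l)‖ ≤ 3 / 4 := by
  have key : ∀ a c : 𝕜, ∀ t : ℝ, a - (1 / 2 : 𝕜) * c = ((t : ℝ) : 𝕜) → |t| ≤ 3 / 4 →
      ‖a - (1 / 2 : 𝕜) * c‖ ≤ 3 / 4 := by
    intro a c t h ht
    rw [h, RCLike.norm_ofReal]
    exact ht
  rw [U, map_sub, map_smul, smul_eq_mul, V_eq, V_eq]
  simp only [B.ortho]
  have h0 : l + 3 ≤ k ∨ l = k ∨ l = k + 1 ∨ l = k + 2 ∨ l = k + 3 ∨ (l ≠ k ∧ l ≠ k + 1 ∧ l ≠ k + 2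
    ∧ l ≠ k + 3) := by omega
  by_cases e0 : l = k
  · subst e0
    simp only [show ¬ (l + 3 = l + 1) by omega, show ¬ (l + 2 = l + 1) by omega,
      show ¬ (l + 3 = l) by omega, show ¬ (l + 2 = l) by omega, show ¬ (l + 1 = l) by omega,
      if_true, if_false]
    apply key _ _ (-1 / 2)
    · push_cast; ring
    · rw [abs_le]; constructor <;> norm_num
  by_cases e1 : l = k + 1
  · subst e1
    simp only [show ¬ (k + 3 = k + 1 + 1) by omega, show (k + 2 = k + 1 + 1) by omega,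
      show ¬ (k + 1 = k + 1 + 1) by omega,
      show ¬ (k + 3 = k + 1) by omega, show ¬ (k + 1 + 1 = k + 1) by omega,
      if_true, if_false]
    apply key _ _ (3 / 4)
    · push_cast; ring
    · rw [abs_le]; constructor <;> norm_num
  by_cases e2 : l = k + 2
  · subst e2
    simp only [show (k + 3 = k + 2 + 1) by omega, show ¬ (k + 2 = k + 2 + 1) by omega,
      show ¬ (k + 1 = k + 2 + 1) by omega, show ¬ (k + 2 + 1 = k + 2) by omega,
      show ¬ (k + 1 = k + 2) by omega,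
      if_true, if_false]
    apply key _ _ (3 / 4)
    · push_cast; ring
    · rw [abs_le]; constructor <;> norm_num
  by_cases e3 : l = k + 3
  · subst e3
    simp only [show ¬ (k + 3 = k + 3 + 1) by omega, show ¬ (k + 2 = k + 3 + 1) by omega,
      show ¬ (k + 1 = k + 3 + 1) by omega, show ¬ (k + 2 = k + 3) by omega,
      show ¬ (k + 1 = k + 3) by omega,
      if_true, if_false]
    apply key _ _ (-1 / 2)
    · push_cast; ring
    · rw [abs_le]; constructor <;> norm_num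
  by_cases e4 : l + 1 = k + 1
  · omega
  simp only [show ¬ (k + 3 = l + 1) by omega, show ¬ (k + 2 = l + 1) by omega,
      show ¬ (k + 1 = l + 1) by omega, show ¬ (k + 3 = l) by omega, show ¬ (k + 2 = l) by omega,
      show ¬ (k + 1 = l) by omega, if_false]
  apply key _ _ 0
  · simp
  · norm_num

/-- size of the discs -/
def r : ℝ := 1 / (16 * B.M)

lemma r_pos : 0 < B.r := by
  have := B.M_pos
  unfold r; positivity

lemma M_mul_r : B.M * B.r = 1 / 16 := by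
  have := B.M_pos
  unfold r; field_simp

lemma r_le : B.r ≤ 1 / 16 := by
  have h1 := B.hM
  have h2 := B.M_mul_r
  have h3 := B.r_pos
  nlinarith

/-- admissible seminorms: at most one on the generators -/
def Adm (q : Seminorm 𝕜 X) : Prop :=
  (∀ y, q y ≤ 4 * B.M * ‖y‖) ∧ (∀ j, q (B.x j) ≤ 1) ∧
    ∀ k d, B.Φ k d = 0 → ‖d‖ ≤ B.r → q (B.U k + d) ≤ 1

lemma bddAbove_adm : BddAbove {q : Seminorm 𝕜 X | B.Adm q} := by
  have h4 : 0 ≤ 4 * B.M := by have := B.M_pos; positivity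
  refine ⟨(Real.toNNReal (4 * B.M)) • normSeminorm 𝕜 X, ?_⟩
  intro q hq y
  show q y ≤ ((Real.toNNReal (4 * B.M)) : ℝ) * ‖y‖
  rw [Real.coe_toNNReal _ h4]
  exact hq.1 y

/-- the new norm -/
def N : Seminorm 𝕜 X := sSup {q : Seminorm 𝕜 X | B.Adm q}

lemma le_N (q : Seminorm 𝕜 X) (hq : B.Adm q) (y : X) : q y ≤ B.N y :=
  (le_csSup B.bddAbove_adm hq : q ≤ B.N) y

lemma zero_adm : B.Adm 0 := by
  have := B.M_pos
  refine ⟨fun y => ?_, fun j => ?_, fun k d _ _ => ?_⟩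
  · show (0 : ℝ) ≤ _
    positivity
  · show (0 : ℝ) ≤ 1
    norm_num
  · show (0 : ℝ) ≤ 1
    norm_num

lemma N_le (y : X) (C : ℝ) (h : ∀ q : Seminorm 𝕜 X, B.Adm q → q y ≤ C) : B.N y ≤ C := by
  rw [N, Seminorm.sSup_apply B.bddAbove_adm]
  haveI : Nonempty {q : Seminorm 𝕜 X | B.Adm q} := ⟨⟨0, B.zero_adm⟩⟩
  exact ciSup_le fun q => h q.1 q.2

lemma N_adm : B.Adm B.N :=
  ⟨fun y => B.N_le y _ fun q hq => hq.1 y, fun j => B.N_le _ _ fun q hq => hq.2.1 j,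
    fun k d h1 h2 => B.N_le _ _ fun q hq => hq.2.2 k d h1 h2⟩

lemma U_norm (k : ℕ) : ‖B.U k‖ ≤ 3 / 2 := by
  rw [U]
  calc _ ≤ ‖B.x (k + 1)‖ + ‖(1 / 2 : 𝕜) • B.x k‖ := norm_sub_le _ _
    _ = _ := by rw [norm_smul, norm_half, B.nx, B.nx]; norm_num

lemma half_norm_le_N (y : X) : (1 / 2) * ‖y‖ ≤ B.N y := by
  have hM := B.hM
  refine B.le_N ((1 / 2 : ℝ≥0) • normSeminorm 𝕜 X) ⟨fun y => ?_, fun j => ?_, fun k d _ h => ?_⟩ y
  · show ((1 / 2 : ℝ≥0) : ℝ) * ‖y‖ ≤ 4 * B.M * ‖y‖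
    apply mul_le_mul_of_nonneg_right _ (norm_nonneg y)
    norm_num
    linarith
  · show ((1 / 2 : ℝ≥0) : ℝ) * ‖B.x j‖ ≤ 1
    rw [B.nx]; norm_num
  · show ((1 / 2 : ℝ≥0) : ℝ) * ‖B.U k + d‖ ≤ 1
    have := norm_add_le (B.U k) d
    have h1 := B.U_norm k
    have h2 := B.r_le
    norm_num
    linarith

lemma N_x_le (j : ℕ) : B.N (B.x j) ≤ 1 := B.N_adm.2.1 j

/-- facet inequality -/
lemma Φ_le_N (k : ℕ) (y : X) : ‖B.Φ k y‖ ≤ B.N y := by
  have hM := B.hM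
  refine B.le_N ((normSeminorm 𝕜 𝕜).comp (B.Φ k)) ⟨fun y => ?_, fun j => ?_, fun l d hd h => ?_⟩ y
  · show ‖B.Φ k y‖ ≤ _
    refine (B.Φ_bound k y).trans ?_
    apply mul_le_mul_of_nonneg_right _ (norm_nonneg y)
    linarith
  · exact B.Φ_x k j
  · show ‖B.Φ k (B.U l + d)‖ ≤ 1
    rw [map_add]
    by_cases hlk : l = k
    · subst hlk
      rw [hd, B.Φ_U_self]; simp
    · have h1 := B.Φ_U k l hlk
      have h2 := B.Φ_bound k d
      have h3 : 2 * B.M * ‖d‖ ≤ 2 * B.M * B.r := by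
        apply mul_le_mul_of_nonneg_left h; linarith
      have h4 := B.M_mul_r
      have := norm_add_le (B.Φ k (B.U l)) (B.Φ k d)
      nlinarith

/-- sharp exposition of `x (k+3)` by `V k` -/
lemma expose (k : ℕ) (y : X) :
    ‖B.V k y‖ + (1 / 16) * B.N (y - B.V k y • B.x (k + 3)) ≤ B.N y := by
  have hM := B.hM
  have hNx := B.N_x_le (k + 3)
  have hc : ((1 / 16 : ℝ≥0) : ℝ) = 1 / 16 := by norm_num
  have hgen : ∀ s : X, B.N (s - B.V k s • B.x (k + 3)) ≤ B.N s + ‖B.V k s‖ := by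
    intro s
    calc _ ≤ B.N s + B.N (B.V k s • B.x (k + 3)) := map_sub_le_add _ _ _
      _ ≤ _ := by
        rw [map_smul_eq_mul]
        have := mul_le_mul_of_nonneg_left hNx (norm_nonneg (B.V k s))
        linarith
  refine B.le_N ((normSeminorm 𝕜 𝕜).comp (B.V k) + (1 / 16 : ℝ≥0) •
    B.N.comp (LinearMap.id - (B.V k).smulRight (B.x (k + 3))))
    ⟨fun y => ?_, fun j => ?_, fun l d hd h => ?_⟩ y |>.trans' ?_
  · show ‖B.V k y‖ + ((1 / 16 : ℝ≥0) : ℝ) * B.N (y - B.V k y • B.x (k + 3)) ≤ _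
    have h1 := B.V_bound k y
    have h2 := hgen y
    have h3 := B.N_adm.1 y
    have h4 : 0 ≤ B.M * ‖y‖ := by positivity
    rw [hc]
    nlinarith
  · show ‖B.V k (B.x j)‖ + ((1 / 16 : ℝ≥0) : ℝ) * B.N (B.x j - B.V k (B.x j) • B.x (k + 3)) ≤ 1
    by_cases hj : j = k + 3
    · subst hj
      rw [B.V_x_self]; simp
    · have h1 := B.V_x k j hj
      have h2 := hgen (B.x j)
      have h3 := B.N_x_le j
      rw [hc]
      linarith
  · show ‖B.V k (B.U l + d)‖ + ((1 / 16 : ℝ≥0) : ℝ) *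
      B.N (B.U l + d - B.V k (B.U l + d) • B.x (k + 3)) ≤ 1
    have h1 : ‖B.V k (B.U l + d)‖ ≤ 7 / 8 := by
      rw [map_add]
      have h1 := B.V_U k l
      have h2 := B.V_bound k d
      have h3 : 2 * B.M * ‖d‖ ≤ 2 * B.M * B.r := by
        apply mul_le_mul_of_nonneg_left h; linarith
      have h4 := B.M_mul_r
      have := norm_add_le (B.V k (B.U l)) (B.V k d)
      nlinarith
    have h2 := hgen (B.U l + d)
    have h3 := B.N_adm.2.2 l d hd h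
    rw [hc]
    linarith
  · show _ ≤ ‖B.V k y‖ + ((1 / 16 : ℝ≥0) : ℝ) * B.N (y - B.V k y • B.x (k + 3))
    rw [hc]

/-- radius of the region around `U k` where the new norm is `|Φ k|` -/
def r1 : ℝ := B.r / (8 * B.M)

lemma r1_pos : 0 < B.r1 := by
  have := B.r_pos
  have := B.M_pos
  unfold r1; positivity

lemma M_mul_r1 : 8 * B.M * B.r1 = B.r := by
  have := B.M_pos
  unfold r1; field_simp

lemma M_r1_le : B.M * B.r1 ≤ 1 / 128 := by
  have := B.M_mul_r1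
  have := B.r_le
  linarith

lemma r1_le : B.r1 ≤ 1 / 128 := by
  have := B.M_r1_le
  have := B.hM
  have := B.r1_pos
  nlinarith

/-- the norm near `U k` -/
lemma near (k : ℕ) (z : X) (hz : ‖z‖ ≤ B.r1) : B.N (B.U k + z) = ‖B.Φ k (B.U k + z)‖ := by
  apply le_antisymm _ (B.Φ_le_N k _)
  have hM := B.hM
  have hMpos := B.M_pos
  have hphz : ‖B.Φ k z‖ ≤ 2 * B.M * ‖z‖ := B.Φ_bound k z
  have hMr := B.M_r1_le
  have hphz2 : ‖B.Φ k z‖ ≤ 1 / 64 := by
    have : B.M * ‖z‖ ≤ B.M * B.r1 := mul_le_mul_of_nonneg_left hz hMpos.le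
    linarith
  set τ : 𝕜 := 1 + B.Φ k z with hτ
  have hτn : 63 / 64 ≤ ‖τ‖ := by
    have := norm_sub_norm_le (1 : 𝕜) (-B.Φ k z)
    rw [norm_one, norm_neg, sub_neg_eq_add] at this
    linarith
  have hτ0 : τ ≠ 0 := by
    intro h
    rw [h, norm_zero] at hτn
    norm_num at hτn
  set d : X := τ⁻¹ • (z - B.Φ k z • B.U k) with hd
  have hdec : B.U k + z = τ • (B.U k + d) := by
    rw [hd, smul_add, smul_smul, mul_inv_cancel₀ hτ0, one_smul, hτ, add_smul, one_smul]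
    abel
  have hΦd : B.Φ k d = 0 := by
    rw [hd, map_smul, map_sub, map_smul, B.Φ_U_self, smul_eq_mul, smul_eq_mul]
    ring
  have hdn : ‖d‖ ≤ B.r := by
    rw [hd, norm_smul, norm_inv]
    have h1 : ‖z - B.Φ k z • B.U k‖ ≤ ‖z‖ + 2 * B.M * ‖z‖ * (3 / 2) := by
      calc _ ≤ ‖z‖ + ‖B.Φ k z • B.U k‖ := norm_sub_le _ _
        _ ≤ _ := by
          rw [norm_smul]
          have := mul_le_mul hphz (B.U_norm k) (norm_nonneg _) (by positivity)
          linarith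
    have h2 : ‖z‖ + 2 * B.M * ‖z‖ * (3 / 2) ≤ 4 * (B.M * B.r1) := by
      have h5 : B.M * ‖z‖ ≤ B.M * B.r1 := mul_le_mul_of_nonneg_left hz hMpos.le
      have h6 : ‖z‖ ≤ B.M * ‖z‖ := by nlinarith [norm_nonneg z]
      nlinarith
    have h3 : ‖τ‖⁻¹ ≤ 2 := by
      rw [inv_le_comm₀ (by linarith) (by norm_num)]
      linarith
    have h4 := B.M_mul_r1
    calc ‖τ‖⁻¹ * ‖z - B.Φ k z • B.U k‖ ≤ 2 * (4 * (B.M * B.r1)) := by
          apply mul_le_mul h3 (h1.trans h2) (norm_nonneg _) (by norm_num)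
      _ = B.r := by linarith
  rw [hdec, map_smul_eq_mul, LinearMap.map_smul, LinearMap.map_add, hΦd, B.Φ_U_self]
  have := B.N_adm.2.2 k d hΦd hdn
  simp only [smul_eq_mul, add_zero, mul_one]
  have h0 := norm_nonneg τ
  nlinarith

end BSys

end

end Pool.Agent.Helper519.Renorm
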