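import Mathlib
import Pool.Agent.Helper519.BasisBound
import Pool.Agent.Helper519.Renorm

set_option autoImplicit false

namespace Pool.Agent.Helper519.Renorm

open scoped Topology NNReal
open Filter
open Pool.Agent.Helper519.Schauder

noncomputable section

variable {𝕜 : Type*} [RCLike 𝕜] {X : Type*} [NormedAddCommGroup X] [NormedSpace 𝕜 X]

namespace BSys

variable (B : BSys 𝕜 X)

/-- the gain in the basis constant -/
def γ : ℝ := B.r1 ^ 2 / 6000

lemma γ_pos : 0 < B.γ := by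
  have := B.r1_pos
  unfold γ; positivity

lemma γ_le : B.γ ≤ 1 := by
  have h1 := B.r1_pos
  have h2 := B.r1_le
  unfold γ
  nlinarith

lemma rotate (a b : 𝕜) (ha : a ≠ 0) (hab : ‖b‖ ≤ ‖a‖) :
    ∃ t : 𝕜, ‖t‖ = 1 ∧ ‖a + t * b‖ = ‖a‖ - ‖b‖ := by
  by_cases hb : b = 0
  · exact ⟨1, norm_one, by simp [hb]⟩
  · have hna : ‖a‖ ≠ 0 := norm_ne_zero_iff.mpr ha
    have hnb : ‖b‖ ≠ 0 := norm_ne_zero_iff.mpr hb
    refine ⟨-(((‖b‖ : ℝ) : 𝕜) / b * (a / ((‖a‖ : ℝ) : 𝕜))), ?_, ?_⟩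
    · rw [norm_neg, norm_mul, norm_div, norm_div, RCLike.norm_ofReal, RCLike.norm_ofReal,
        abs_norm, abs_norm]
      field_simp
    · have h1 : a + -(((‖b‖ : ℝ) : 𝕜) / b * (a / ((‖a‖ : ℝ) : 𝕜))) * b =
          ((1 - ‖b‖ / ‖a‖ : ℝ) : 𝕜) * a := by
        have hna' : ((‖a‖ : ℝ) : 𝕜) ≠ 0 := by exact_mod_cast hna
        push_cast
        field_simp
        ring
      rw [h1, norm_mul, RCLike.norm_ofReal, abs_of_nonneg]
      · field_simp
      · rw [sub_nonneg, div_le_one (by positivity)]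
        exact hab

/-- If a projection of norm at most `1 + γ` almost fixes `x k` and `x (k+1)`, then its kernel is
almost annihilated by `Φ k`. -/
lemma ker_Φ (P : X →ₗ[𝕜] X) (hP : ∀ x, B.N (P x) ≤ (1 + B.γ) * B.N x)
    (hPP : ∀ x, P (P x) = P x) (k : ℕ) (h0 : ‖P (B.x k) - B.x k‖ ≤ B.r1 / 4)
    (h1 : ‖P (B.x (k + 1)) - B.x (k + 1)‖ ≤ B.r1 / 4) (z : X) (hz : P z = 0) :
    ‖B.Φ k z‖ ≤ 4 * B.γ / B.r1 * ‖z‖ := by
  have hr1 := B.r1_pos
  have hγ := B.γ_pos
  have hM := B.M_pos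
  have hMr := B.M_r1_le
  set y := P (B.U k) with hy
  have hyU : ‖y - B.U k‖ ≤ B.r1 / 2 := by
    have : y - B.U k = (P (B.x (k + 1)) - B.x (k + 1)) -
        (1 / 2 : 𝕜) • (P (B.x k) - B.x k) := by
      rw [hy, U, map_sub, map_smul, smul_sub]
      abel
    rw [this]
    calc _ ≤ ‖P (B.x (k + 1)) - B.x (k + 1)‖ + ‖(1 / 2 : 𝕜) • (P (B.x k) - B.x k)‖ :=
          norm_sub_le _ _
      _ ≤ _ := by
        rw [norm_smul, norm_half]
        linarith
  have hNy : B.N y = ‖B.Φ k y‖ := by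
    have := B.near k (y - B.U k) (by linarith)
    rwa [add_sub_cancel] at this
  -- the value at y is close to one
  have hΦy : ‖B.Φ k y - 1‖ ≤ 1 / 128 := by
    have h2 := B.Φ_bound k (y - B.U k)
    rw [map_sub, B.Φ_U_self] at h2
    have : B.M * ‖y - B.U k‖ ≤ B.M * (B.r1 / 2) := mul_le_mul_of_nonneg_left hyU hM.le
    linarith
  have hΦy1 : 127 / 128 ≤ ‖B.Φ k y‖ := by
    have := norm_sub_norm_le (1 : 𝕜) (1 - B.Φ k y)
    rw [norm_one, sub_sub_cancel, norm_sub_rev] at this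
    linarith
  have hΦy2 : ‖B.Φ k y‖ ≤ 2 := by
    have := norm_sub_norm_le (B.Φ k y) 1
    rw [norm_one] at this
    linarith
  -- small kernel vectors
  have hsmall : ∀ w : X, P w = 0 → ‖w‖ ≤ B.r1 / 2 → ‖B.Φ k w‖ ≤ 2 * B.γ := by
    intro w hw hwn
    have hb : ‖B.Φ k w‖ ≤ 1 / 128 := by
      have h2 := B.Φ_bound k w
      have : B.M * ‖w‖ ≤ B.M * (B.r1 / 2) := mul_le_mul_of_nonneg_left hwn hM.le
      linarith
    have ha0 : B.Φ k y ≠ 0 := by
      intro h
      rw [h, norm_zero] at hΦy1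
      norm_num at hΦy1
    obtain ⟨t, ht, htn⟩ := rotate (B.Φ k y) (B.Φ k w) ha0 (by linarith)
    have h2 : B.N (y + t • w) = ‖B.Φ k (y + t • w)‖ := by
      have hh : ‖(y - B.U k) + t • w‖ ≤ B.r1 := by
        calc _ ≤ ‖y - B.U k‖ + ‖t • w‖ := norm_add_le _ _
          _ ≤ _ := by rw [norm_smul, ht, one_mul]; linarith
      have := B.near k ((y - B.U k) + t • w) hh
      rwa [← add_assoc, add_sub_cancel] at this
    have h3 := hP (y + t • w)
    have h4 : P (y + t • w) = y := by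
      rw [map_add, map_smul, hw, smul_zero, add_zero, hy, hPP]
    rw [h4, h2, hNy, map_add, map_smul, smul_eq_mul, htn] at h3
    nlinarith [norm_nonneg (B.Φ k w)]
  by_cases hz0 : z = 0
  · rw [hz0, map_zero, norm_zero, norm_zero, mul_zero]
  · have hzn : 0 < ‖z‖ := norm_pos_iff.mpr hz0
    have h2 := hsmall (((B.r1 / (2 * ‖z‖) : ℝ) : 𝕜) • z) (by rw [map_smul, hz, smul_zero]) (by
      rw [norm_smul, RCLike.norm_ofReal, abs_of_pos (by positivity)]
      apply le_of_eq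
      field_simp)
    rw [map_smul, norm_smul, RCLike.norm_ofReal, abs_of_pos (by positivity)] at h2
    have h3 : ‖B.Φ k z‖ = (2 * ‖z‖ / B.r1) * (B.r1 / (2 * ‖z‖) * ‖B.Φ k z‖) := by
      field_simp
    rw [h3]
    calc _ ≤ (2 * ‖z‖ / B.r1) * (2 * B.γ) := by gcongr
      _ = _ := by ring

/-- propagation step -/
lemma step (P : X →ₗ[𝕜] X) (hP : ∀ x, B.N (P x) ≤ (1 + B.γ) * B.N x)
    (hPP : ∀ x, P (P x) = P x) (k : ℕ) (h0 : ‖P (B.x k) - B.x k‖ ≤ B.r1 / 4)
    (h1 : ‖P (B.x (k + 1)) - B.x (k + 1)‖ ≤ B.r1 / 4)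
    (h2 : ‖P (B.x (k + 2)) - B.x (k + 2)‖ ≤ B.r1 / 4) :
    ‖P (B.x (k + 3)) - B.x (k + 3)‖ ≤ B.r1 / 4 := by
  have hr1 := B.r1_pos
  have hr1le := B.r1_le
  have hγ := B.γ_pos
  have hγle := B.γ_le
  set x := B.x (k + 3) with hx
  have hNx : B.N x ≤ 1 := B.N_x_le _
  have hNP : B.N (P x) ≤ 1 + B.γ := (hP x).trans (by nlinarith)
  set z := x - P x with hz
  have hPz : P z = 0 := by rw [hz, map_sub, hPP, sub_self]
  have hzn : ‖z‖ ≤ 6 := by
    have h3 := B.half_norm_le_N z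
    have h4 : B.N z ≤ B.N x + B.N (P x) := map_sub_le_add _ _ _
    linarith
  have hη0 : ‖B.Φ k z‖ ≤ 24 * B.γ / B.r1 := by
    refine (B.ker_Φ P hP hPP k h0 h1 z hPz).trans ?_
    calc _ ≤ 4 * B.γ / B.r1 * 6 := by gcongr
      _ = _ := by ring
  have hη1 : ‖B.Φ (k + 1) z‖ ≤ 24 * B.γ / B.r1 := by
    refine (B.ker_Φ P hP hPP (k + 1) h1 h2 z hPz).trans ?_
    calc _ ≤ 4 * B.γ / B.r1 * 6 := by gcongr
      _ = _ := by ring
  set η : ℝ := 36 * B.γ / B.r1 with hη
  have hVz : ‖B.V k z‖ ≤ η := by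
    rw [V, LinearMap.sub_apply, LinearMap.smul_apply]
    calc _ ≤ ‖B.Φ (k + 1) z‖ + ‖(1 / 2 : 𝕜) • B.Φ k z‖ := norm_sub_le _ _
      _ ≤ 24 * B.γ / B.r1 + (1 / 2) * (24 * B.γ / B.r1) := by
        rw [norm_smul, norm_half]
        gcongr
      _ = η := by rw [hη]; ring
  have hVx : B.V k x = 1 := B.V_x_self k
  have hVP : B.V k (P x) = 1 - B.V k z := by
    rw [hz, map_sub, hVx]; ring
  have hVP1 : 1 - η ≤ ‖B.V k (P x)‖ := by
    rw [hVP]
    have := norm_sub_norm_le (1 : 𝕜) (B.V k z)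
    rw [norm_one] at this
    linarith
  have hexp := B.expose k (P x)
  rw [← hx] at hexp
  have hN1 : B.N (P x - B.V k (P x) • x) ≤ 16 * (B.γ + η) := by linarith
  have hN2 : B.N (P x - x) ≤ 16 * (B.γ + η) + η := by
    have hdec : P x - x = (P x - B.V k (P x) • x) + (-(B.V k z)) • x := by
      rw [hVP, sub_smul, one_smul, neg_smul]
      abel
    rw [hdec]
    calc _ ≤ B.N (P x - B.V k (P x) • x) + B.N ((-(B.V k z)) • x) := map_add_le_add _ _ _
      _ ≤ _ := by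
        rw [map_smul_eq_mul, norm_neg]
        have : ‖B.V k z‖ * B.N x ≤ η * 1 :=
          mul_le_mul hVz hNx (apply_nonneg _ _) ((norm_nonneg _).trans hVz)
        linarith
  have hfin := B.half_norm_le_N (P x - x)
  have hη' : η = 36 * B.r1 / 6000 := by
    rw [hη, γ]; field_simp
  have hγ' : B.γ ≤ B.r1 / 6000 := by
    unfold γ
    nlinarith
  rw [hη'] at hN2
  linarith

lemma separated (i j : ℕ) (h : i ≠ j) : 1 ≤ B.M * ‖B.x i - B.x j‖ := by
  have := B.nf i (B.x i - B.x j)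
  rw [map_sub, B.ortho, B.ortho, if_pos rfl, if_neg h, sub_zero, norm_one] at this
  exact this

/-- A finite-rank projection which almost fixes the first three vectors has norm larger than
`1 + γ` in the new norm. -/
theorem no_projection (P : X →ₗ[𝕜] X) (hPP : ∀ x, P (P x) = P x)
    (W : Submodule 𝕜 X) [FiniteDimensional 𝕜 W] (hW : ∀ x, P x ∈ W)
    (h0 : ‖P (B.x 0) - B.x 0‖ ≤ B.r1 / 4)
    (h1 : ‖P (B.x 1) - B.x 1‖ ≤ B.r1 / 4)
    (h2 : ‖P (B.x 2) - B.x 2‖ ≤ B.r1 / 4) :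
    ¬ ∀ x, B.N (P x) ≤ (1 + B.γ) * B.N x := by
  intro hP
  have hall3 : ∀ k, ‖P (B.x k) - B.x k‖ ≤ B.r1 / 4 ∧ ‖P (B.x (k + 1)) - B.x (k + 1)‖ ≤ B.r1 / 4 ∧
      ‖P (B.x (k + 2)) - B.x (k + 2)‖ ≤ B.r1 / 4 := by
    intro k
    induction k with
    | zero => exact ⟨h0, h1, h2⟩
    | succ k ih => exact ⟨ih.2.1, ih.2.2, B.step P hP hPP k ih.1 ih.2.1 ih.2.2⟩
  have hall : ∀ k, ‖P (B.x k) - B.x k‖ ≤ B.r1 / 4 := fun k => (hall3 k).1
  have hr1le := B.r1_le
  have hMr := B.M_r1_le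
  have hM := B.M_pos
  haveI : ProperSpace W := FiniteDimensional.proper 𝕜 W
  let y : ℕ → W := fun k => ⟨P (B.x k), hW _⟩
  have hyb : ∀ k, ‖y k‖ ≤ 2 := by
    intro k
    show ‖P (B.x k)‖ ≤ 2
    have := norm_sub_norm_le (P (B.x k)) (B.x k)
    have := hall k
    rw [B.nx] at *
    linarith
  obtain ⟨yl, -, φ, hφ, hlim⟩ := tendsto_subseq_of_bounded (s := Metric.closedBall (0 : W) 2)
    Metric.isBounded_closedBall (x := y) (fun k => by
      rw [mem_closedBall_zero_iff]; exact hyb k)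
  have hc := hlim.cauchySeq
  rw [Metric.cauchySeq_iff] at hc
  obtain ⟨n, hn⟩ := hc (1 / (2 * B.M)) (by positivity)
  have h3 := hn n le_rfl (n + 1) (by omega)
  have hne : φ n ≠ φ (n + 1) := (hφ (by omega : n < n + 1)).ne
  have h4 := B.separated _ _ hne
  have h5 : ‖P (B.x (φ n)) - P (B.x (φ (n + 1)))‖ < 1 / (2 * B.M) := by
    have hd : dist (y (φ n)) (y (φ (n + 1))) = ‖P (B.x (φ n)) - P (B.x (φ (n + 1)))‖ := by
      rw [Subtype.dist_eq, dist_eq_norm]
    rw [← hd]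
    exact h3
  have h6 : ‖B.x (φ n) - B.x (φ (n + 1))‖ ≤ B.r1 / 4 + 1 / (2 * B.M) + B.r1 / 4 := by
    have e : B.x (φ n) - B.x (φ (n + 1)) = -(P (B.x (φ n)) - B.x (φ n)) +
        (P (B.x (φ n)) - P (B.x (φ (n + 1)))) + (P (B.x (φ (n + 1))) - B.x (φ (n + 1))) := by
      abel
    rw [e]
    calc _ ≤ ‖-(P (B.x (φ n)) - B.x (φ n)) + (P (B.x (φ n)) - P (B.x (φ (n + 1))))‖ +
          ‖P (B.x (φ (n + 1))) - B.x (φ (n + 1))‖ := norm_add_le _ _
      _ ≤ ‖-(P (B.x (φ n)) - B.x (φ n))‖ + ‖P (B.x (φ n)) - P (B.x (φ (n + 1)))‖ +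
          ‖P (B.x (φ (n + 1))) - B.x (φ (n + 1))‖ := by gcongr; exact norm_add_le _ _
      _ ≤ _ := by
        rw [norm_neg]
        have := hall (φ n)
        have := hall (φ (n + 1))
        linarith
  have h7 : B.M * (B.r1 / 4 + 1 / (2 * B.M) + B.r1 / 4) = B.M * B.r1 / 2 + 1 / 2 := by
    field_simp
    ring
  have h8 := mul_le_mul_of_nonneg_left h6 hM.le
  rw [h7] at h8
  linarith

/-- Every Schauder basis has basis constant larger than `1 + γ` for the new norm. -/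
theorem basis_const {e : ℕ → X} (h : IsBasis 𝕜 e) :
    ¬ ∀ n x, B.N (S h n x) ≤ (1 + B.γ) * B.N x := by
  intro hall
  have hr1 := B.r1_pos
  have e0 := (Metric.tendsto_nhds.mp (S_tendsto h (B.x 0))) (B.r1 / 4) (by positivity)
  have e1 := (Metric.tendsto_nhds.mp (S_tendsto h (B.x 1))) (B.r1 / 4) (by positivity)
  have e2 := (Metric.tendsto_nhds.mp (S_tendsto h (B.x 2))) (B.r1 / 4) (by positivity)
  obtain ⟨n, h0, h1, h2⟩ := (e0.and (e1.and e2)).exists
  rw [dist_eq_norm] at h0 h1 h2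
  haveI : FiniteDimensional 𝕜 (Submodule.span 𝕜 (e '' (Finset.range n : Set ℕ))) :=
    FiniteDimensional.span_of_finite 𝕜 ((Finset.finite_toSet _).image e)
  exact B.no_projection (S h n) (S_S h n) _ (S_mem h n) h0.le h1.le h2.le (hall n)

end BSys

/-- A Schauder basis of a Banach space gives a bounded biorthogonal system. -/
theorem exists_BSys [CompleteSpace X] {e : ℕ → X} (h : IsBasis 𝕜 e) : Nonempty (BSys 𝕜 X) := by
  obtain ⟨K, hK, hKx⟩ := exists_bound h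
  have hz : coef h 0 = 0 := by
    symm
    apply coef_unique
    simp
  have hne : ∀ j, e j ≠ 0 := by
    intro j hj
    have h1 : (Pi.single j (1 : 𝕜) : ℕ → 𝕜) = coef h 0 := by
      apply coef_unique
      have : ∀ n, ∑ i ∈ Finset.range n, (Pi.single j (1 : 𝕜) : ℕ → 𝕜) i • e i = 0 := by
        intro n
        apply Finset.sum_eq_zero
        intro i _
        by_cases hij : i = j
        · rw [hij, hj, smul_zero]
        · rw [Pi.single_eq_of_ne hij, zero_smul]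
      simp only [this]
      exact tendsto_const_nhds
    rw [hz] at h1
    have := congrFun h1 j
    simp at this
  let c : ℕ → X →ₗ[𝕜] 𝕜 := fun j =>
    { toFun := fun x => coef h x j
      map_add' := fun x y => by rw [coef_add]; rfl
      map_smul' := fun a x => by rw [coef_smul]; rfl }
  have hc : ∀ j x, c j x = coef h x j := fun _ _ => rfl
  have hce : ∀ i j, c i (e j) = if i = j then 1 else 0 := by
    intro i j
    rw [hc]
    have h1 : coef h (∑ k ∈ Finset.range (j + 1), (Pi.single j (1 : 𝕜) : ℕ → 𝕜) k • e k) = _ :=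
      coef_comb h (j + 1) _
    have h2 : ∑ k ∈ Finset.range (j + 1), (Pi.single j (1 : 𝕜) : ℕ → 𝕜) k • e k = e j := by
      rw [Finset.sum_eq_single j]
      · simp
      · intro k _ hk
        rw [Pi.single_eq_of_ne hk, zero_smul]
      · intro hj
        simp at hj
    rw [h2] at h1
    rw [h1]
    by_cases hij : i = j
    · subst hij
      simp
    · simp [hij]
  have hcn : ∀ j x, ‖c j x‖ * ‖e j‖ ≤ 2 * K * ‖x‖ := by
    intro j x
    have h1 : c j x • e j = S h (j + 1) x - S h j x := by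
      rw [S_apply, S_apply, Finset.sum_range_succ, hc]
      abel
    rw [← norm_smul, h1]
    calc _ ≤ ‖S h (j + 1) x‖ + ‖S h j x‖ := norm_sub_le _ _
      _ ≤ _ := by linarith [hKx (j + 1) x, hKx j x]
  refine ⟨{ x := fun j => ((‖e j‖⁻¹ : ℝ) : 𝕜) • e j
            f := fun j => ((‖e j‖ : ℝ) : 𝕜) • c j
            M := max 1 (2 * K)
            hM := le_max_left _ _
            nx := ?_
            nf := ?_
            ortho := ?_ }⟩
  · intro j
    have := norm_ne_zero_iff.mpr (hne j)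
    rw [norm_smul, RCLike.norm_ofReal, abs_of_nonneg (by positivity)]
    field_simp
  · intro j y
    rw [LinearMap.smul_apply, norm_smul, RCLike.norm_ofReal, abs_norm]
    calc _ = ‖c j y‖ * ‖e j‖ := by ring
      _ ≤ 2 * K * ‖y‖ := hcn j y
      _ ≤ _ := mul_le_mul_of_nonneg_right (le_max_right _ _) (norm_nonneg _)
  · intro i j
    have hi := norm_ne_zero_iff.mpr (hne i)
    have hi' : ((‖e i‖ : ℝ) : 𝕜) ≠ 0 := by exact_mod_cast hi
    rw [LinearMap.smul_apply, map_smul, hce, smul_eq_mul, smul_eq_mul]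
    by_cases hij : i = j
    · subst hij
      simp [hi']
    · simp [hij]

end

end Pool.Agent.Helper519.Renorm
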