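import Mathlib
import Pool.Agent.Helper519.Propagate

set_option autoImplicit false

namespace Pool.Agent.Helper519.Renorm

open scoped Topology NNReal
open Filter

noncomputable section

variable {𝕜 : Type*} [RCLike 𝕜] {X : Type*} [NormedAddCommGroup X] [NormedSpace 𝕜 X]

namespace BSys

variable (B : BSys 𝕜 X)

/-- the constant of the version for almost projections -/
def c : ℝ := B.r1 ^ 2 / 10000

lemma c_pos : 0 < B.c := by
  have := B.r1_pos
  unfold c; positivity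

lemma c_le : B.c ≤ 1 / 2 := by
  have h1 := B.r1_pos
  have h2 := B.r1_le
  unfold c
  nlinarith

lemma N_U_le (k : ℕ) : B.N (B.U k) ≤ 1 := by
  have := B.N_adm.2.2 k 0 (map_zero _) (by rw [norm_zero]; exact B.r_pos.le)
  rwa [add_zero] at this

/-- If `A` is almost a projection of norm at most `1 + c` which almost fixes `x k` and `x (k+1)`,
then vectors which are almost killed by `A` are almost annihilated by `Φ k`. -/
lemma ker_Φ' (A : X →ₗ[𝕜] X) (hA : ∀ x, B.N (A x) ≤ (1 + B.c) * B.N x)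
    (hAA : ∀ x, B.N (A (A x) - A x) ≤ B.c * B.N x) (k : ℕ)
    (h0 : ‖A (B.x k) - B.x k‖ ≤ B.r1 / 4)
    (h1 : ‖A (B.x (k + 1)) - B.x (k + 1)‖ ≤ B.r1 / 4) (w : X) (hw : B.N (A w) ≤ B.c)
    (hwn : ‖w‖ ≤ B.r1 / 2) :
    ‖B.Φ k w‖ ≤ 4 * B.c := by
  have hr1 := B.r1_pos
  have hγ := B.c_pos
  have hM := B.M_pos
  have hMr := B.M_r1_le
  set y := A (B.U k) with hy
  have hyU : ‖y - B.U k‖ ≤ B.r1 / 2 := by
    have : y - B.U k = (A (B.x (k + 1)) - B.x (k + 1)) -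
        (1 / 2 : 𝕜) • (A (B.x k) - B.x k) := by
      rw [hy, U, map_sub, map_smul, smul_sub]
      abel
    rw [this]
    calc _ ≤ ‖A (B.x (k + 1)) - B.x (k + 1)‖ + ‖(1 / 2 : 𝕜) • (A (B.x k) - B.x k)‖ :=
          norm_sub_le _ _
      _ ≤ _ := by
        rw [norm_smul, norm_half]
        linarith
  have hNy : B.N y = ‖B.Φ k y‖ := by
    have := B.near k (y - B.U k) (by linarith)
    rwa [add_sub_cancel] at this
  -- the value at y is close to one
  have hΦy : ‖B.Φ k y - 1‖ ≤ 1 / 128 := by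
    have h2 := B.Φ_bound k (y - B.U k)
    rw [map_sub, B.Φ_U_self] at h2
    have : B.M * ‖y - B.U k‖ ≤ B.M * (B.r1 / 2) := mul_le_mul_of_nonneg_left hyU hM.le
    linarith
  have hΦy1 : 127 / 128 ≤ ‖B.Φ k y‖ := by
    have := norm_sub_norm_le (1 : 𝕜) (1 - B.Φ k y)
    rw [norm_one, sub_sub_cancel, norm_sub_rev] at this
    linarith
  have hΦy2 : ‖B.Φ k y‖ ≤ 2 := by
    have := norm_sub_norm_le (B.Φ k y) 1
    rw [norm_one] at this
    linarith
  have hb : ‖B.Φ k w‖ ≤ 1 / 128 := by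
    have h2 := B.Φ_bound k w
    have : B.M * ‖w‖ ≤ B.M * (B.r1 / 2) := mul_le_mul_of_nonneg_left hwn hM.le
    linarith
  have ha0 : B.Φ k y ≠ 0 := by
    intro h
    rw [h, norm_zero] at hΦy1
    norm_num at hΦy1
  obtain ⟨t, ht, htn⟩ := rotate (B.Φ k y) (B.Φ k w) ha0 (by linarith)
  have h2 : B.N (y + t • w) = ‖B.Φ k (y + t • w)‖ := by
    have hh : ‖(y - B.U k) + t • w‖ ≤ B.r1 := by
      calc _ ≤ ‖y - B.U k‖ + ‖t • w‖ := norm_add_le _ _
        _ ≤ _ := by rw [norm_smul, ht, one_mul]; linarith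
    have := B.near k ((y - B.U k) + t • w) hh
    rwa [← add_assoc, add_sub_cancel] at this
  have h3 := hA (y + t • w)
  have h4 : B.N y ≤ B.N (A (y + t • w)) + B.N (A (A (B.U k)) - A (B.U k)) + B.N (t • A w) := by
    have e : y = A (y + t • w) - (A (A (B.U k)) - A (B.U k)) - t • A w := by
      rw [map_add, map_smul, hy]
      abel
    calc B.N y = B.N (A (y + t • w) - (A (A (B.U k)) - A (B.U k)) - t • A w) := by rw [← e]
      _ ≤ B.N (A (y + t • w) - (A (A (B.U k)) - A (B.U k))) + B.N (t • A w) :=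
          map_sub_le_add _ _ _
      _ ≤ _ := by
        gcongr
        exact map_sub_le_add _ _ _
  have h5 : B.N (A (A (B.U k)) - A (B.U k)) ≤ B.c := by
    refine (hAA _).trans ?_
    have := B.N_U_le k
    nlinarith
  have h6 : B.N (t • A w) ≤ B.c := by
    rw [map_smul_eq_mul, ht, one_mul]
    exact hw
  have h7 : B.Φ k (y + t • w) = B.Φ k y + t * B.Φ k w := by
    rw [map_add, map_smul, smul_eq_mul]
  rw [h2, h7, htn] at h3
  rw [hNy] at h4
  nlinarith [norm_nonneg (B.Φ k w)]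

/-- propagation step -/
lemma step' (A : X →ₗ[𝕜] X) (hA : ∀ x, B.N (A x) ≤ (1 + B.c) * B.N x)
    (hAA : ∀ x, B.N (A (A x) - A x) ≤ B.c * B.N x) (k : ℕ)
    (h0 : ‖A (B.x k) - B.x k‖ ≤ B.r1 / 4)
    (h1 : ‖A (B.x (k + 1)) - B.x (k + 1)‖ ≤ B.r1 / 4)
    (h2 : ‖A (B.x (k + 2)) - B.x (k + 2)‖ ≤ B.r1 / 4) :
    ‖A (B.x (k + 3)) - B.x (k + 3)‖ ≤ B.r1 / 4 := by
  have hr1 := B.r1_pos
  have hr1le := B.r1_le
  have hγ := B.c_pos
  have hγle := B.c_le
  set x := B.x (k + 3) with hx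
  have hNx : B.N x ≤ 1 := B.N_x_le _
  have hNP : B.N (A x) ≤ 1 + B.c := (hA x).trans (by nlinarith)
  set z := x - A x with hz
  have hAz : B.N (A z) ≤ B.c := by
    have e : A z = -(A (A x) - A x) := by
      rw [hz, map_sub]; abel
    rw [e, map_neg_eq_map]
    refine (hAA x).trans ?_
    nlinarith
  have hzn : ‖z‖ ≤ 6 := by
    have h3 := B.half_norm_le_N z
    have h4 : B.N z ≤ B.N x + B.N (A x) := map_sub_le_add _ _ _
    linarith
  have hη : ∀ l, ‖A (B.x l) - B.x l‖ ≤ B.r1 / 4 → ‖A (B.x (l + 1)) - B.x (l + 1)‖ ≤ B.r1 / 4 →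
      ‖B.Φ l z‖ ≤ 48 * B.c / B.r1 := by
    intro l hl0 hl1
    have h3 : B.N (A (((B.r1 / 12 : ℝ) : 𝕜) • z)) ≤ B.c := by
      rw [map_smul, map_smul_eq_mul, RCLike.norm_ofReal, abs_of_pos (by positivity)]
      have : B.r1 / 12 * B.N (A z) ≤ 1 * B.N (A z) := by
        apply mul_le_mul_of_nonneg_right (by linarith) (apply_nonneg _ _)
      linarith
    have h4 : ‖((B.r1 / 12 : ℝ) : 𝕜) • z‖ ≤ B.r1 / 2 := by
      rw [norm_smul, RCLike.norm_ofReal, abs_of_pos (by positivity)]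
      have : B.r1 / 12 * ‖z‖ ≤ B.r1 / 12 * 6 := by gcongr
      linarith
    have h5 := B.ker_Φ' A hA hAA l hl0 hl1 _ h3 h4
    rw [map_smul, norm_smul, RCLike.norm_ofReal, abs_of_pos (by positivity)] at h5
    rw [le_div_iff₀ hr1]
    linarith
  have hη0 := hη k h0 h1
  have hη1 := hη (k + 1) h1 h2
  set η : ℝ := 72 * B.c / B.r1 with hηd
  have hVz : ‖B.V k z‖ ≤ η := by
    rw [V, LinearMap.sub_apply, LinearMap.smul_apply]
    calc _ ≤ ‖B.Φ (k + 1) z‖ + ‖(1 / 2 : 𝕜) • B.Φ k z‖ := norm_sub_le _ _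
      _ ≤ 48 * B.c / B.r1 + (1 / 2) * (48 * B.c / B.r1) := by
        rw [norm_smul, norm_half]
        gcongr
      _ = η := by rw [hηd]; ring
  have hVx : B.V k x = 1 := B.V_x_self k
  have hVP : B.V k (A x) = 1 - B.V k z := by
    rw [hz, map_sub, hVx]; ring
  have hVP1 : 1 - η ≤ ‖B.V k (A x)‖ := by
    rw [hVP]
    have := norm_sub_norm_le (1 : 𝕜) (B.V k z)
    rw [norm_one] at this
    linarith
  have hexp := B.expose k (A x)
  rw [← hx] at hexp
  have hN1 : B.N (A x - B.V k (A x) • x) ≤ 16 * (B.c + η) := by linarith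
  have hN2 : B.N (A x - x) ≤ 16 * (B.c + η) + η := by
    have hdec : A x - x = (A x - B.V k (A x) • x) + (-(B.V k z)) • x := by
      rw [hVP, sub_smul, one_smul, neg_smul]
      abel
    rw [hdec]
    calc _ ≤ B.N (A x - B.V k (A x) • x) + B.N ((-(B.V k z)) • x) := map_add_le_add _ _ _
      _ ≤ _ := by
        rw [map_smul_eq_mul, norm_neg]
        have : ‖B.V k z‖ * B.N x ≤ η * 1 :=
          mul_le_mul hVz hNx (apply_nonneg _ _) ((norm_nonneg _).trans hVz)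
        linarith
  have hfin := B.half_norm_le_N (A x - x)
  have hη' : η = 72 * B.r1 / 10000 := by
    rw [hηd, c]; field_simp
  have hγ' : B.c ≤ B.r1 / 10000 / 128 := by
    unfold c
    nlinarith
  rw [hη'] at hN2
  linarith

/-- There is no finite-rank operator of norm at most `1 + c`, almost idempotent, which almost
fixes the first three vectors. -/
theorem no_almost_projection (A : X →ₗ[𝕜] X)
    (hA : ∀ x, B.N (A x) ≤ (1 + B.c) * B.N x)
    (hAA : ∀ x, B.N (A (A x) - A x) ≤ B.c * B.N x)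
    (W : Submodule 𝕜 X) [FiniteDimensional 𝕜 W] (hW : ∀ x, A x ∈ W)
    (h0 : ‖A (B.x 0) - B.x 0‖ ≤ B.r1 / 4)
    (h1 : ‖A (B.x 1) - B.x 1‖ ≤ B.r1 / 4)
    (h2 : ‖A (B.x 2) - B.x 2‖ ≤ B.r1 / 4) : False := by
  have hall3 : ∀ k, ‖A (B.x k) - B.x k‖ ≤ B.r1 / 4 ∧ ‖A (B.x (k + 1)) - B.x (k + 1)‖ ≤ B.r1 / 4 ∧
      ‖A (B.x (k + 2)) - B.x (k + 2)‖ ≤ B.r1 / 4 := by
    intro k
    induction k with
    | zero => exact ⟨h0, h1, h2⟩
    | succ k ih => exact ⟨ih.2.1, ih.2.2, B.step' A hA hAA k ih.1 ih.2.1 ih.2.2⟩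
  have hall : ∀ k, ‖A (B.x k) - B.x k‖ ≤ B.r1 / 4 := fun k => (hall3 k).1
  have hr1le := B.r1_le
  have hMr := B.M_r1_le
  have hM := B.M_pos
  have : ProperSpace W := FiniteDimensional.proper 𝕜 W
  let y : ℕ → W := fun k => ⟨A (B.x k), hW _⟩
  have hyb : ∀ k, ‖y k‖ ≤ 2 := by
    intro k
    show ‖A (B.x k)‖ ≤ 2
    have := norm_sub_norm_le (A (B.x k)) (B.x k)
    have := hall k
    rw [B.nx] at *
    linarith
  obtain ⟨yl, -, φ, hφ, hlim⟩ := tendsto_subseq_of_bounded (s := Metric.closedBall (0 : W) 2)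
    Metric.isBounded_closedBall (x := y) (fun k => by
      rw [mem_closedBall_zero_iff]; exact hyb k)
  have hc := hlim.cauchySeq
  rw [Metric.cauchySeq_iff] at hc
  obtain ⟨n, hn⟩ := hc (1 / (2 * B.M)) (by positivity)
  have h3 := hn n le_rfl (n + 1) (by omega)
  have hne : φ n ≠ φ (n + 1) := (hφ (by omega : n < n + 1)).ne
  have h4 := B.separated _ _ hne
  have h5 : ‖A (B.x (φ n)) - A (B.x (φ (n + 1)))‖ < 1 / (2 * B.M) := by
    have hd : dist (y (φ n)) (y (φ (n + 1))) = ‖A (B.x (φ n)) - A (B.x (φ (n + 1)))‖ := by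
      rw [Subtype.dist_eq, dist_eq_norm]
    rw [← hd]
    exact h3
  have h6 : ‖B.x (φ n) - B.x (φ (n + 1))‖ ≤ B.r1 / 4 + 1 / (2 * B.M) + B.r1 / 4 := by
    have e : B.x (φ n) - B.x (φ (n + 1)) = -(A (B.x (φ n)) - B.x (φ n)) +
        (A (B.x (φ n)) - A (B.x (φ (n + 1)))) + (A (B.x (φ (n + 1))) - B.x (φ (n + 1))) := by
      abel
    rw [e]
    calc _ ≤ ‖-(A (B.x (φ n)) - B.x (φ n)) + (A (B.x (φ n)) - A (B.x (φ (n + 1))))‖ +
          ‖A (B.x (φ (n + 1))) - B.x (φ (n + 1))‖ := norm_add_le _ _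
      _ ≤ ‖-(A (B.x (φ n)) - B.x (φ n))‖ + ‖A (B.x (φ n)) - A (B.x (φ (n + 1)))‖ +
          ‖A (B.x (φ (n + 1))) - B.x (φ (n + 1))‖ := by gcongr; exact norm_add_le _ _
      _ ≤ _ := by
        rw [norm_neg]
        have := hall (φ n)
        have := hall (φ (n + 1))
        linarith
  have h7 : B.M * (B.r1 / 4 + 1 / (2 * B.M) + B.r1 / 4) = B.M * B.r1 / 2 + 1 / 2 := by
    field_simp
    ring
  have h8 := mul_le_mul_of_nonneg_left h6 hM.le
  rw [h7] at h8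
  linarith

end BSys

end

end Pool.Agent.Helper519.Renorm
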