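import Mathlib
import Pool.Agent.Helper519.Schauder

set_option autoImplicit false

namespace Pool.Agent.Helper519.BasisAttain

open scoped ZeroAtInfty Topology
open Filter

noncomputable section

/-- The weights of the functional. -/
def w (j : ℕ) : ℝ := (3 / 4) * (1 / 2) ^ j

lemma w_pos (j : ℕ) : 0 < w j := by unfold w; positivity

lemma w_nonneg (j : ℕ) : 0 ≤ w j := (w_pos j).le

lemma hasSum_w : HasSum w (3 / 2) := by
  have h := (hasSum_geometric_of_lt_one (by norm_num : (0 : ℝ) ≤ 1 / 2) (by norm_num)).mul_left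
    (3 / 4 : ℝ)
  norm_num at h
  unfold w
  convert h using 1

lemma summable_w : Summable w := hasSum_w.summable

/-- Elements of `c_0` with a single nonzero coordinate. -/
def single (i : ℕ) (a : ℝ) : C₀(ℕ, ℝ) where
  toFun := Pi.single i a
  continuous_toFun := continuous_of_discreteTopology
  zero_at_infty' := by
    rw [cocompact_eq_cofinite, Nat.cofinite_eq_atTop]
    apply tendsto_const_nhds.congr'
    filter_upwards [eventually_gt_atTop i] with n hn
    simp [(ne_of_gt hn)]

@[simp] lemma single_apply (i j : ℕ) (a : ℝ) : single i a j = if j = i then a else 0 := by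
  show (Pi.single i a : ℕ → ℝ) j = _
  simp [Pi.single_apply]

lemma abs_le_norm (x : C₀(ℕ, ℝ)) (j : ℕ) : |x j| ≤ ‖x‖ := by
  have := x.toBCF.norm_coe_le_norm j
  rwa [ZeroAtInftyContinuousMap.norm_toBCF_eq_norm] at this

lemma norm_le_iff (x : C₀(ℕ, ℝ)) (C : ℝ) (hC : 0 ≤ C) : ‖x‖ ≤ C ↔ ∀ j, |x j| ≤ C := by
  rw [← ZeroAtInftyContinuousMap.norm_toBCF_eq_norm, BoundedContinuousFunction.norm_le hC]
  rfl

lemma summable_wx (x : C₀(ℕ, ℝ)) : Summable (fun j => w j * x (j + 1)) := by
  apply Summable.of_norm_bounded (g := fun j => w j * ‖x‖) (summable_w.mul_right _)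
  intro j
  rw [Real.norm_eq_abs, abs_mul, abs_of_nonneg (w_nonneg j)]
  exact mul_le_mul_of_nonneg_left (abs_le_norm x _) (w_nonneg j)

/-- The functional whose kernel is the space. -/
def F : C₀(ℕ, ℝ) →L[ℝ] ℝ :=
  LinearMap.mkContinuous
    { toFun := fun x => x 0 - ∑' j, w j * x (j + 1)
      map_add' := by
        intro x y
        have : (fun j => w j * (x + y) (j + 1)) = fun j => w j * x (j + 1) + w j * y (j + 1) := by
          funext j; simp [mul_add]
        rw [this, (summable_wx x).tsum_add (summable_wx y)]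
        simp; ring
      map_smul' := by
        intro c x
        have : (fun j => w j * (c • x) (j + 1)) = fun j => c * (w j * x (j + 1)) := by
          funext j; simp; ring
        rw [this, tsum_mul_left]
        simp; ring }
    (1 + 3 / 2) (by
      intro x
      show ‖x 0 - ∑' j, w j * x (j + 1)‖ ≤ _
      have h1 : ‖∑' j, w j * x (j + 1)‖ ≤ 3 / 2 * ‖x‖ := by
        apply tsum_of_norm_bounded (hasSum_w.mul_right _)
        intro j
        rw [Real.norm_eq_abs, abs_mul, abs_of_nonneg (w_nonneg j)]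
        exact mul_le_mul_of_nonneg_left (abs_le_norm x _) (w_nonneg j)
      calc _ ≤ ‖x 0‖ + ‖∑' j, w j * x (j + 1)‖ := norm_sub_le _ _
        _ ≤ ‖x‖ + 3 / 2 * ‖x‖ := add_le_add (abs_le_norm x 0) h1
        _ = _ := by ring)

lemma F_apply (x : C₀(ℕ, ℝ)) : F x = x 0 - ∑' j, w j * x (j + 1) := rfl

/-- The Banach space: a hyperplane of `c_0`. -/
def E : Type := LinearMap.ker (F : C₀(ℕ, ℝ) →ₗ[ℝ] ℝ)

instance : NormedAddCommGroup E :=
  inferInstanceAs (NormedAddCommGroup (LinearMap.ker (F : C₀(ℕ, ℝ) →ₗ[ℝ] ℝ)))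

instance : NormedSpace ℝ E :=
  inferInstanceAs (NormedSpace ℝ (LinearMap.ker (F : C₀(ℕ, ℝ) →ₗ[ℝ] ℝ)))

instance : CompleteSpace E := F.isClosed_ker.completeSpace_coe

/-- coordinates -/
def co (x : E) (j : ℕ) : ℝ := (x.1 : C₀(ℕ, ℝ)) j

lemma co_zero_eq (x : E) : co x 0 = ∑' j, w j * co x (j + 1) := by
  have h : F (x.1 : C₀(ℕ, ℝ)) = 0 := x.2
  rw [F_apply] at h
  exact sub_eq_zero.mp h

lemma co_add (x y : E) (j : ℕ) : co (x + y) j = co x j + co y j := rfl
lemma co_sub (x y : E) (j : ℕ) : co (x - y) j = co x j - co y j := rfl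
lemma co_smul (c : ℝ) (x : E) (j : ℕ) : co (c • x) j = c * co x j := rfl
lemma co_zero' (j : ℕ) : co 0 j = 0 := rfl

lemma co_sum {ι : Type} (s : Finset ι) (f : ι → E) (j : ℕ) :
    co (∑ i ∈ s, f i) j = ∑ i ∈ s, co (f i) j := by
  classical
  induction s using Finset.induction_on with
  | empty => simp [co_zero']
  | insert a s ha ih => rw [Finset.sum_insert ha, Finset.sum_insert ha, co_add, ih]

lemma abs_co_le (x : E) (j : ℕ) : |co x j| ≤ ‖x‖ := abs_le_norm _ _

lemma norm_le (x : E) (C : ℝ) (hC : 0 ≤ C) (h : ∀ j, |co x j| ≤ C) : ‖x‖ ≤ C :=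
  (norm_le_iff _ C hC).mpr h

lemma co_tendsto (x : E) : Tendsto (fun j => co x j) atTop (𝓝 0) := by
  have := (x.1 : C₀(ℕ, ℝ)).zero_at_infty'
  rw [cocompact_eq_cofinite, Nat.cofinite_eq_atTop] at this
  exact this

lemma continuous_co (j : ℕ) : Continuous (fun x : E => co x j) := by
  have : LipschitzWith 1 (fun x : E => co x j) := by
    apply LipschitzWith.of_dist_le_mul
    intro x y
    have hd : dist x y = ‖x - y‖ := dist_eq_norm x y
    rw [Real.dist_eq, ← co_sub, hd]
    simpa using abs_co_le (x - y) j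
  exact this.continuous

/-- basis vectors -/
def b (j : ℕ) : E := ⟨single (j + 1) 1 + single 0 (w j), by
  show F _ = 0
  rw [F_apply]
  have : (fun i => w i * (single (j + 1) 1 + single 0 (w j)) (i + 1)) =
      fun i => if i = j then w j else 0 := by
    funext i
    by_cases h : i = j <;> simp [h]
  rw [this, tsum_ite_eq]
  simp⟩

lemma co_b_succ (j i : ℕ) : co (b j) (i + 1) = if i = j then 1 else 0 := by
  show (single (j + 1) 1 + single 0 (w j)) (i + 1) = _
  simp

lemma co_b_zero (j : ℕ) : co (b j) 0 = w j := by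
  show (single (j + 1) 1 + single 0 (w j)) 0 = _
  simp

/-- The order of the coordinates in the `N`-th basis. -/
def sg (N k : ℕ) : ℕ := if k < N then k + 1 else if k = N then 0 else k

lemma sg_inj (N : ℕ) : Function.Injective (sg N) := by
  intro a c h
  unfold sg at h
  split_ifs at h <;> omega

/-- The `N`-th basis. -/
def f (N k : ℕ) : E := b (sg N k)

lemma co_f_succ (N k i : ℕ) : co (f N k) (i + 1) = if i = sg N k then 1 else 0 := co_b_succ _ _

lemma co_f_zero (N k : ℕ) : co (f N k) 0 = w (sg N k) := co_b_zero _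

lemma sg_lt_iff (N p : ℕ) (hp : N < p) (i : ℕ) : (∃ k < p, sg N k = i) ↔ i < p := by
  unfold sg
  constructor
  · rintro ⟨k, hk, h⟩
    split_ifs at h <;> omega
  · intro hi
    rcases Nat.eq_zero_or_pos i with h0 | h0
    · exact ⟨N, hp, by simp [h0]⟩
    · by_cases h : i ≤ N
      · exact ⟨i - 1, by omega, by rw [if_pos (by omega)]; omega⟩
      · exact ⟨i, hi, by rw [if_neg (by omega), if_neg (by omega)]⟩

/-- coordinates of finite combinations -/
lemma co_comb_succ (N p : ℕ) (a : ℕ → ℝ) (k : ℕ) :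
    co (∑ i ∈ Finset.range p, a i • f N i) (sg N k + 1) = if k < p then a k else 0 := by
  rw [co_sum]
  simp only [co_smul, co_f_succ]
  rw [Finset.sum_congr rfl (fun i _ => by
    rw [show (if sg N k = sg N i then (1 : ℝ) else 0) = if k = i then 1 else 0 by
      by_cases h : k = i
      · simp [h]
      · rw [if_neg h, if_neg (fun h' => h (sg_inj N h'))]])]
  simp [Finset.mem_range]

lemma co_comb_zero (N p : ℕ) (a : ℕ → ℝ) :
    co (∑ i ∈ Finset.range p, a i • f N i) 0 = ∑ i ∈ Finset.range p, a i * w (sg N i) := by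
  rw [co_sum]
  simp only [co_smul, co_f_zero]

/-- every index is a value of `sg` -/
lemma sg_surj (N i : ℕ) : ∃ k, sg N k = i := by
  obtain ⟨k, _, h⟩ := (sg_lt_iff N (max N i + 1) (by omega) i).mpr (by omega)
  exact ⟨k, h⟩

lemma sum_sg (N p : ℕ) (hp : N < p) (g : ℕ → ℝ) :
    ∑ i ∈ Finset.range p, g (sg N i) = ∑ i ∈ Finset.range p, g i := by
  have himg : (Finset.range p).image (sg N) = Finset.range p := by
    ext i
    rw [Finset.mem_image, Finset.mem_range, ← sg_lt_iff N p hp i]
    simp [Finset.mem_range]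
  rw [← Finset.sum_image (f := g) (fun x _ y _ h => sg_inj N h), himg]

lemma sum_sg_le (N p : ℕ) (hp : p ≤ N) (g : ℕ → ℝ) :
    ∑ i ∈ Finset.range p, g (sg N i) = ∑ i ∈ Finset.range p, g (i + 1) := by
  apply Finset.sum_congr rfl
  intro i hi
  rw [Finset.mem_range] at hi
  rw [sg, if_pos (by omega)]

/-- expansion in the `N`-th basis: tail estimate -/
lemma norm_tail_le (N p : ℕ) (hp : N < p) (x : E) (ε : ℝ) (hε : 0 ≤ ε)
    (h : ∀ i, p ≤ i → |co x (i + 1)| ≤ ε) :
    ‖x - ∑ k ∈ Finset.range p, co x (sg N k + 1) • f N k‖ ≤ 3 / 2 * ε := by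
  have hsucc : ∀ i, co (x - ∑ k ∈ Finset.range p, co x (sg N k + 1) • f N k) (i + 1)
      = if i < p then 0 else co x (i + 1) := by
    intro i
    obtain ⟨k, hk⟩ := sg_surj N i
    rw [co_sub, ← hk, co_comb_succ N p (fun k => co x (sg N k + 1))]
    have : k < p ↔ sg N k < p := by
      rw [← sg_lt_iff N p hp (sg N k)]
      constructor
      · intro h
        exact ⟨k, h, rfl⟩
      · intro h
        obtain ⟨k', hk', h'⟩ := h
        rwa [← sg_inj N h']
    by_cases hkp : k < p
    · rw [if_pos hkp, if_pos (this.mp hkp)]; ring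
    · rw [if_neg hkp, if_neg (fun h => hkp (this.mpr h))]; ring
  have hs : ∀ i, |co (x - ∑ k ∈ Finset.range p, co x (sg N k + 1) • f N k) (i + 1)| ≤ ε := by
    intro i
    rw [hsucc]
    split_ifs with h1
    · simpa using hε
    · exact h i (by omega)
  apply norm_le _ _ (by positivity)
  intro j
  rcases j with _ | i
  · rw [co_zero_eq]
    have := tsum_of_norm_bounded (hasSum_w.mul_right ε) (f := fun j => w j *
      co (x - ∑ k ∈ Finset.range p, co x (sg N k + 1) • f N k) (j + 1)) (by
        intro i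
        rw [Real.norm_eq_abs, abs_mul, abs_of_nonneg (w_nonneg i)]
        exact mul_le_mul_of_nonneg_left (hs i) (w_nonneg i))
    simpa using this
  · exact (hs i).trans (by linarith)

/-- The `N`-th sequence is a Schauder basis. -/
lemma f_basis (N : ℕ) : ∀ x : E, ∃! a : ℕ → ℝ,
    Tendsto (fun n : ℕ => ∑ i ∈ Finset.range n, a i • f N i) atTop (nhds x) := by
  intro x
  refine ⟨fun k => co x (sg N k + 1), ?_, ?_⟩
  · show Tendsto (fun n : ℕ => ∑ i ∈ Finset.range n, co x (sg N i + 1) • f N i) atTop (nhds x)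
    rw [Metric.tendsto_atTop]
    intro ε hε
    have hx := (Metric.tendsto_atTop.mp (co_tendsto x)) (ε / 2) (by positivity)
    obtain ⟨M, hM⟩ := hx
    refine ⟨max M (N + 1), fun n hn => ?_⟩
    have hd : dist x (∑ i ∈ Finset.range n, co x (sg N i + 1) • f N i) =
      ‖x - ∑ i ∈ Finset.range n, co x (sg N i + 1) • f N i‖ := dist_eq_norm _ _
    rw [dist_comm, hd]
    have := norm_tail_le N n (by omega) x (ε / 2) (by positivity) (by
      intro i hi
      have := hM (i + 1) (by omega)
      rw [Real.dist_eq, sub_zero] at this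
      exact this.le)
    linarith
  · intro a ha
    funext k
    have h1 : Tendsto (fun n : ℕ => co (∑ i ∈ Finset.range n, a i • f N i) (sg N k + 1)) atTop
        (nhds (co x (sg N k + 1))) := ((continuous_co (sg N k + 1)).tendsto x).comp ha
    have h2 : Tendsto (fun n : ℕ => co (∑ i ∈ Finset.range n, a i • f N i) (sg N k + 1)) atTop
        (nhds (a k)) := by
      apply tendsto_const_nhds.congr'
      filter_upwards [eventually_gt_atTop k] with n hn
      rw [co_comb_succ, if_pos hn]
    exact tendsto_nhds_unique h2 h1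

/-- Basis constant estimate. -/
lemma f_const (N : ℕ) (a : ℕ → ℝ) (p q : ℕ) (hpq : p ≤ q) :
    ‖∑ i ∈ Finset.range p, a i • f N i‖ ≤
      (1 + 3 / 2 * (1 / 2) ^ N) * ‖∑ i ∈ Finset.range q, a i • f N i‖ := by
  set u := ∑ i ∈ Finset.range q, a i • f N i with hu
  have hNn : (0 : ℝ) < (1 / 2) ^ N := by positivity
  have hcoef : ∀ k, k < q → |a k| ≤ ‖u‖ := by
    intro k hk
    have := abs_co_le u (sg N k + 1)
    rwa [hu, co_comb_succ, if_pos hk] at this
  have hun : 0 ≤ ‖u‖ := norm_nonneg u
  apply norm_le _ _ (by positivity)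
  intro j
  rcases j with _ | i
  · rw [co_comb_zero]
    by_cases hp : p ≤ N
    · have h1 : |∑ i ∈ Finset.range p, a i * w (sg N i)| ≤
          ∑ i ∈ Finset.range p, ‖u‖ * w (i + 1) := by
        apply (Finset.abs_sum_le_sum_abs _ _).trans
        apply Finset.sum_le_sum
        intro i hi
        rw [Finset.mem_range] at hi
        rw [abs_mul, abs_of_nonneg (w_nonneg _), sg, if_pos (by omega)]
        exact mul_le_mul_of_nonneg_right (hcoef i (by omega)) (w_nonneg _)
      have h2 : ∑ i ∈ Finset.range p, w (i + 1) ≤ 3 / 4 := by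
        have h3 : ∑ i ∈ Finset.range (p + 1), w i ≤ 3 / 2 :=
          sum_le_hasSum _ (fun i _ => w_nonneg i) hasSum_w
        rw [Finset.sum_range_succ'] at h3
        have : w 0 = 3 / 4 := by simp [w]
        linarith
      rw [← Finset.mul_sum] at h1
      nlinarith
    · rw [not_le] at hp
      have hsplit : ∑ i ∈ Finset.range p, a i * w (sg N i) = co u 0 -
          ∑ i ∈ Finset.Ico p q, a i * w (sg N i) := by
        rw [hu, co_comb_zero, ← Finset.sum_range_add_sum_Ico _ hpq]
        ring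
      have htail : |∑ i ∈ Finset.Ico p q, a i * w (sg N i)| ≤ (3 / 2 * (1 / 2) ^ N) * ‖u‖ := by
        have h1 : |∑ i ∈ Finset.Ico p q, a i * w (sg N i)| ≤
            ∑ i ∈ Finset.Ico p q, ‖u‖ * w i := by
          apply (Finset.abs_sum_le_sum_abs _ _).trans
          apply Finset.sum_le_sum
          intro i hi
          rw [Finset.mem_Ico] at hi
          rw [abs_mul, abs_of_nonneg (w_nonneg _), sg, if_neg (by omega), if_neg (by omega)]
          exact mul_le_mul_of_nonneg_right (hcoef i (by omega)) (w_nonneg _)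
        have h2 : ∑ i ∈ Finset.Ico p q, w i ≤ 3 / 2 * (1 / 2) ^ N := by
          rw [Finset.sum_Ico_eq_sum_range]
          have h3 : ∑ k ∈ Finset.range (q - p), w (p + k) = (1 / 2) ^ p *
              ∑ k ∈ Finset.range (q - p), w k := by
            rw [Finset.mul_sum]
            apply Finset.sum_congr rfl
            intro k _
            unfold w
            rw [pow_add]; ring
          rw [h3]
          have h4 : ∑ k ∈ Finset.range (q - p), w k ≤ 3 / 2 :=
            sum_le_hasSum _ (fun i _ => w_nonneg i) hasSum_w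
          have h5 : (1 / 2 : ℝ) ^ p ≤ (1 / 2) ^ N :=
            pow_le_pow_of_le_one (by norm_num) (by norm_num) hp.le
          have h6 : (0 : ℝ) < (1 / 2) ^ p := by positivity
          nlinarith
        rw [← Finset.mul_sum] at h1
        nlinarith
      rw [hsplit]
      have := abs_co_le u 0
      calc _ ≤ |co u 0| + |∑ i ∈ Finset.Ico p q, a i * w (sg N i)| := abs_sub _ _
        _ ≤ _ := by linarith
  · obtain ⟨k, hk⟩ := sg_surj N i
    rw [← hk, co_comb_succ]
    split_ifs with h
    · have := hcoef k (by omega)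
      nlinarith
    · simp
      positivity

open Pool.Agent.Helper519.Schauder

/-- If `P` is a norm-one projection which almost fixes a vector `v` normed only by the coordinate
`i`, then the kernel of `P` is annihilated by the coordinate `i`. -/
lemma ker_co (P : E →ₗ[ℝ] E) (hP : ∀ x, ‖P x‖ ≤ ‖x‖) (hPP : ∀ x, P (P x) = P x)
    (i : ℕ) (v : E) (θ δ : ℝ) (hδ : 0 < δ) (hθ : 0 ≤ θ) (hθδ : θ + 3 * δ < 1) (hvi : co v i = 1)
    (hvj : ∀ j, j ≠ i → |co v j| ≤ θ) (hPv : ‖P v - v‖ ≤ δ) (z : E) (hz : P z = 0) :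
    co z i = 0 := by
  by_contra hne
  set y := P v with hy
  have hyi : 1 - δ ≤ co y i := by
    have := (abs_co_le (y - v) i).trans hPv
    rw [co_sub, hvi] at this
    have := (abs_le.mp this).1
    linarith
  have hyi' : co y i ≤ 1 + δ := by
    have := (abs_co_le (y - v) i).trans hPv
    rw [co_sub, hvi] at this
    have := (abs_le.mp this).2
    linarith
  have hyj : ∀ j, j ≠ i → |co y j| ≤ θ + δ := by
    intro j hj
    have h1 := (abs_co_le (y - v) j).trans hPv
    rw [co_sub] at h1
    have h2 := hvj j hj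
    calc |co y j| = |co v j + (co y j - co v j)| := by ring_nf
      _ ≤ |co v j| + |co y j - co v j| := abs_add_le _ _
      _ ≤ θ + δ := add_le_add h2 h1
  have hzpos : 0 < ‖z‖ := by
    have := abs_co_le z i
    have h2 : 0 < |co z i| := abs_pos.mpr hne
    linarith
  have hzi : 0 < |co z i| := abs_pos.mpr hne
  -- the perturbation
  obtain ⟨t, ht, hneg⟩ : ∃ t : ℝ, |t| * ‖z‖ ≤ δ ∧ t * co z i < 0 := by
    refine ⟨-(δ / ‖z‖) * SignType.sign (co z i), ?_, ?_⟩
    · rw [abs_mul, abs_neg, abs_of_pos (by positivity : 0 < δ / ‖z‖)]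
      have : |((SignType.sign (co z i) : SignType) : ℝ)| = 1 := by
        rcases lt_or_gt_of_ne hne with h | h
        · simp [sign_neg h]
        · simp [sign_pos h]
      rw [this, mul_one, div_mul_cancel₀ _ hzpos.ne']
    · rw [mul_assoc, sign_mul_self]
      have : 0 < δ / ‖z‖ * |co z i| := by positivity
      linarith
  have hfix : P (y + t • z) = y := by
    rw [map_add, map_smul, hz, smul_zero, add_zero, hy, hPP]
  have h1 : ‖y‖ ≤ ‖y + t • z‖ := by
    have := hP (y + t • z)
    rwa [hfix] at this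
  have h2 : co y i ≤ ‖y‖ := (le_abs_self _).trans (abs_co_le y i)
  have htz : ∀ j, |t * co z j| ≤ δ := by
    intro j
    rw [abs_mul]
    exact (mul_le_mul_of_nonneg_left (abs_co_le z j) (abs_nonneg t)).trans ht
  have h3 : ‖y + t • z‖ ≤ max (co y i + t * co z i) (θ + 2 * δ) := by
    apply norm_le _ _ (le_max_of_le_right (by positivity))
    intro j
    rw [co_add, co_smul]
    by_cases hj : j = i
    · subst hj
      apply le_max_of_le_left
      rw [abs_of_nonneg]
      have := (abs_le.mp (htz j)).1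
      linarith
    · apply le_max_of_le_right
      calc _ ≤ |co y j| + |t * co z j| := abs_add_le _ _
        _ ≤ _ := by linarith [hyj j hj, htz j]
  have h4 : max (co y i + t * co z i) (θ + 2 * δ) < co y i := by
    apply max_lt
    · linarith
    · linarith
  linarith

/-- The vector `(8/9)(b_0 + b_1)`. -/
def v0 : E := (8 / 9 : ℝ) • (b 0 + b 1)

lemma co_v0_zero : co v0 0 = 1 := by
  rw [v0, co_smul, co_add, co_b_zero, co_b_zero]
  norm_num [w]

lemma co_v0_succ (j : ℕ) : |co v0 (j + 1)| ≤ 8 / 9 := by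
  rw [v0, co_smul, co_add, co_b_succ, co_b_succ]
  rcases j with _ | _ | j
  · norm_num
  · norm_num
  · norm_num

/-- The vectors `b_1 + ... + b_L`. -/
def xL (L : ℕ) : E := ∑ j ∈ Finset.range L, b (j + 1)

lemma co_xL_succ (L i : ℕ) : co (xL L) (i + 1) = if 1 ≤ i ∧ i < L + 1 then 1 else 0 := by
  rw [xL, co_sum]
  simp only [co_b_succ]
  rcases i with _ | i
  · simp
  · simp [Finset.mem_range]

lemma co_xL_zero (L : ℕ) : co (xL L) 0 = ∑ j ∈ Finset.range L, w (j + 1) := by
  rw [xL, co_sum]
  simp only [co_b_zero]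

lemma hasSum_w_succ : HasSum (fun j => w (j + 1)) (3 / 4) := by
  have := (hasSum_nat_add_iff' (f := w) 1).mpr hasSum_w
  have h2 : (3 / 2 : ℝ) - ∑ i ∈ Finset.range 1, w i = 3 / 4 := by
    rw [Finset.sum_range_one, w]
    norm_num
  rwa [h2] at this

lemma norm_xL_le (L : ℕ) : ‖xL L‖ ≤ 1 := by
  apply norm_le _ _ zero_le_one
  intro j
  rcases j with _ | i
  · rw [co_xL_zero, abs_of_nonneg (Finset.sum_nonneg fun i _ => w_nonneg _)]
    have := sum_le_hasSum (Finset.range L) (fun i _ => w_nonneg (i + 1)) hasSum_w_succ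
    linarith
  · rw [co_xL_succ]
    split_ifs <;> simp

/-- The space has no monotone basis. -/
theorem no_monotone (e : ℕ → E) (h : IsBasis ℝ e)
    (hm : ∀ (a : ℕ → ℝ) (m n : ℕ), m ≤ n →
      ‖∑ i ∈ Finset.range m, a i • e i‖ ≤ ‖∑ i ∈ Finset.range n, a i • e i‖) : False := by
  have hSn : ∀ n x, ‖S h n x‖ ≤ ‖x‖ := by
    intro n x
    have := S_bound h (fun x : E => ‖x‖) continuous_norm 1 (by simpa using hm) n x
    simpa using this
  have hev0 := (Metric.tendsto_nhds.mp (S_tendsto h v0)) (1 / 36) (by norm_num)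
  have hev1 := (Metric.tendsto_nhds.mp (S_tendsto h (b 0))) (1 / 36) (by norm_num)
  obtain ⟨n, h0, h1⟩ := (hev0.and hev1).exists
  rw [dist_eq_norm] at h0 h1
  set P := S h n with hPdef
  have k0 : ∀ z, P z = 0 → co z 0 = 0 := by
    intro z hz
    refine ker_co P (hSn n) (S_S h n) 0 v0 (8 / 9) (1 / 36) (by norm_num) (by norm_num)
      (by norm_num) co_v0_zero ?_ h0.le z hz
    intro j hj
    obtain ⟨i, rfl⟩ := Nat.exists_eq_succ_of_ne_zero hj
    exact co_v0_succ i
  have k1 : ∀ z, P z = 0 → co z 1 = 0 := by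
    intro z hz
    refine ker_co P (hSn n) (S_S h n) 1 (b 0) (3 / 4) (1 / 36) (by norm_num) (by norm_num)
      (by norm_num) (by simp [co_b_succ 0 0]) ?_ h1.le z hz
    intro j hj
    rcases j with _ | i
    · rw [co_b_zero]; norm_num [w]
    · rw [co_b_succ]
      rw [if_neg (by omega)]
      norm_num
  have p0 : ∀ x, co (P x) 0 = co x 0 := by
    intro x
    have := k0 (x - P x) (by rw [map_sub, S_S, sub_self])
    rw [co_sub] at this
    linarith
  have p1 : ∀ x, co (P x) 1 = co x 1 := by
    intro x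
    have := k1 (x - P x) (by rw [map_sub, S_S, sub_self])
    rw [co_sub] at this
    linarith
  -- compactness in the finite-dimensional range
  let V := Submodule.span ℝ (e '' (Finset.range n : Set ℕ))
  haveI : FiniteDimensional ℝ V :=
    FiniteDimensional.span_of_finite ℝ ((Finset.finite_toSet _).image e)
  haveI : ProperSpace V := FiniteDimensional.proper ℝ V
  let y : ℕ → V := fun L => ⟨P (xL L), S_mem h n (xL L)⟩
  have hyb : ∀ L, ‖y L‖ ≤ 1 := fun L => (hSn n (xL L)).trans (norm_xL_le L)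
  obtain ⟨ylim, -, φ, hφ, hlim⟩ := tendsto_subseq_of_bounded (s := Metric.closedBall (0 : V) 1)
    Metric.isBounded_closedBall (x := y) (fun L => by
      rw [mem_closedBall_zero_iff]; exact hyb L)
  have hlimE : Tendsto (fun k => P (xL (φ k))) atTop (nhds (ylim : E)) :=
    (continuous_subtype_val.tendsto ylim).comp hlim
  have hco : ∀ j, Tendsto (fun k => co (P (xL (φ k))) j) atTop (nhds (co (ylim : E) j)) :=
    fun j => ((continuous_co j).tendsto _).comp hlimE
  have hy0 : co (ylim : E) 0 = 3 / 4 := by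
    have h2 : Tendsto (fun k => co (P (xL (φ k))) 0) atTop (nhds (3 / 4)) := by
      have h3 : Tendsto (fun L => ∑ j ∈ Finset.range L, w (j + 1)) atTop (nhds (3 / 4)) :=
        hasSum_w_succ.tendsto_sum_nat
      have h4 := h3.comp hφ.tendsto_atTop
      refine h4.congr fun k => ?_
      rw [p0, co_xL_zero]
      rfl
    exact tendsto_nhds_unique (hco 0) h2
  have hy1 : co (ylim : E) 1 = 0 := by
    have h2 : Tendsto (fun k => co (P (xL (φ k))) 1) atTop (nhds 0) := by
      refine tendsto_const_nhds.congr fun k => ?_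
      rw [p1, co_xL_succ _ 0]
      simp
    exact tendsto_nhds_unique (hco 1) h2
  have hyle : ∀ j, co (ylim : E) j ≤ 1 := by
    intro j
    apply le_of_tendsto' (hco j)
    intro k
    exact (le_abs_self _).trans ((abs_co_le _ j).trans ((hSn n _).trans (norm_xL_le _)))
  -- now compare the two expressions of the coordinate zero
  have hs1 : HasSum (fun j => w (j + 1) * co (ylim : E) (j + 2)) (3 / 4) := by
    have hs : HasSum (fun j => w j * co (ylim : E) (j + 1)) (co (ylim : E) 0) := by
      rw [co_zero_eq]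
      exact (summable_wx _).hasSum
    have := (hasSum_nat_add_iff' 1).mpr hs
    simpa [hy1, hy0] using this
  have hs2 : HasSum (fun j => w (j + 1) * (1 - co (ylim : E) (j + 2))) 0 := by
    have := hasSum_w_succ.sub hs1
    simp only [sub_self] at this
    refine this.congr_fun ?_
    intro j
    ring
  have hs3 := (hasSum_zero_iff_of_nonneg (fun j => mul_nonneg (w_nonneg _)
    (by linarith [hyle (j + 2)]))).mp hs2
  have hone : ∀ j, co (ylim : E) (j + 2) = 1 := by
    intro j
    have := congrFun hs3 j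
    simp only [Pi.zero_apply, mul_eq_zero] at this
    rcases this with h5 | h5
    · exact absurd h5 (w_pos _).ne'
    · linarith
  have hlim0 := (tendsto_add_atTop_iff_nat 2).mpr (co_tendsto (ylim : E))
  have hlim1 : Tendsto (fun j => co (ylim : E) (j + 2)) atTop (nhds 1) := by
    refine tendsto_const_nhds.congr fun j => ?_
    rw [hone]
  exact zero_ne_one (tendsto_nhds_unique hlim0 hlim1)

theorem not_attained :
    ¬ (∀ (𝕜 : Type) [RCLike 𝕜] (E : Type) [NormedAddCommGroup E] [NormedSpace 𝕜 E] [CompleteSpace E],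
      (∃ e : ℕ → E, ∀ x : E, ∃! a : ℕ → 𝕜,
          Filter.Tendsto (fun n : ℕ => ∑ i ∈ Finset.range n, a i • e i) Filter.atTop (nhds x)) →
      ∃ e : ℕ → E,
        (∀ x : E, ∃! a : ℕ → 𝕜,
          Filter.Tendsto (fun n : ℕ => ∑ i ∈ Finset.range n, a i • e i) Filter.atTop (nhds x)) ∧
        ∀ (a : ℕ → 𝕜) (m n : ℕ), m ≤ n →
          ‖∑ i ∈ Finset.range m, a i • e i‖ ≤
            sInf {K : ℝ | ∃ f : ℕ → E,
                (∀ x : E, ∃! b : ℕ → 𝕜,
                  Filter.Tendsto (fun k : ℕ => ∑ i ∈ Finset.range k, b i • f i) Filter.atTop (nhds x)) ∧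
                ∀ (b : ℕ → 𝕜) (p q : ℕ), p ≤ q →
                  ‖∑ i ∈ Finset.range p, b i • f i‖ ≤ K * ‖∑ i ∈ Finset.range q, b i • f i‖} *
              ‖∑ i ∈ Finset.range n, a i • e i‖) := by
  intro H
  obtain ⟨e, he, hc⟩ := H ℝ E ⟨f 0, f_basis 0⟩
  refine no_monotone e he ?_
  intro a m n hmn
  refine (hc a m n hmn).trans ?_
  have hone : sInf {K : ℝ | ∃ f : ℕ → E,
                (∀ x : E, ∃! b : ℕ → ℝ,
                  Filter.Tendsto (fun k : ℕ => ∑ i ∈ Finset.range k, b i • f i) Filter.atTop (nhds x)) ∧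
                ∀ (b : ℕ → ℝ) (p q : ℕ), p ≤ q →
                  ‖∑ i ∈ Finset.range p, b i • f i‖ ≤ K * ‖∑ i ∈ Finset.range q, b i • f i‖} ≤ 1 := by
    have hbdd : BddBelow {K : ℝ | ∃ f : ℕ → E,
                (∀ x : E, ∃! b : ℕ → ℝ,
                  Filter.Tendsto (fun k : ℕ => ∑ i ∈ Finset.range k, b i • f i) Filter.atTop (nhds x)) ∧
                ∀ (b : ℕ → ℝ) (p q : ℕ), p ≤ q →
                  ‖∑ i ∈ Finset.range p, b i • f i‖ ≤ K * ‖∑ i ∈ Finset.range q, b i • f i‖} := by
      refine ⟨0, ?_⟩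
      rintro K ⟨g, hg, hK⟩
      by_contra hneg
      rw [not_le] at hneg
      have hz : ∀ i, g i = 0 := by
        intro i
        have h1 := hK (fun j => if j = i then 1 else 0) (i + 1) (i + 1) le_rfl
        have h2 : ∑ j ∈ Finset.range (i + 1), (fun j => if j = i then (1 : ℝ) else 0) j • g j = g i := by
          simp
        rw [h2] at h1
        have h3 : ‖g i‖ ≤ 0 := by
          by_contra h4
          rw [not_le] at h4
          nlinarith
        exact norm_le_zero_iff.mp h3
      obtain ⟨a1, h1, h2⟩ := hg 0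
      have e1 := h2 (fun _ => 1) (by simp [hz])
      have e2 := h2 (fun _ => 0) (by simp [hz])
      have := congrFun (e1.trans e2.symm) 0
      norm_num at this
    have hle : ∀ N : ℕ, sInf {K : ℝ | ∃ f : ℕ → E,
                (∀ x : E, ∃! b : ℕ → ℝ,
                  Filter.Tendsto (fun k : ℕ => ∑ i ∈ Finset.range k, b i • f i) Filter.atTop (nhds x)) ∧
                ∀ (b : ℕ → ℝ) (p q : ℕ), p ≤ q →
                  ‖∑ i ∈ Finset.range p, b i • f i‖ ≤ K * ‖∑ i ∈ Finset.range q, b i • f i‖} ≤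
                1 + 3 / 2 * (1 / 2) ^ N := fun N => csInf_le hbdd ⟨f N, f_basis N, f_const N⟩
    have hlim : Tendsto (fun N : ℕ => (1 : ℝ) + 3 / 2 * (1 / 2) ^ N) atTop (nhds (1 + 3 / 2 * 0)) :=
      ((tendsto_pow_atTop_nhds_zero_of_lt_one (by norm_num) (by norm_num)).const_mul _).const_add _
    have := ge_of_tendsto' hlim hle
    simpa using this
  calc _ ≤ 1 * ‖∑ i ∈ Finset.range n, a i • e i‖ :=
        mul_le_mul_of_nonneg_right hone (norm_nonneg _)
    _ = _ := one_mul _

end

end Pool.Agent.Helper519.BasisAttain
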