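import Mathlib
import Pool.Agent.Helper519.AlmostProj

set_option autoImplicit false

namespace Pool.Agent.Helper519.Renorm

open scoped Topology NNReal
open Filter

noncomputable section

variable {𝕜 : Type*} [RCLike 𝕜] {X : Type*} [NormedAddCommGroup X] [NormedSpace 𝕜 X]

namespace BSys

variable (B : BSys 𝕜 X)

/-- slow multipliers are almost contractive for the new norm -/
theorem N_mult (T : X →ₗ[𝕜] X) (hT : ∀ y, ‖T y‖ ≤ ‖y‖) (l : ℕ → ℝ) (δ : ℝ)
    (hl0 : ∀ j, 0 ≤ l j) (hl1 : ∀ j, l j ≤ 1) (hld : ∀ j, |l (j + 1) - l j| ≤ δ)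
    (hTx : ∀ j, T (B.x j) = ((l j : ℝ) : 𝕜) • B.x j)
    (hTf : ∀ j y, B.f j (T y) = ((l j : ℝ) : 𝕜) * B.f j y) (y : X) :
    B.N (T y) ≤ (1 + 2 * B.M * δ) * B.N y := by
  have hM := B.hM
  have hM0 := B.M_pos
  have hδ : 0 ≤ δ := (abs_nonneg _).trans (hld 0)
  have hr := B.r_pos
  have hMr := B.M_mul_r
  have hpos : 0 < 1 + 2 * B.M * δ := by positivity
  have hMδ : 0 ≤ B.M * δ := by positivity
  set c : ℝ≥0 := ⟨(1 + 2 * B.M * δ)⁻¹, by positivity⟩ with hc
  have hcv : (c : ℝ) = (1 + 2 * B.M * δ)⁻¹ := rfl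
  have hc1 : (c : ℝ) ≤ 1 := by
    rw [hcv]
    apply inv_le_one_of_one_le₀
    linarith
  have hc0 : 0 ≤ (c : ℝ) := c.2
  have key : ((c • B.N.comp T : Seminorm 𝕜 X)) y ≤ B.N y := by
    apply B.le_N
    refine ⟨fun y => ?_, fun j => ?_, fun k d hd hdr => ?_⟩
    · show (c : ℝ) * B.N (T y) ≤ _
      have h1 := B.N_adm.1 (T y)
      have h2 : 4 * B.M * ‖T y‖ ≤ 4 * B.M * ‖y‖ := by
        have := hT y
        gcongr
      have h3 : 0 ≤ B.N (T y) := apply_nonneg _ _
      nlinarith
    · show (c : ℝ) * B.N (T (B.x j)) ≤ 1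
      rw [hTx, map_smul_eq_mul, RCLike.norm_ofReal, abs_of_nonneg (hl0 j)]
      have h1 := B.N_x_le j
      have h3 : 0 ≤ B.N (B.x j) := apply_nonneg _ _
      have h4 : l j * B.N (B.x j) ≤ 1 := by
        have := hl1 j
        have := hl0 j
        nlinarith
      have h5 : 0 ≤ l j * B.N (B.x j) := mul_nonneg (hl0 j) h3
      nlinarith
    · show (c : ℝ) * B.N (T (B.U k + d)) ≤ 1
      have hfinal : B.N (T (B.U k + d)) ≤ 1 + 2 * B.M * δ := by
        -- the error in the functional
        set a : 𝕜 := B.Φ k (T d) with ha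
        have han : ‖a‖ ≤ δ * (1 / 16) := by
          have e : a = (((l (k + 2) - l (k + 1) : ℝ)) : 𝕜) * B.f (k + 2) d +
              ((l (k + 1) : ℝ) : 𝕜) * B.Φ k d := by
            rw [ha, Φ, LinearMap.add_apply, LinearMap.add_apply, hTf, hTf]
            push_cast
            ring
          rw [e, hd, mul_zero, add_zero, norm_mul, RCLike.norm_ofReal]
          have h1 := hld (k + 1)
          have h2 := B.nf (k + 2) d
          have h3 : B.M * ‖d‖ ≤ B.M * B.r := by gcongr
          calc _ ≤ δ * ‖B.f (k + 2) d‖ := by gcongr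
            _ ≤ δ * (1 / 16) := by gcongr; linarith
        set d' : X := T d - a • B.x (k + 1) with hd'
        have hΦx : B.Φ k (B.x (k + 1)) = 1 := by
          rw [Φ, LinearMap.add_apply, B.ortho, B.ortho]
          simp
        have hΦd' : B.Φ k d' = 0 := by
          rw [hd', map_sub, map_smul, hΦx, ← ha, smul_eq_mul, mul_one, sub_self]
        have hd'n : ‖d'‖ ≤ B.r * (1 + B.M * δ) := by
          have h1 : ‖d'‖ ≤ ‖T d‖ + ‖a • B.x (k + 1)‖ := norm_sub_le _ _
          rw [norm_smul, B.nx, mul_one] at h1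
          have h2 := hT d
          have h3 : B.r * (B.M * δ) = δ * (1 / 16) := by
            rw [← hMr]; ring
          linarith
        have hs : 0 < 1 + B.M * δ := by positivity
        set d'' : X := (((1 + B.M * δ)⁻¹ : ℝ) : 𝕜) • d' with hd''
        have hd''n : ‖d''‖ ≤ B.r := by
          rw [hd'', norm_smul, RCLike.norm_ofReal, abs_of_pos (by positivity)]
          rw [inv_mul_le_iff₀ hs]
          linarith
        have hΦd'' : B.Φ k d'' = 0 := by
          rw [hd'', map_smul, hΦd', smul_zero]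
        have hd'd'' : d' = (((1 + B.M * δ : ℝ)) : 𝕜) • d'' := by
          rw [hd'', smul_smul, ← RCLike.ofReal_mul, mul_inv_cancel₀ hs.ne', RCLike.ofReal_one,
            one_smul]
        have hNd'' : B.N d'' ≤ 1 / 4 := by
          have h1 := B.N_adm.1 d''
          have h2 : B.M * ‖d''‖ ≤ B.M * B.r := by gcongr
          nlinarith
        have h1 : B.N (((l k : ℝ) : 𝕜) • B.U k + d'') ≤ 1 := by
          have e : ((l k : ℝ) : 𝕜) • B.U k + d'' = ((l k : ℝ) : 𝕜) • (B.U k + d'') +
              ((1 - l k : ℝ) : 𝕜) • d'' := by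
            rw [RCLike.ofReal_sub, RCLike.ofReal_one, smul_add, sub_smul, one_smul]
            abel
          rw [e]
          have h2 := B.N_adm.2.2 k d'' hΦd'' hd''n
          have h3 := hl0 k
          have h4 := hl1 k
          calc _ ≤ B.N (((l k : ℝ) : 𝕜) • (B.U k + d'')) + B.N (((1 - l k : ℝ) : 𝕜) • d'') :=
                map_add_le_add _ _ _
            _ = l k * B.N (B.U k + d'') + (1 - l k) * B.N d'' := by
                rw [map_smul_eq_mul, map_smul_eq_mul, RCLike.norm_ofReal, RCLike.norm_ofReal,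
                  abs_of_nonneg h3, abs_of_nonneg (by linarith)]
            _ ≤ 1 := by nlinarith
        have hTU : T (B.U k) = ((l k : ℝ) : 𝕜) • B.U k +
            ((l (k + 1) - l k : ℝ) : 𝕜) • B.x (k + 1) := by
          rw [U, map_sub, map_smul, hTx, hTx, smul_sub, RCLike.ofReal_sub, sub_smul]
          rw [smul_comm (1 / 2 : 𝕜) ((l k : ℝ) : 𝕜) (B.x k)]
          abel
        have e : T (B.U k + d) = (((l k : ℝ) : 𝕜) • B.U k + d'') +
            ((l (k + 1) - l k : ℝ) : 𝕜) • B.x (k + 1) + ((B.M * δ : ℝ) : 𝕜) • d'' +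
            a • B.x (k + 1) := by
          have e1 : T d = d' + a • B.x (k + 1) := by rw [hd']; abel
          rw [map_add, hTU, e1, hd'd'', RCLike.ofReal_add, RCLike.ofReal_one, add_smul, one_smul]
          abel
        rw [e]
        have hx1 := B.N_x_le (k + 1)
        have h2 : B.N (((l (k + 1) - l k : ℝ) : 𝕜) • B.x (k + 1)) ≤ δ := by
          rw [map_smul_eq_mul, RCLike.norm_ofReal]
          have := hld k
          have h0 : 0 ≤ B.N (B.x (k + 1)) := apply_nonneg _ _
          nlinarith [abs_nonneg (l (k + 1) - l k)]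
        have h3 : B.N (((B.M * δ : ℝ) : 𝕜) • d'') ≤ B.M * δ * (1 / 4) := by
          rw [map_smul_eq_mul, RCLike.norm_ofReal, abs_of_nonneg hMδ]
          gcongr
        have h4 : B.N (a • B.x (k + 1)) ≤ δ * (1 / 16) := by
          rw [map_smul_eq_mul]
          have h0 : 0 ≤ B.N (B.x (k + 1)) := apply_nonneg _ _
          nlinarith [norm_nonneg a]
        have h5 : δ ≤ B.M * δ := by nlinarith
        calc _ ≤ B.N (((l k : ℝ) : 𝕜) • B.U k + d'' + ((l (k + 1) - l k : ℝ) : 𝕜) • B.x (k + 1) +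
              ((B.M * δ : ℝ) : 𝕜) • d'') + B.N (a • B.x (k + 1)) := map_add_le_add _ _ _
          _ ≤ B.N (((l k : ℝ) : 𝕜) • B.U k + d'' + ((l (k + 1) - l k : ℝ) : 𝕜) • B.x (k + 1)) +
              B.N (((B.M * δ : ℝ) : 𝕜) • d'') + B.N (a • B.x (k + 1)) := by
                gcongr; exact map_add_le_add _ _ _
          _ ≤ B.N (((l k : ℝ) : 𝕜) • B.U k + d'') +
              B.N (((l (k + 1) - l k : ℝ) : 𝕜) • B.x (k + 1)) +
              B.N (((B.M * δ : ℝ) : 𝕜) • d'') + B.N (a • B.x (k + 1)) := by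
                gcongr; exact map_add_le_add _ _ _
          _ ≤ _ := by linarith
      rw [hcv, inv_mul_le_iff₀ hpos, mul_one]
      exact hfinal
  have h1 : (c : ℝ) * B.N (T y) ≤ B.N y := key
  rw [hcv, inv_mul_le_iff₀ hpos] at h1
  exact h1

end BSys

/-- the space `X` with the new norm -/
def NSp (_ : BSys 𝕜 X) : Type _ := X

variable (B : BSys 𝕜 X)

instance : AddCommGroup (NSp B) := inferInstanceAs (AddCommGroup X)

instance : Module 𝕜 (NSp B) := inferInstanceAs (Module 𝕜 X)

instance : NormedAddCommGroup (NSp B) :=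
  AddGroupNorm.toNormedAddCommGroup
    { toFun := fun x : X => B.N x
      map_zero' := map_zero B.N
      add_le' := fun x y => map_add_le_add B.N x y
      neg' := fun x => map_neg_eq_map B.N x
      eq_zero_of_map_eq_zero' := fun x hx => by
        have h1 := B.half_norm_le_N x
        have h2 : B.N x = 0 := hx
        rw [h2] at h1
        exact norm_le_zero_iff.mp (by linarith) }

/-- the identity map -/
def ψ : X ≃ₗ[𝕜] NSp B := LinearEquiv.refl 𝕜 X

lemma norm_ψ (x : X) : ‖ψ B x‖ = B.N x := rfl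

instance : NormedSpace 𝕜 (NSp B) where
  norm_smul_le a x := by
    have h1 : B.N (a • (ψ B).symm x) = ‖a‖ * B.N ((ψ B).symm x) := map_smul_eq_mul B.N _ _
    exact h1.le

/-- the identity as a continuous linear equivalence -/
def Ψ : X ≃L[𝕜] NSp B :=
  (ψ B).toContinuousLinearEquivOfBounds (4 * B.M) 2
    (fun x => by rw [norm_ψ]; exact B.N_adm.1 x)
    (fun x => by
      obtain ⟨y, rfl⟩ := (ψ B).surjective x
      rw [LinearEquiv.symm_apply_apply, norm_ψ]
      have := B.half_norm_le_N y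
      linarith)

lemma Ψ_apply (x : X) : Ψ B x = ψ B x := rfl

lemma norm_Ψ (x : X) : ‖Ψ B x‖ = B.N x := rfl

instance [CompleteSpace X] : CompleteSpace (NSp B) :=
  (completeSpace_congr (e := (Ψ B).toLinearEquiv.toEquiv) (Ψ B).isUniformEmbedding).mp
    inferInstance

instance [TopologicalSpace.SeparableSpace X] : TopologicalSpace.SeparableSpace (NSp B) :=
  (Ψ B).surjective.denseRange.separableSpace (Ψ B).continuous

end

end Pool.Agent.Helper519.Renorm
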