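import Mathlib
import Pool.Agent.Helper519.NSp

set_option autoImplicit false

namespace Pool.Agent.Helper519.Renorm

open scoped Topology NNReal
open Filter

noncomputable section

variable {𝕜 : Type*} [RCLike 𝕜] {H : Type*} [NormedAddCommGroup H] [InnerProductSpace 𝕜 H]

/-- the biorthogonal system of an orthonormal basis -/
def hsys (b : HilbertBasis ℕ 𝕜 H) : BSys 𝕜 H where
  x := b
  f := fun j => (innerSL 𝕜 (b j)).toLinearMap
  M := 1
  hM := le_rfl
  nx := b.orthonormal.1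
  nf := fun j y => by
    have := norm_inner_le_norm (𝕜 := 𝕜) (b j) y
    rw [b.orthonormal.1 j] at this
    exact this
  ortho := fun i j => orthonormal_iff_ite.mp b.orthonormal i j

variable (b : HilbertBasis ℕ 𝕜 H)

lemma hsys_x (j : ℕ) : (hsys b).x j = b j := rfl

lemma hsys_f (j : ℕ) (y : H) : (hsys b).f j y = inner 𝕜 (b j) y := rfl

/-- the multipliers -/
def lam (n k : ℕ) : ℝ := max (min (2 - (k : ℝ) / ((n : ℝ) + 1)) 1) 0

lemma lam_nonneg (n k : ℕ) : 0 ≤ lam n k := le_max_right _ _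

lemma lam_le (n k : ℕ) : lam n k ≤ 1 := max_le (min_le_right _ _) zero_le_one

lemma lam_eq_one {n k : ℕ} (h : k ≤ n + 1) : lam n k = 1 := by
  have hn : (0 : ℝ) < (n : ℝ) + 1 := by positivity
  have h1 : (k : ℝ) / ((n : ℝ) + 1) ≤ 1 := by
    rw [div_le_one hn]
    exact_mod_cast h
  rw [lam, min_eq_right (by linarith), max_eq_left zero_le_one]

lemma lam_eq_zero {n k : ℕ} (h : 2 * (n + 1) ≤ k) : lam n k = 0 := by
  have hn : (0 : ℝ) < (n : ℝ) + 1 := by positivity
  have h1 : 2 ≤ (k : ℝ) / ((n : ℝ) + 1) := by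
    rw [le_div_iff₀ hn]
    exact_mod_cast h
  rw [lam]
  apply max_eq_right
  exact (min_le_left _ _).trans (by linarith)

lemma lam_diff (n k : ℕ) : |lam n (k + 1) - lam n k| ≤ 1 / ((n : ℝ) + 1) := by
  have hn : (0 : ℝ) < (n : ℝ) + 1 := by positivity
  rw [lam, lam]
  refine (abs_max_sub_max_le_abs _ _ _).trans ?_
  refine (abs_min_sub_min_le_max _ _ _ _).trans ?_
  rw [sub_self, abs_zero]
  apply max_le _ (by positivity)
  have e : (2 - ((k + 1 : ℕ) : ℝ) / ((n : ℝ) + 1)) - (2 - (k : ℝ) / ((n : ℝ) + 1)) =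
      -(1 / ((n : ℝ) + 1)) := by
    push_cast
    ring
  rw [e, abs_neg, abs_of_pos (by positivity)]

/-- the multiplier operators -/
def TM (n : ℕ) : H →ₗ[𝕜] H :=
  ∑ k ∈ Finset.range (2 * (n + 1)), ((lam n k : ℝ) : 𝕜) • ((hsys b).f k).smulRight (b k)

lemma TM_apply (n : ℕ) (y : H) : TM b n y =
    ∑ k ∈ Finset.range (2 * (n + 1)), (((lam n k : ℝ) : 𝕜) * inner 𝕜 (b k) y) • b k := by
  rw [TM, LinearMap.sum_apply]
  refine Finset.sum_congr rfl fun k _ => ?_
  rw [LinearMap.smul_apply, LinearMap.smulRight_apply, hsys_f, smul_smul]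

lemma inner_b (i j : ℕ) : inner 𝕜 (b i) (b j) = if i = j then (1 : 𝕜) else 0 :=
  orthonormal_iff_ite.mp b.orthonormal i j

lemma f_TM (n j : ℕ) (y : H) : (hsys b).f j (TM b n y) = ((lam n j : ℝ) : 𝕜) * (hsys b).f j y := by
  rw [TM_apply, map_sum]
  simp only [map_smul, smul_eq_mul, hsys_f, inner_b]
  by_cases hj : j ∈ Finset.range (2 * (n + 1))
  · rw [Finset.sum_eq_single j]
    · simp
    · intro i _ hi
      rw [if_neg (Ne.symm hi), mul_zero]
    · intro h; exact absurd hj h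
  · rw [Finset.sum_eq_zero, lam_eq_zero (by simpa using hj)]
    · simp
    · intro i hi
      rw [if_neg, mul_zero]
      rintro rfl
      exact hj hi

lemma TM_x (n j : ℕ) : TM b n (b j) = ((lam n j : ℝ) : 𝕜) • b j := by
  rw [TM_apply]
  by_cases hj : j ∈ Finset.range (2 * (n + 1))
  · rw [Finset.sum_eq_single j]
    · rw [inner_b, if_pos rfl, mul_one]
    · intro i _ hi
      rw [inner_b, if_neg hi, mul_zero, zero_smul]
    · intro h; exact absurd hj h
  · rw [Finset.sum_eq_zero, lam_eq_zero (by simpa using hj)]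
    · simp
    · intro i hi
      rw [inner_b, if_neg, mul_zero, zero_smul]
      rintro rfl
      exact hj hi

lemma TM_norm (n : ℕ) (y : H) : ‖TM b n y‖ ≤ ‖y‖ := by
  have h1 : ‖TM b n y‖ ^ 2 ≤ ‖y‖ ^ 2 := by
    refine le_trans ?_ (b.orthonormal.sum_inner_products_le y
      (s := Finset.range (2 * (n + 1))))
    rw [TM_apply, ← @inner_self_eq_norm_sq 𝕜, b.orthonormal.inner_sum, map_sum]
    refine Finset.sum_le_sum fun k _ => ?_
    rw [RCLike.conj_mul, norm_mul, RCLike.norm_ofReal, abs_of_nonneg (lam_nonneg n k),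
      ← RCLike.ofReal_pow, RCLike.ofReal_re]
    have h2 := lam_nonneg n k
    have h3 := lam_le n k
    have h4 : lam n k * ‖(inner 𝕜 (b k) y : 𝕜)‖ ≤ 1 * ‖(inner 𝕜 (b k) y : 𝕜)‖ := by gcongr
    rw [one_mul] at h4
    gcongr
  exact le_of_sq_le_sq h1 (norm_nonneg _)

lemma TM_N (n : ℕ) (y : H) :
    (hsys b).N (TM b n y) ≤ (1 + 2 / ((n : ℝ) + 1)) * (hsys b).N y := by
  have h := (hsys b).N_mult (TM b n) (TM_norm b n) (lam n) (1 / ((n : ℝ) + 1)) (lam_nonneg n)
    (lam_le n) (lam_diff n) (TM_x b n) (f_TM b n) y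
  have e : 1 + 2 * (hsys b).M * (1 / ((n : ℝ) + 1)) = 1 + 2 / ((n : ℝ) + 1) := by
    show 1 + 2 * 1 * (1 / ((n : ℝ) + 1)) = _
    ring
  rwa [e] at h

lemma TM_mem (n : ℕ) (y : H) :
    TM b n y ∈ Submodule.span 𝕜 (b '' (Finset.range (2 * (n + 1)) : Set ℕ)) := by
  rw [TM_apply]
  refine Submodule.sum_mem _ fun k hk => Submodule.smul_mem _ _ (Submodule.subset_span ?_)
  exact ⟨k, hk, rfl⟩

lemma TM_eventually (y : H) (hy : y ∈ Submodule.span 𝕜 (Set.range b)) :
    ∀ᶠ n in atTop, TM b n y = y := by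
  induction hy using Submodule.span_induction with
  | mem x hx =>
    obtain ⟨j, rfl⟩ := hx
    filter_upwards [eventually_ge_atTop j] with n hn
    rw [TM_x, lam_eq_one (by omega)]
    simp
  | zero => exact Eventually.of_forall fun n => map_zero _
  | add x y _ _ hx hy =>
    filter_upwards [hx, hy] with n h1 h2
    rw [map_add, h1, h2]
  | smul a x _ hx =>
    filter_upwards [hx] with n h1
    rw [map_smul, h1]

lemma TM_tendsto (y : H) : Tendsto (fun n => TM b n y) atTop (𝓝 y) := by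
  rw [Metric.tendsto_atTop]
  intro ε hε
  have hy : y ∈ (Submodule.span 𝕜 (Set.range b)).topologicalClosure := by
    rw [b.dense_span]; trivial
  obtain ⟨z, hz, hyz⟩ := Metric.mem_closure_iff.mp hy (ε / 2) (by positivity)
  obtain ⟨n0, hn0⟩ := eventually_atTop.mp (TM_eventually b z hz)
  refine ⟨n0, fun n hn => ?_⟩
  rw [dist_eq_norm] at hyz ⊢
  have e : TM b n y - y = TM b n (y - z) - (y - z) := by
    rw [map_sub, hn0 n hn]; abel
  rw [e]
  calc _ ≤ ‖TM b n (y - z)‖ + ‖y - z‖ := norm_sub_le _ _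
    _ ≤ ‖y - z‖ + ‖y - z‖ := by gcongr; exact TM_norm b n _
    _ < ε := by linarith

/-- the metric approximation property -/
def HasMAP (𝕜 : Type*) [RCLike 𝕜] (E : Type*) [NormedAddCommGroup E] [NormedSpace 𝕜 E] : Prop :=
  ∀ K : Set E, IsCompact K → ∀ ε : ℝ, 0 < ε → ∃ T : E →L[𝕜] E,
    FiniteDimensional 𝕜 (LinearMap.range (T : E →ₗ[𝕜] E)) ∧ ‖T‖ ≤ 1 ∧ ∀ x ∈ K, ‖T x - x‖ < ε

/-- contractive finite rank operators converging strongly to the identity give the metric
approximation property -/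
lemma hasMAP_of_seq {E : Type*} [NormedAddCommGroup E] [NormedSpace 𝕜 E] (S : ℕ → E →L[𝕜] E)
    (hfin : ∀ n, FiniteDimensional 𝕜 (LinearMap.range (S n : E →ₗ[𝕜] E))) (hS : ∀ n, ‖S n‖ ≤ 1)
    (hlim : ∀ x, Tendsto (fun n => S n x) atTop (𝓝 x)) : HasMAP 𝕜 E := by
  intro K hK ε hε
  obtain ⟨t, -, htf, hKt⟩ := hK.finite_cover_balls (show 0 < ε / 4 by positivity)
  have h1 : ∀ᶠ n in atTop, ∀ c ∈ t, ‖S n c - c‖ < ε / 4 := by
    rw [htf.eventually_all]
    intro c _
    have := (Metric.tendsto_nhds.mp (hlim c)) (ε / 4) (by positivity)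
    filter_upwards [this] with n hn
    rwa [dist_eq_norm] at hn
  obtain ⟨n, hn⟩ := h1.exists
  refine ⟨S n, hfin n, hS n, fun x hx => ?_⟩
  obtain ⟨c, hc, hxc⟩ := Set.mem_iUnion₂.mp (hKt hx)
  rw [Metric.mem_ball, dist_eq_norm] at hxc
  have e : S n x - x = S n (x - c) + (S n c - c) - (x - c) := by
    rw [map_sub]; abel
  have h2 : ‖S n (x - c)‖ ≤ ‖x - c‖ := by
    have := (S n).le_of_opNorm_le (hS n) (x - c)
    rwa [one_mul] at this
  have h3 := hn c hc
  calc ‖S n x - x‖ ≤ ‖S n (x - c) + (S n c - c)‖ + ‖x - c‖ := by rw [e]; exact norm_sub_le _ _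
    _ ≤ ‖S n (x - c)‖ + ‖S n c - c‖ + ‖x - c‖ := by gcongr; exact norm_add_le _ _
    _ < ε := by linarith

/-- the scaling constants -/
def cn (n : ℕ) : ℝ := (1 + 2 / ((n : ℝ) + 1))⁻¹

lemma cn_pos (n : ℕ) : 0 < cn n := by unfold cn; positivity

lemma cn_tendsto : Tendsto cn atTop (𝓝 1) := by
  have h1 : Tendsto (fun n : ℕ => 2 * (1 / ((n : ℝ) + 1))) atTop (𝓝 (2 * 0)) :=
    tendsto_one_div_add_atTop_nhds_zero_nat.const_mul 2
  have h2 : Tendsto (fun n : ℕ => 1 + 2 / ((n : ℝ) + 1)) atTop (𝓝 1) := by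
    have := h1.const_add 1
    simp only [mul_zero, add_zero] at this
    refine this.congr fun n => ?_
    ring
  have h3 := h2.inv₀ one_ne_zero
  rw [inv_one] at h3
  exact h3

/-- the approximating operators -/
def SM (n : ℕ) : NSp (hsys b) →L[𝕜] NSp (hsys b) :=
  LinearMap.mkContinuous ((ψ (hsys b)).toLinearMap ∘ₗ (((cn n : ℝ) : 𝕜) • TM b n) ∘ₗ
    (ψ (hsys b)).symm.toLinearMap) 1 (fun x => by
      obtain ⟨y, rfl⟩ := (ψ (hsys b)).surjective x
      rw [LinearMap.comp_apply, LinearMap.comp_apply, LinearEquiv.coe_coe, LinearEquiv.coe_coe,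
        LinearEquiv.symm_apply_apply, norm_ψ, norm_ψ, LinearMap.smul_apply, map_smul_eq_mul,
        RCLike.norm_ofReal, abs_of_pos (cn_pos n), one_mul, cn,
        inv_mul_le_iff₀ (by positivity)]
      exact TM_N b n y)

lemma SM_apply (n : ℕ) (y : H) :
    SM b n (Ψ (hsys b) y) = Ψ (hsys b) (((cn n : ℝ) : 𝕜) • TM b n y) := rfl

/-- The renormed Hilbert space has the metric approximation property. -/
theorem hasMAP_hsys : HasMAP 𝕜 (NSp (hsys b)) := by
  refine hasMAP_of_seq (SM b) (fun n => ?_) (fun n => LinearMap.mkContinuous_norm_le _ zero_le_one _)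
    (fun x => ?_)
  · have hf : FiniteDimensional 𝕜 (Submodule.map (ψ (hsys b)).toLinearMap
        (Submodule.span 𝕜 (b '' (Finset.range (2 * (n + 1)) : Set ℕ)))) := by
      have : FiniteDimensional 𝕜 (Submodule.span 𝕜 (b '' (Finset.range (2 * (n + 1)) : Set ℕ))) :=
        FiniteDimensional.span_of_finite 𝕜 ((Finset.finite_toSet _).image b)
      infer_instance
    refine Submodule.finiteDimensional_of_le (S₂ := Submodule.map (ψ (hsys b)).toLinearMap
        (Submodule.span 𝕜 (b '' (Finset.range (2 * (n + 1)) : Set ℕ)))) ?_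
    rintro _ ⟨x, rfl⟩
    exact ⟨_, Submodule.smul_mem _ _ (TM_mem b n ((ψ (hsys b)).symm x)), rfl⟩
  · obtain ⟨y, rfl⟩ := (Ψ (hsys b)).surjective x
    simp only [SM_apply]
    refine ((Ψ (hsys b)).continuous.tendsto y).comp ?_
    have h1 : Tendsto (fun n => ((cn n : ℝ) : 𝕜)) atTop (𝓝 ((1 : ℝ) : 𝕜)) :=
      (RCLike.continuous_ofReal.tendsto 1).comp cn_tendsto
    have h2 := h1.smul (TM_tendsto b y)
    rwa [RCLike.ofReal_one, one_smul] at h2

end

end Pool.Agent.Helper519.Renorm
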