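import Pool.Agent.Helper519.PVec

set_option autoImplicit false
open MeasureTheory Set Filter Topology
open scoped ENNReal

namespace Pool.Agent.Helper519.Pettis

noncomputable section

section generic

variable {Ω : Type} [MeasurableSpace Ω] (μ : Measure Ω) [IsFiniteMeasure μ] {π : Ω → ℝ}
  (hπ : Measurable π) (hμ : μ.map π = lam)

include hπ in
lemma integrable_ind (c : ℝ) (d : D) :
    Integrable (fun ω => c * (Pd d).indicator (fun _ => (1:ℝ)) (π ω)) μ := by
  have : (fun ω => c * (Pd d).indicator (fun _ => (1:ℝ)) (π ω)) =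
      (π ⁻¹' Pd d).indicator (fun _ => c) := by
    ext ω
    by_cases h : π ω ∈ Pd d
    · simp [h]
    · simp [h]
  rw [this]
  exact (integrable_const c).indicator (hπ (measurableSet_Pd d))

include hπ in
lemma integral_ind (E : Set Ω) (hE : MeasurableSet E) (c : ℝ) (d : D) :
    ∫ ω in E, c * (Pd d).indicator (fun _ => (1:ℝ)) (π ω) ∂μ =
      c * (μ (E ∩ π ⁻¹' Pd d)).toReal := by
  rw [integral_const_mul]
  congr 1
  have : (fun ω => (Pd d).indicator (fun _ => (1:ℝ)) (π ω)) =
      (π ⁻¹' Pd d).indicator (fun _ => (1:ℝ)) := by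
    ext ω
    by_cases h : π ω ∈ Pd d
    · simp [h]
    · simp [h]
  rw [this, setIntegral_indicator (hπ (measurableSet_Pd d)), setIntegral_const]
  simp [Measure.real]

include hπ hμ in
/-- integral formula for functionals -/
lemma functional_val (Φ : Amb →L[ℝ] ℝ) (E : Set Ω) (hE : MeasurableSet E) :
    Φ (val μ π E) = ∫ ω in E, gfun Φ (π ω) ∂μ := by
  have h1 : HasSum (fun d => Φ ((μ (E ∩ π ⁻¹' Pd d)).toReal • evec d)) (Φ (val μ π E)) :=
    (hasSum_val μ hπ hμ E).mapL Φ
  have h2 : HasSum (fun d => ∫ ω in E, Φ (evec d) * (Pd d).indicator (fun _ => (1:ℝ)) (π ω) ∂μ)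
      (∫ ω in E, ∑' d, Φ (evec d) * (Pd d).indicator (fun _ => (1:ℝ)) (π ω) ∂μ) := by
    refine hasSum_integral_of_summable_integral_norm ?_ ?_
    · intro d
      exact (integrable_ind μ hπ _ d).integrableOn
    · refine Summable.of_nonneg_of_le (fun d => integral_nonneg fun _ => norm_nonneg _) ?_
        ((summable_coeff Φ).mul_right (μ univ).toReal)
      intro d
      calc ∫ ω in E, ‖Φ (evec d) * (Pd d).indicator (fun _ => (1:ℝ)) (π ω)‖ ∂μ
          ≤ ∫ ω in E, |Φ (evec d)| ∂μ := by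
            refine setIntegral_mono (integrable_ind μ hπ _ d).norm.integrableOn
              (integrable_const _).integrableOn ?_
            intro ω
            show ‖Φ (evec d) * (Pd d).indicator (fun _ => (1:ℝ)) (π ω)‖ ≤ |Φ (evec d)|
            rw [Real.norm_eq_abs, abs_mul]
            exact mul_le_of_le_one_right (abs_nonneg _) (indicator_le_one d _)
        _ ≤ |Φ (evec d)| * (μ univ).toReal := by
            rw [setIntegral_const, smul_eq_mul, mul_comm]
            exact mul_le_mul_of_nonneg_left (toReal_le_univ μ E) (abs_nonneg _)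
  refine h1.unique ?_
  change HasSum _ (∫ ω in E, gfun Φ (π ω) ∂μ) at h2
  convert h2 using 2 with d
  rw [integral_ind μ hπ E hE, map_smul, smul_eq_mul, mul_comm]

end generic

lemma measurable_gfun (Φ : Amb →L[ℝ] ℝ) : Measurable (gfun Φ) := by
  refine measurable_of_tendsto_metrizable' (atTop : Filter (Finset D))
    (f := fun F t => ∑ d ∈ F, Φ (evec d) * (Pd d).indicator (fun _ => (1:ℝ)) t) ?_ ?_
  · intro F
    refine Finset.measurable_sum _ fun d _ => ?_
    exact (measurable_const.indicator (measurableSet_Pd d)).const_mul _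
  · rw [tendsto_pi_nhds]
    intro t
    exact (summable_gfun Φ t).hasSum

lemma integrable_gfun (Φ : Amb →L[ℝ] ℝ) : Integrable (gfun Φ) lam := by
  refine Integrable.of_bound (measurable_gfun Φ).aestronglyMeasurable
    (∑' d, |Φ (evec d)|) (Eventually.of_forall fun t => ?_)
  refine (norm_tsum_le_tsum_norm (summable_gfun Φ t).norm).trans ?_
  refine (summable_gfun Φ t).norm.tsum_le_tsum (fun d => ?_) (summable_coeff Φ)
  rw [Real.norm_eq_abs, abs_mul]
  exact mul_le_of_le_one_right (abs_nonneg _) (indicator_le_one d _)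

/-- summation of the `t`-th component -/
def sig (t : ℝ) : Amb →L[ℝ] ℝ := (lp.tsumCLM ℝ ℝ ℝ).comp (p1 t)

lemma sig_apply (t : ℝ) (x : Amb) : sig t x = ∑' γ, (p1 t x : ∀ _, ℝ) γ := rfl

lemma norm_co_le (d : D) (x : Amb) : |co d x| ≤ ‖x‖ := by
  have h5 : ‖(x.1 : ∀ _, ℝ) d‖ ≤ ‖x.1‖ := lp.norm_apply_le_norm (by simp) x.1 d
  exact h5.trans (norm_fst_le x)

lemma norm_p1_le (t : ℝ) (x : Amb) : ‖p1 t x‖ ≤ ‖x‖ := by
  have h5 : ‖(x.2.1 : ∀ _, G1) t‖ ≤ ‖x.2.1‖ := lp.norm_apply_le_norm (by simp) x.2.1 t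
  exact h5.trans ((norm_fst_le x.2).trans (norm_snd_le x))

lemma norm_sig_le (t : ℝ) (x : Amb) : |sig t x| ≤ ‖x‖ := by
  rw [sig_apply]
  exact (lp.norm_tsum_le (p1 t x)).trans (norm_p1_le t x)

/-- first relation -/
def K1 (t : ℝ) : Submodule ℝ Amb where
  carrier := {x | Tendsto (fun n => co (node t n) x - sig t x) atTop (𝓝 0)}
  zero_mem' := by simp
  add_mem' := by
    intro x y hx hy
    simp only [mem_ofPred_eq] at hx hy ⊢
    have := hx.add hy
    rw [add_zero] at this
    refine this.congr fun n => ?_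
    rw [map_add, map_add]; ring
  smul_mem' := by
    intro c x hx
    simp only [mem_ofPred_eq] at hx ⊢
    have := hx.const_mul c
    rw [mul_zero] at this
    refine this.congr fun n => ?_
    rw [map_smul, map_smul, smul_eq_mul, smul_eq_mul]; ring

lemma mem_K1 {t : ℝ} {x : Amb} :
    x ∈ K1 t ↔ Tendsto (fun n => co (node t n) x - sig t x) atTop (𝓝 0) := Iff.rfl

lemma isClosed_K1 (t : ℝ) : IsClosed (K1 t : Set Amb) := by
  rw [← isSeqClosed_iff_isClosed]
  intro u x hu hx
  show x ∈ K1 t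
  rw [mem_K1, Metric.tendsto_atTop]
  intro ε hε
  rw [Metric.tendsto_atTop] at hx
  obtain ⟨m, hm⟩ := hx (ε / 3) (by positivity)
  have hm' := hm m le_rfl
  have hum : u m ∈ K1 t := hu m
  rw [mem_K1, Metric.tendsto_atTop] at hum
  obtain ⟨N, hN⟩ := hum (ε / 3) (by positivity)
  refine ⟨N, fun n hn => ?_⟩
  have h1 := hN n hn
  rw [Real.dist_eq, sub_zero] at h1 ⊢
  rw [dist_eq_norm] at hm'
  have h2 := norm_co_le (node t n) (u m - x)
  have h3 := norm_sig_le t (u m - x)
  rw [map_sub] at h2 h3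
  have h4 := abs_le.1 h2
  have h5 := abs_le.1 h3
  have h6 := abs_lt.1 h1
  rw [abs_lt]
  constructor <;> linarith

lemma sig_evec (t : ℝ) (d : D) : sig t (evec d) = 0 := by
  rw [sig_apply, p1_evec]; simp

lemma p1_fvec (s t γ : ℝ) : p1 s (fvec t γ) = (gvec1 t γ : ∀ _, G1) s := rfl

lemma sig_fvec (s t γ : ℝ) : sig s (fvec t γ) = if s = t then 1 else 0 := by
  classical
  rw [sig_apply, p1_fvec, gvec1, lp.single_apply]
  by_cases h : s = t
  · subst h
    rw [Pi.single_eq_same, if_pos rfl, lp.coeFn_single, tsum_pi_single]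
  · rw [Pi.single_eq_of_ne h, if_neg h]
    simp

lemma co_fvec (d : D) (t γ : ℝ) : co d (fvec t γ) = (Pd d).indicator (fun _ => (1:ℝ)) t := rfl

lemma Xsub_le_K1 (t : ℝ) : Xsub ≤ K1 t := by
  refine Submodule.topologicalClosure_minimal _ ?_ (isClosed_K1 t)
  rw [Submodule.span_le]
  rintro x (⟨d, rfl⟩ | ⟨⟨t', γ⟩, rfl⟩)
  · show evec d ∈ K1 t
    rw [mem_K1]
    refine tendsto_const_nhds.congr' ?_
    filter_upwards [eventually_gt_atTop d.1] with n hn
    rw [sig_evec, co_evec, if_neg]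
    · simp
    · intro h
      have : n = d.1 := congrArg Prod.fst h
      omega
  · show fvec t' γ ∈ K1 t
    rw [mem_K1]
    by_cases h : t = t'
    · subst h
      refine tendsto_const_nhds.congr fun n => ?_
      rw [sig_fvec, if_pos rfl, co_fvec, indicator_of_mem (node_mem t n)]
      simp
    · obtain ⟨N, hN⟩ := node_sep h
      refine tendsto_const_nhds.congr' ?_
      filter_upwards [eventually_ge_atTop N] with n hn
      rw [sig_fvec, if_neg h, co_fvec, indicator_of_notMem]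
      · simp
      · intro hmem
        exact hN n hn hmem.symm

lemma rel2 (x : Amb) (hx : x ∈ Xsub) (t γ : ℝ) :
    (p1 t x : ∀ _, ℝ) γ = ((p2 x : ∀ _, Gi) t : ∀ _, ℝ) γ := by
  classical
  let e1 : Amb →L[ℝ] ℝ := (lp.evalCLM ℝ (fun _ : ℝ => ℝ) 1 γ).comp (p1 t)
  let e2 : Amb →L[ℝ] ℝ := (lp.evalCLM ℝ (fun _ : ℝ => ℝ) ∞ γ).comp
    ((lp.evalCLM ℝ (fun _ : ℝ => Gi) 1 t).comp p2)
  have h1 : Xsub ≤ LinearMap.ker (e1 - e2).toLinearMap := by
    refine Submodule.topologicalClosure_minimal _ ?_ (ContinuousLinearMap.isClosed_ker (e1 - e2))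
    rw [Submodule.span_le]
    rintro x (⟨d, rfl⟩ | ⟨⟨t', γ'⟩, rfl⟩)
    · show (e1 - e2) (evec d) = 0
      show e1 (evec d) - e2 (evec d) = 0
      have ha : e1 (evec d) = 0 := rfl
      have hb : e2 (evec d) = 0 := rfl
      rw [ha, hb, sub_zero]
    · show e1 (fvec t' γ') - e2 (fvec t' γ') = 0
      have ha : e1 (fvec t' γ') = ((gvec1 t' γ' : ∀ _, G1) t : ∀ _, ℝ) γ := rfl
      have hb : e2 (fvec t' γ') = ((gvec2 t' γ' : ∀ _, Gi) t : ∀ _, ℝ) γ := rfl
      rw [ha, hb, gvec1, gvec2, lp.single_apply, lp.single_apply]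
      by_cases h : t = t'
      · subst h
        rw [Pi.single_eq_same, Pi.single_eq_same, lp.single_apply, lp.single_apply, sub_self]
      · rw [Pi.single_eq_of_ne h, Pi.single_eq_of_ne h]
        simp
  have h2 := h1 hx
  have h3 : e1 x - e2 x = 0 := h2
  exact sub_eq_zero.1 h3

lemma summable_norm_P2 (y : P2) : Summable (fun t => ‖(y : ∀ _, Gi) t‖) := by
  have := (lp.memℓp y).summable (by norm_num)
  simpa using this

lemma ind_le (s : ℝ → ℝ) (I : Set ℝ) (y : P2) (t : ℝ) :
    ‖I.indicator (fun t => ((y : ∀ _, Gi) t : ∀ _, ℝ) (s t)) t‖ ≤ ‖(y : ∀ _, Gi) t‖ := by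
  have h5 : ‖((y : ∀ _, Gi) t : ∀ _, ℝ) (s t)‖ ≤ ‖(y : ∀ _, Gi) t‖ :=
    lp.norm_apply_le_norm (by simp) _ _
  by_cases h : t ∈ I
  · rw [indicator_of_mem h]; exact h5
  · rw [indicator_of_notMem h, norm_zero]; exact norm_nonneg _

lemma summable_ind (s : ℝ → ℝ) (I : Set ℝ) (y : P2) :
    Summable (fun t => I.indicator (fun t => ((y : ∀ _, Gi) t : ∀ _, ℝ) (s t)) t) :=
  Summable.of_norm_bounded (summable_norm_P2 y) (ind_le s I y)

/-- functional picking the coordinates `(t, s t)`, `t ∈ I` -/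
def psi (s : ℝ → ℝ) (I : Set ℝ) : P2 →L[ℝ] ℝ :=
  LinearMap.mkContinuous
    { toFun := fun y => ∑' t, I.indicator (fun t => ((y : ∀ _, Gi) t : ∀ _, ℝ) (s t)) t
      map_add' := by
        intro x y
        rw [← (summable_ind s I x).tsum_add (summable_ind s I y)]
        refine tsum_congr fun t => ?_
        by_cases h : t ∈ I
        · rw [indicator_of_mem h, indicator_of_mem h, indicator_of_mem h]; rfl
        · rw [indicator_of_notMem h, indicator_of_notMem h, indicator_of_notMem h, add_zero]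
      map_smul' := by
        intro c x
        rw [RingHom.id_apply, smul_eq_mul, ← tsum_mul_left]
        refine tsum_congr fun t => ?_
        by_cases h : t ∈ I
        · rw [indicator_of_mem h, indicator_of_mem h]; rfl
        · rw [indicator_of_notMem h, indicator_of_notMem h, mul_zero] } 1 (by
    intro y
    rw [one_mul]
    refine (norm_tsum_le_tsum_norm (summable_ind s I y).norm).trans ?_
    refine ((summable_ind s I y).norm.tsum_le_tsum (ind_le s I y) (summable_norm_P2 y)).trans ?_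
    have := lp.norm_eq_tsum_rpow (p := 1) (by norm_num) y
    simp at this
    exact this.ge)

lemma psi_apply (s : ℝ → ℝ) (I : Set ℝ) (y : P2) :
    psi s I y = ∑' t, I.indicator (fun t => ((y : ∀ _, Gi) t : ∀ _, ℝ) (s t)) t := rfl

lemma measurable_id' : Measurable (fun t : ℝ => t) := measurable_id
lemma map_id' : lam.map (fun t : ℝ => t) = lam := Measure.map_id

/-- First vector measure, on the big space. -/
def nu1 : VectorMeasure Om Xsub := vm mu measurable_fst map_fst
/-- Second vector measure, on `[0,1)`. -/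
def nu2 : VectorMeasure ℝ Xsub := vm lam measurable_id' map_id'

lemma val_base {A : Set Om} {B : Set ℝ} (hB : MeasurableSet B) (h : IsBase A B) :
    val mu Om.fst A = val lam (fun t => t) B := by
  refine Amb_ext ?_ ?_ ?_
  · intro d
    rw [co_val, co_val]
    congr 1
    have h1 : (A ∩ Om.fst ⁻¹' Pd d : Set Om) =ᵐ[mu] (Om.fst ⁻¹' B ∩ Om.fst ⁻¹' Pd d : Set Om) :=
      h.ae_eq.inter (Filter.EventuallyEq.refl _ _)
    rw [measure_congr h1, ← preimage_inter, mu_pre mu measurable_fst map_fst _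
      (hB.inter (measurableSet_Pd d))]
    rfl
  · intro t; rfl
  · rfl

lemma range_eq : {x : Xsub | ∃ A : Set Om, MeasurableSet A ∧ nu1 A = x} =
    {x : Xsub | ∃ A : Set ℝ, MeasurableSet A ∧ nu2 A = x} := by
  ext x
  constructor
  · rintro ⟨A, hA, rfl⟩
    obtain ⟨B, hB, hAB⟩ := measurableSet_om_iff.1 hA
    refine ⟨B, hB, ?_⟩
    apply Subtype.ext
    rw [nu1, nu2, vm_apply _ _ _ _ hA, vm_apply _ _ _ _ hB, val_base hB hAB]
  · rintro ⟨B, hB, rfl⟩
    refine ⟨Om.fst ⁻¹' B, measurable_fst hB, ?_⟩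
    have hAB : IsBase (Om.fst ⁻¹' B) B := by simp [IsBase, nul_empty]
    apply Subtype.ext
    rw [nu1, nu2, vm_apply _ _ _ _ (measurable_fst hB), vm_apply _ _ _ _ hB, val_base hB hAB]

/-- the first measure has a Pettis density -/
lemma pettis1 : ∃ g : Om → Xsub, ∀ φ : Xsub →L[ℝ] ℝ, Integrable (fun ω => φ (g ω)) mu ∧
    ∀ A : Set Om, MeasurableSet A → φ (nu1 A) = ∫ ω in A, φ (g ω) ∂mu := by
  refine ⟨fun ω => ⟨fvec ω.fst ω.snd, fvec_mem _ _⟩, fun φ => ?_⟩
  obtain ⟨Φ, hΦ, -⟩ := exists_extension_norm_eq Xsub φ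
  have h1 : ∀ ω : Om, φ ⟨fvec ω.fst ω.snd, fvec_mem _ _⟩ = Φ (fvec ω.fst ω.snd) := fun ω =>
    (hΦ ⟨fvec ω.fst ω.snd, fvec_mem _ _⟩).symm
  simp only [h1]
  refine ⟨integrable_of_base (integrable_gfun Φ) (nul_bad Φ), ?_⟩
  intro A hA
  obtain ⟨B, hB, hAB⟩ := measurableSet_om_iff.1 hA
  rw [setIntegral_of_base (integrable_gfun Φ) (nul_bad Φ) hB hAB, ← hΦ (nu1 A), nu1,
    vm_apply _ _ _ _ hA, val_base hB hAB, functional_val lam measurable_id' map_id' Φ B hB]

/-- the second measure has no Pettis density -/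
lemma no_pettis2 : ¬ ∃ g : ℝ → Xsub, ∀ φ : Xsub →L[ℝ] ℝ, Integrable (fun ω => φ (g ω)) lam ∧
    ∀ A : Set ℝ, MeasurableSet A → φ (nu2 A) = ∫ ω in A, φ (g ω) ∂lam := by
  rintro ⟨g, hg⟩
  -- restricted functionals
  have hgΦ : ∀ Φ : Amb →L[ℝ] ℝ, Integrable (fun t => Φ (g t)) lam ∧
      ∀ A : Set ℝ, MeasurableSet A → Φ (val lam (fun t => t) A) = ∫ t in A, Φ (g t) ∂lam := by
    intro Φ
    have := hg (Φ.comp Xsub.subtypeL)
    refine ⟨this.1, fun A hA => ?_⟩
    have h2 := this.2 A hA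
    rw [← vm_apply lam measurable_id' map_id' A hA]
    exact h2
  -- coordinates
  have hco : ∀ d : D, ∀ᵐ t ∂lam, co d (g t) = (Pd d).indicator (fun _ => (1:ℝ)) t := by
    intro d
    refine (hgΦ (co d)).1.ae_eq_of_forall_setIntegral_eq _ _ ?_ ?_
    · have := integrable_ind lam measurable_id' 1 d
      simpa using this
    · intro A hA _
      rw [← (hgΦ (co d)).2 A hA, co_val]
      have := integral_ind lam measurable_id' A hA 1 d
      simp only [one_mul] at this
      rw [this]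
  classical
  let s : ℝ → ℝ := fun t => if h : ∃ γ, ((p2 (g t : Amb) : ∀ _, Gi) t : ∀ _, ℝ) γ ≠ 0 then
    h.choose else 0
  have hs : ∀ t, (∃ γ, ((p2 (g t : Amb) : ∀ _, Gi) t : ∀ _, ℝ) γ ≠ 0) →
      ((p2 (g t : Amb) : ∀ _, Gi) t : ∀ _, ℝ) (s t) ≠ 0 := by
    intro t ht
    have : s t = ht.choose := by simp only [s]; rw [dif_pos ht]
    rw [this]
    exact ht.choose_spec
  have hpsi : ∀ d : D, ∀ᵐ t ∂lam, psi s (Pd d) (p2 (g t : Amb)) = 0 := by
    intro d
    have h1 := hgΦ ((psi s (Pd d)).comp p2)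
    refine h1.1.ae_eq_of_forall_setIntegral_eq _ (fun _ => (0:ℝ)) (integrable_zero _ _ _) ?_
    intro A hA _
    rw [← h1.2 A hA]
    rw [ContinuousLinearMap.comp_apply, p2_val]
    simp
  have hall : ∀ᵐ t ∂lam, (∀ d : D, co d (g t) = (Pd d).indicator (fun _ => (1:ℝ)) t) ∧
      ∀ d : D, psi s (Pd d) (p2 (g t : Amb)) = 0 := by
    have h1 := ae_all_iff.2 hco
    have h2 := ae_all_iff.2 hpsi
    filter_upwards [h1, h2] with t ha hb using ⟨ha, hb⟩
  obtain ⟨t, ht1, ht2⟩ := hall.exists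
  -- the sum of the t-th component is one
  have hsig : sig t (g t : Amb) = 1 := by
    have h1 := Xsub_le_K1 t (g t).2
    rw [mem_K1] at h1
    have h2 : ∀ n, co (node t n) (g t : Amb) = 1 := by
      intro n
      rw [ht1, indicator_of_mem (node_mem t n)]
    simp only [h2] at h1
    have h3 := tendsto_nhds_unique h1 tendsto_const_nhds
    linarith
  have hex : ∃ γ, ((p2 (g t : Amb) : ∀ _, Gi) t : ∀ _, ℝ) γ ≠ 0 := by
    by_contra hcon
    push Not at hcon
    rw [sig_apply] at hsig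
    have : ∀ γ, (p1 t (g t : Amb) : ∀ _, ℝ) γ = 0 := fun γ => by
      rw [rel2 _ (g t).2, hcon]
    simp only [this, tsum_zero] at hsig
    exact zero_ne_one hsig
  have hne := hs t hex
  -- shrinking dyadic intervals
  have hlim : Tendsto (fun n => psi s (Pd (node t n)) (p2 (g t : Amb))) atTop
      (𝓝 (∑' t', if t' = t then ((p2 (g t : Amb) : ∀ _, Gi) t : ∀ _, ℝ) (s t) else 0)) := by
    simp only [psi_apply]
    refine tendsto_tsum_of_dominated_convergence (summable_norm_P2 (p2 (g t : Amb))) ?_ ?_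
    · intro t'
      by_cases h : t' = t
      · subst h
        refine tendsto_const_nhds.congr fun n => ?_
        rw [if_pos rfl, indicator_of_mem (node_mem t' n)]
      · rw [if_neg h]
        obtain ⟨N, hN⟩ := node_sep h
        refine tendsto_const_nhds.congr' ?_
        filter_upwards [eventually_ge_atTop N] with n hn
        rw [indicator_of_notMem]
        intro hmem
        exact hN n hn hmem
    · exact Eventually.of_forall fun n t' => ind_le s _ _ t'
  simp only [ht2, tsum_ite_eq] at hlim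
  exact hne (tendsto_nhds_unique hlim tendsto_const_nhds)

end

end Pool.Agent.Helper519.Pettis
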