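import Mathlib

set_option autoImplicit false
open MeasureTheory Set Filter Topology

namespace Pool.Agent.Helper519.Pettis

/-- Lebesgue measure on `[0,1)`, as a measure on `ℝ`. -/
noncomputable def lam : Measure ℝ := (volume : Measure ℝ).restrict (Ico (0:ℝ) 1)

instance : IsProbabilityMeasure lam := by
  constructor
  simp [lam]

/-- The underlying set of the big probability space: a copy of `ℝ × ℝ`. -/
@[ext] structure Om : Type where
  fst : ℝ
  snd : ℝ

/-- the set of `t` whose fibre in `E` is uncountable -/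
def big (E : Set Om) : Set ℝ := {t | ¬ {γ : ℝ | (⟨t, γ⟩ : Om) ∈ E}.Countable}

lemma big_mono {E F : Set Om} (h : E ⊆ F) : big E ⊆ big F := by
  intro t ht hF
  exact ht (hF.mono (fun γ hγ => h hγ))

lemma big_iUnion {ι : Type*} [Countable ι] (E : ι → Set Om) : big (⋃ i, E i) = ⋃ i, big (E i) := by
  ext t
  simp only [big, mem_ofPred_eq, mem_iUnion]
  constructor
  · intro h
    by_contra hcon
    push Not at hcon
    apply h
    have : {γ : ℝ | ∃ i, (⟨t, γ⟩ : Om) ∈ E i} = ⋃ i, {γ : ℝ | (⟨t, γ⟩ : Om) ∈ E i} := by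
      ext; simp
    rw [this]
    exact countable_iUnion hcon
  · rintro ⟨i, hi⟩ h
    refine hi (h.mono ?_)
    intro γ hγ
    simp only [mem_ofPred_eq]
    exact ⟨i, hγ⟩

lemma big_union (E F : Set Om) : big (E ∪ F) = big E ∪ big F := by
  rw [union_eq_iUnion, big_iUnion, union_eq_iUnion]
  congr 1
  ext b
  cases b <;> rfl

lemma big_empty : big ∅ = ∅ := by
  ext t; simp [big]

lemma big_preimage (B : Set ℝ) : big (Om.fst ⁻¹' B) = B := by
  ext t
  simp only [big, mem_preimage, mem_ofPred_eq]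
  by_cases h : t ∈ B
  · simp only [h, setOf_true, iff_true]
    exact not_countable_univ
  · simp [h]

/-- The outer measure: outer Lebesgue measure of the set of `t` with uncountable fibre. -/
noncomputable def outer : OuterMeasure Om where
  measureOf E := lam (big E)
  empty := by simp [big_empty]
  mono {s t} h := measure_mono (big_mono h)
  iUnion_nat E _ := by
    rw [big_iUnion]
    exact measure_iUnion_le _

lemma outer_apply (E : Set Om) : outer E = lam (big E) := rfl

/-- negligible sets -/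
def Nul (N : Set Om) : Prop := lam (big N) = 0

lemma Nul.mono {N M : Set Om} (h : Nul N) (hM : M ⊆ N) : Nul M :=
  measure_mono_null (big_mono hM) h

lemma Nul.iUnion {ι : Type*} [Countable ι] {N : ι → Set Om} (h : ∀ i, Nul (N i)) :
    Nul (⋃ i, N i) := by
  unfold Nul
  rw [big_iUnion]
  exact measure_iUnion_null h

lemma nul_empty : Nul ∅ := by simp [Nul, big_empty]

/-- `B` is a base of `E` -/
def IsBase (E : Set Om) (B : Set ℝ) : Prop :=
  Nul (symmDiff E (Om.fst ⁻¹' B))

noncomputable instance : MeasurableSpace Om where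
  MeasurableSet' E := ∃ B : Set ℝ, MeasurableSet B ∧ IsBase E B
  measurableSet_empty := ⟨∅, MeasurableSet.empty, by simp [IsBase, nul_empty]⟩
  measurableSet_compl := by
    rintro E ⟨B, hB, h⟩
    refine ⟨Bᶜ, hB.compl, ?_⟩
    have : symmDiff Eᶜ (Om.fst ⁻¹' Bᶜ) = symmDiff E (Om.fst ⁻¹' B) := by
      rw [preimage_compl, compl_symmDiff_compl]
    unfold IsBase
    rw [this]
    exact h
  measurableSet_iUnion := by
    intro E hE
    choose B hB h using hE
    refine ⟨⋃ i, B i, MeasurableSet.iUnion hB, ?_⟩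
    refine Nul.mono (Nul.iUnion h) ?_
    intro ω hω
    rw [mem_symmDiff] at hω
    simp only [mem_iUnion, mem_preimage, mem_symmDiff] at hω ⊢
    rcases hω with ⟨⟨i, hi⟩, h2⟩ | ⟨⟨i, hi⟩, h2⟩
    · exact ⟨i, Or.inl ⟨hi, fun h3 => h2 ⟨i, h3⟩⟩⟩
    · exact ⟨i, Or.inr ⟨hi, fun h3 => h2 ⟨i, h3⟩⟩⟩

lemma measurableSet_om_iff {E : Set Om} :
    MeasurableSet E ↔ ∃ B : Set ℝ, MeasurableSet B ∧ IsBase E B := Iff.rfl

/-- pointwise description of a base -/
lemma IsBase.ae {E : Set Om} {B : Set ℝ} (h : IsBase E B) :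
    ∀ᵐ t ∂lam, {γ : ℝ | ¬ ((⟨t, γ⟩ : Om) ∈ E ↔ t ∈ B)}.Countable := by
  have h1 : lam (big (symmDiff E (Om.fst ⁻¹' B))) = 0 := h
  rw [ae_iff]
  refine measure_mono_null ?_ h1
  intro t ht
  simp only [mem_ofPred_eq, big] at ht ⊢
  intro hc
  apply ht
  refine hc.mono ?_
  intro γ hγ
  simp only [mem_ofPred_eq, mem_symmDiff, mem_preimage] at hγ ⊢
  tauto

lemma big_inter_ae {E : Set Om} {B : Set ℝ} (h : IsBase E B) (A : Set Om) :
    (big (A ∩ E) : Set ℝ) =ᵐ[lam] (big A ∩ B : Set ℝ) := by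
  filter_upwards [h.ae] with t ht
  apply propext
  show t ∈ big (A ∩ E) ↔ t ∈ big A ∩ B
  simp only [big, mem_ofPred_eq, mem_inter_iff]
  constructor
  · intro h1
    constructor
    · intro h2
      exact h1 (h2.mono (fun γ hγ => hγ.1))
    · by_contra htB
      apply h1
      refine ht.mono ?_
      intro γ hγ
      simp only [mem_ofPred_eq] at hγ ⊢
      tauto
  · rintro ⟨h1, h2⟩ h3
    apply h1
    refine (h3.union ht).mono ?_
    intro γ hγ
    simp only [mem_ofPred_eq, mem_union] at hγ ⊢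
    tauto

lemma big_diff_ae {E : Set Om} {B : Set ℝ} (h : IsBase E B) (A : Set Om) :
    (big (A \ E) : Set ℝ) =ᵐ[lam] (big A \ B : Set ℝ) := by
  filter_upwards [h.ae] with t ht
  apply propext
  show t ∈ big (A \ E) ↔ t ∈ big A \ B
  simp only [big, mem_ofPred_eq, Set.mem_sdiff]
  constructor
  · intro h1
    constructor
    · intro h2
      exact h1 (h2.mono (fun γ hγ => hγ.1))
    · intro htB
      apply h1
      refine ht.mono ?_
      intro γ hγ
      simp only [mem_ofPred_eq] at hγ ⊢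
      tauto
  · rintro ⟨h1, h2⟩ h3
    apply h1
    refine (h3.union ht).mono ?_
    intro γ hγ
    simp only [mem_ofPred_eq, mem_union] at hγ ⊢
    tauto

lemma le_carath : (inferInstance : MeasurableSpace Om) ≤ outer.caratheodory := by
  intro E hE
  obtain ⟨B, hB, h⟩ := measurableSet_om_iff.1 hE
  rw [OuterMeasure.isCaratheodory_iff]
  intro A
  simp only [outer_apply]
  rw [measure_congr (big_inter_ae h A), measure_congr (big_diff_ae h A)]
  exact (measure_inter_add_diff _ hB).symm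

/-- The measure on the big space. -/
noncomputable def mu : Measure Om := outer.toMeasure le_carath

lemma mu_apply {E : Set Om} (hE : MeasurableSet E) : mu E = lam (big E) :=
  toMeasure_apply _ _ hE

lemma measurable_fst : Measurable Om.fst := by
  intro B hB
  exact ⟨B, hB, by simp [IsBase, nul_empty]⟩

lemma Nul.measurableSet {N : Set Om} (h : Nul N) : MeasurableSet N := by
  refine ⟨∅, MeasurableSet.empty, ?_⟩
  unfold IsBase
  have h2 : symmDiff N (Om.fst ⁻¹' ∅) = N := by
    rw [preimage_empty]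
    exact symmDiff_bot N
  rw [h2]
  exact h

lemma Nul.mu_eq {N : Set Om} (h : Nul N) : mu N = 0 := by
  rw [mu_apply h.measurableSet]; exact h

lemma map_fst : mu.map Om.fst = lam := by
  ext B hB
  rw [Measure.map_apply measurable_fst hB, mu_apply (measurable_fst hB), big_preimage]

instance : IsProbabilityMeasure mu := by
  constructor
  have := congrArg (fun m : Measure ℝ => m univ) map_fst
  simp only [measure_univ] at this
  rw [Measure.map_apply measurable_fst MeasurableSet.univ, preimage_univ] at this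
  exact this

lemma IsBase.ae_eq {E : Set Om} {B : Set ℝ} (h : IsBase E B) :
    E =ᵐ[mu] Om.fst ⁻¹' B := by
  rw [← measure_symmDiff_eq_zero_iff]
  exact Nul.mu_eq h

/-- integration of functions that agree with a function of the first coordinate off a
negligible set -/
lemma integrable_of_base {f : Om → ℝ} {g : ℝ → ℝ} (hg : Integrable g lam)
    (hfg : Nul {ω | f ω ≠ g ω.fst}) : Integrable f mu := by
  have h1 : Integrable (fun ω : Om => g ω.fst) mu := by
    rw [← map_fst] at hg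
    exact hg.comp_measurable measurable_fst
  refine h1.congr ?_
  rw [EventuallyEq, ae_iff]
  refine (hfg.mono ?_).mu_eq
  intro ω hω
  simp only [mem_ofPred_eq] at hω ⊢
  exact fun h => hω h.symm

lemma setIntegral_of_base {f : Om → ℝ} {g : ℝ → ℝ} (hg : Integrable g lam)
    (hfg : Nul {ω | f ω ≠ g ω.fst}) {E : Set Om} {B : Set ℝ} (hB : MeasurableSet B)
    (hEB : IsBase E B) : ∫ ω in E, f ω ∂mu = ∫ t in B, g t ∂lam := by
  have h1 : ∫ ω in E, f ω ∂mu = ∫ ω in Om.fst ⁻¹' B, f ω ∂mu :=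
    setIntegral_congr_set hEB.ae_eq
  have h2 : ∫ ω in Om.fst ⁻¹' B, f ω ∂mu = ∫ ω in Om.fst ⁻¹' B, g ω.fst ∂mu := by
    refine setIntegral_congr_ae (measurable_fst hB) ?_
    have : ∀ᵐ ω ∂mu, f ω = g ω.fst := by
      rw [ae_iff]
      exact hfg.mu_eq
    filter_upwards [this] with ω h _ using h
  have h3 : ∫ t in B, g t ∂(mu.map Om.fst) = ∫ ω in Om.fst ⁻¹' B, g ω.fst ∂mu := by
    refine setIntegral_map hB ?_ measurable_fst.aemeasurable
    rw [map_fst]
    exact hg.aestronglyMeasurable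
  rw [h1, h2, ← h3, map_fst]

lemma perfect_cont {α : Type*} [TopologicalSpace α] [PolishSpace α] [MeasurableSpace α]
    [BorelSpace α] (ρ : Measure α) [IsFiniteMeasure ρ] (C : Set α) (hC : MeasurableSet C)
    (r : α → ℝ) (hr : Continuous r) :
    ∃ B : Set ℝ, MeasurableSet B ∧ B ⊆ r '' C ∧ ρ (C \ r ⁻¹' B) = 0 := by
  have key : ∀ n : ℕ, ∃ K : Set α, K ⊆ C ∧ IsCompact K ∧
      ρ (C \ K) < ENNReal.ofReal (1 / ((n:ℝ) + 1)) := by
    intro n
    have h0 : ENNReal.ofReal (1 / ((n:ℝ) + 1)) ≠ 0 := by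
      have : (0:ℝ) < 1 / ((n:ℝ) + 1) := by positivity
      simpa using this
    obtain ⟨K, hKC, hKc, _, hlt⟩ :=
      hC.exists_isCompact_isClosed_sdiff_lt (measure_ne_top ρ C) h0
    exact ⟨K, hKC, hKc, hlt⟩
  choose K hKC hKc hlt using key
  refine ⟨⋃ n, r '' (K n), ?_, ?_, ?_⟩
  · refine MeasurableSet.iUnion fun n => ?_
    exact ((hKc n).image hr).measurableSet
  · refine iUnion_subset fun n => image_mono (hKC n)
  · have hle2 : ∀ n : ℕ, ρ (C \ r ⁻¹' (⋃ n, r '' (K n))) ≤ ENNReal.ofReal (1 / ((n:ℝ) + 1)) := by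
      intro n
      refine (measure_mono ?_).trans (hlt n).le
      intro t ht
      refine ⟨ht.1, fun hK => ht.2 ?_⟩
      exact mem_iUnion.2 ⟨n, mem_image_of_mem r hK⟩
    have hlim : Tendsto (fun n : ℕ => ENNReal.ofReal (1 / ((n:ℝ) + 1))) atTop (𝓝 0) := by
      have := ENNReal.tendsto_ofReal (tendsto_one_div_add_atTop_nhds_zero_nat (𝕜 := ℝ))
      simpa using this
    exact le_antisymm (ge_of_tendsto' hlim hle2) zero_le

lemma perfect_polish {α : Type*} [t : TopologicalSpace α] [hP : PolishSpace α]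
    [m : MeasurableSpace α] [hB : BorelSpace α] (ρ : Measure α) [hρ : IsFiniteMeasure ρ]
    (C : Set α) (hC : MeasurableSet C) (r : α → ℝ) (hr : Measurable r) :
    ∃ B : Set ℝ, MeasurableSet B ∧ B ⊆ r '' C ∧ ρ (C \ r ⁻¹' B) = 0 := by
  obtain ⟨t', hle, hcont, hpol⟩ := hr.exists_continuous
  have hborel := @borel_eq_borel_of_le α t' t hpol hP hle
  have hbs : @BorelSpace α t' m :=
    @BorelSpace.mk α t' m (hB.measurable_eq.trans hborel.symm)
  exact @perfect_cont α t' hpol m hbs ρ hρ C hC r hcont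

/-- Perfectness of finite Borel measures on the line. -/
lemma perfect_real (ρ : Measure ℝ) [IsFiniteMeasure ρ] (C : Set ℝ) (hC : MeasurableSet C)
    (r : ℝ → ℝ) (hr : Measurable r) :
    ∃ B : Set ℝ, MeasurableSet B ∧ B ⊆ r '' C ∧ ρ (C \ r ⁻¹' B) = 0 :=
  perfect_polish ρ C hC r hr

/-- Perfectness of the big measure. -/
lemma perfect_mu (f : Om → ℝ) (hf : Measurable f) :
    ∃ B : Set ℝ, MeasurableSet B ∧ B ⊆ range f ∧ mu (f ⁻¹' B) = mu univ := by
  -- bases of the sets `{f < q}`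
  have h1 : ∀ q : ℚ, ∃ B : Set ℝ, MeasurableSet B ∧ IsBase (f ⁻¹' Iio (q:ℝ)) B := fun q =>
    measurableSet_om_iff.1 (hf measurableSet_Iio)
  choose Bq hBq hbase using h1
  have h2 : ∀ᵐ t ∂lam, ∀ q : ℚ, {γ : ℝ | ¬ (f ⟨t, γ⟩ < q ↔ t ∈ Bq q)}.Countable := by
    rw [ae_all_iff]
    intro q
    exact (hbase q).ae
  obtain ⟨C, hCsub, hCm, hC0⟩ : ∃ C : Set ℝ, C ⊆ {t | ∀ q : ℚ, {γ : ℝ | ¬ (f ⟨t, γ⟩ < q ↔ t ∈ Bq q)}.Countable} ∧
      MeasurableSet C ∧ lam Cᶜ = 0 := by
    obtain ⟨N, hN1, hN2, hN3⟩ := exists_measurable_superset_of_null (ae_iff.1 h2)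
    refine ⟨Nᶜ, ?_, hN2.compl, by simpa using hN3⟩
    intro t ht
    by_contra hcon
    exact ht (hN1 hcon)
  -- for `t ∈ C` there is a value `v` with `f ⟨t, γ⟩ = v` for all but countably many `γ`
  have h3 : ∀ t ∈ C, ∃ v : ℝ, {γ : ℝ | f ⟨t, γ⟩ ≠ v}.Countable ∧ ∀ q : ℚ, (v < q ↔ t ∈ Bq q) := by
    intro t ht
    have h4 : {γ : ℝ | ∃ q : ℚ, ¬ (f ⟨t, γ⟩ < q ↔ t ∈ Bq q)}.Countable := by
      have : {γ : ℝ | ∃ q : ℚ, ¬ (f ⟨t, γ⟩ < q ↔ t ∈ Bq q)} =
          ⋃ q : ℚ, {γ : ℝ | ¬ (f ⟨t, γ⟩ < q ↔ t ∈ Bq q)} := by ext; simp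
      rw [this]
      exact countable_iUnion (hCsub ht)
    obtain ⟨γ0, hγ0⟩ : ∃ γ0 : ℝ, γ0 ∉ {γ : ℝ | ∃ q : ℚ, ¬ (f ⟨t, γ⟩ < q ↔ t ∈ Bq q)} := by
      by_contra hcon
      have hcon' : ∀ γ0 : ℝ, γ0 ∈ {γ : ℝ | ∃ q : ℚ, ¬ (f ⟨t, γ⟩ < q ↔ t ∈ Bq q)} := by
        intro γ0
        by_contra h
        exact hcon ⟨γ0, h⟩
      exact not_countable_univ (h4.mono (fun γ _ => hcon' γ))
    simp only [mem_ofPred_eq, not_exists, not_not] at hγ0
    refine ⟨f ⟨t, γ0⟩, ?_, hγ0⟩
    refine h4.mono ?_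
    intro γ hγ
    by_contra hcon
    simp only [mem_ofPred_eq, not_exists, not_not] at hcon
    apply hγ
    -- equal by rational cuts
    apply le_antisymm
    · by_contra hlt
      push Not at hlt
      obtain ⟨q, hq1, hq2⟩ := exists_rat_btwn hlt
      have := (hcon q).2 ((hγ0 q).1 hq1)
      linarith
    · by_contra hlt
      push Not at hlt
      obtain ⟨q, hq1, hq2⟩ := exists_rat_btwn hlt
      have := (hγ0 q).2 ((hcon q).1 hq1)
      linarith
  classical
  choose! v hv1 hv2 using h3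
  -- measurable version
  let r : ℝ → ℝ := C.indicator v
  have hr : Measurable r := by
    apply measurable_of_Iio
    intro x
    have : r ⁻¹' Iio x = (C ∩ ⋃ (q : ℚ) (_ : (q:ℝ) < x ∨ (q:ℝ) ≤ x), Bq q) ∪ (if (0:ℝ) < x then Cᶜ else ∅) := by
      ext t
      simp only [mem_preimage, mem_Iio, mem_union, mem_inter_iff, mem_iUnion, exists_prop]
      by_cases ht : t ∈ C
      · have hrt : r t = v t := indicator_of_mem ht v
        rw [hrt]
        have hneg : t ∉ (if (0:ℝ) < x then Cᶜ else ∅) := by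
          split_ifs <;> simp [ht]
        simp only [ht, true_and, hneg, or_false]
        constructor
        · intro hlt
          obtain ⟨q, hq1, hq2⟩ := exists_rat_btwn hlt
          exact ⟨q, Or.inl hq2, (hv2 t ht q).1 hq1⟩
        · rintro ⟨q, hq, hq2⟩
          have := (hv2 t ht q).2 hq2
          rcases hq with h | h <;> linarith
      · have hrt : r t = 0 := indicator_of_notMem ht v
        rw [hrt]
        by_cases h0 : (0:ℝ) < x
        · simp [h0, ht]
        · simp [h0, ht]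
    rw [this]
    refine MeasurableSet.union (hCm.inter ?_) ?_
    · exact MeasurableSet.iUnion fun q => MeasurableSet.iUnion fun _ => hBq q
    · split_ifs
      · exact hCm.compl
      · exact MeasurableSet.empty
  obtain ⟨B, hBm, hBsub, hB0⟩ := perfect_real lam C hCm r hr
  refine ⟨B, hBm, ?_, ?_⟩
  · intro x hx
    obtain ⟨t, ht, rfl⟩ := hBsub hx
    have hrt : r t = v t := indicator_of_mem ht v
    obtain ⟨γ0, hγ0⟩ : ∃ γ0 : ℝ, γ0 ∉ {γ : ℝ | f ⟨t, γ⟩ ≠ v t} := by
      by_contra hcon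
      push Not at hcon
      exact not_countable_univ ((hv1 t ht).mono (fun γ _ => hcon γ))
    simp only [mem_ofPred_eq, not_not] at hγ0
    exact ⟨⟨t, γ0⟩, by rw [hγ0, hrt]⟩
  · -- the complement is negligible
    have hnul : Nul (f ⁻¹' B)ᶜ := by
      unfold Nul
      refine measure_mono_null (t := Cᶜ ∪ (C \ r ⁻¹' B)) ?_ ?_
      · intro t ht
        by_contra hcon
        simp only [mem_union, mem_compl_iff, Set.mem_sdiff, mem_preimage, not_or, not_not, not_and] at hcon
        obtain ⟨htC, htB⟩ := hcon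
        have htB' := htB htC
        apply ht
        refine (hv1 t htC).mono ?_
        intro γ hγ
        simp only [mem_compl_iff, mem_preimage, mem_ofPred_eq] at hγ ⊢
        intro heq
        apply hγ
        rw [heq]
        have hrt : r t = v t := indicator_of_mem htC v
        rw [← hrt]
        exact htB'
      · exact measure_union_null hC0 hB0
    have := hnul.mu_eq
    have hms : MeasurableSet (f ⁻¹' B) := hf hBm
    have h5 := measure_add_measure_compl (μ := mu) hms
    rw [this, add_zero] at h5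
    exact h5

lemma perfect_lam (f : ℝ → ℝ) (hf : Measurable f) :
    ∃ B : Set ℝ, MeasurableSet B ∧ B ⊆ range f ∧ lam (f ⁻¹' B) = lam univ := by
  obtain ⟨B, hBm, hBsub, hB0⟩ := perfect_real lam univ MeasurableSet.univ f hf
  refine ⟨B, hBm, by simpa using hBsub, ?_⟩
  have h5 := measure_add_measure_compl (μ := lam) (hf hBm)
  have h6 : lam (f ⁻¹' B)ᶜ = 0 := by rwa [compl_eq_univ_sdiff]
  rw [h6, add_zero] at h5
  exact h5

end Pool.Agent.Helper519.Pettis
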