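import Pool.Agent.Helper519.PMeas

set_option autoImplicit false
open MeasureTheory Set Filter Topology
open scoped ENNReal

namespace Pool.Agent.Helper519.Pettis

noncomputable section

/-- dyadic nodes `(n, k)` -/
abbrev D : Type := ℕ × ℤ
abbrev W : Type := lp (fun _ : D => ℝ) ∞
abbrev G1 : Type := lp (fun _ : ℝ => ℝ) 1
abbrev Gi : Type := lp (fun _ : ℝ => ℝ) ∞
abbrev P1 : Type := lp (fun _ : ℝ => G1) ∞
abbrev P2 : Type := lp (fun _ : ℝ => Gi) 1
/-- The ambient Banach space. -/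
abbrev Amb : Type := W × P1 × P2

/-- the `n`-th node on the branch of `t` -/
def node (t : ℝ) (n : ℕ) : D := (n, ⌊(2:ℝ) ^ n * t⌋)

/-- the dyadic interval of a node -/
def Pd (d : D) : Set ℝ := {t | node t d.1 = d}

lemma mem_Pd {d : D} {t : ℝ} : t ∈ Pd d ↔ ⌊(2:ℝ) ^ d.1 * t⌋ = d.2 := by
  simp only [Pd, node, mem_ofPred_eq]
  constructor
  · intro h
    exact congrArg Prod.snd h
  · intro h
    rw [h]

lemma measurableSet_Pd (d : D) : MeasurableSet (Pd d) := by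
  have : Pd d = (fun t : ℝ => ⌊(2:ℝ) ^ d.1 * t⌋) ⁻¹' {d.2} := by
    ext t; rw [mem_Pd]; rfl
  rw [this]
  exact (Int.measurable_floor.comp (measurable_const_mul _)) (measurableSet_singleton _)

lemma node_mem (t : ℝ) (n : ℕ) : t ∈ Pd (node t n) := by
  simp [Pd, node]

lemma Pd_eq_Ico (d : D) : Pd d = Ico ((d.2 : ℝ) / 2 ^ d.1) (((d.2 : ℝ) + 1) / 2 ^ d.1) := by
  ext t
  rw [mem_Pd, Int.floor_eq_iff, mem_Ico, div_le_iff₀ (by positivity), lt_div_iff₀ (by positivity),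
    mul_comm]

lemma lam_Pd_le (d : D) : (lam (Pd d)).toReal ≤ (1 / 2) ^ d.1 := by
  have h1 : lam (Pd d) ≤ volume (Pd d) := Measure.restrict_apply_le _ _
  rw [Pd_eq_Ico, Real.volume_Ico] at h1
  rw [Pd_eq_Ico]
  have h2 : ((d.2 : ℝ) + 1) / 2 ^ d.1 - (d.2 : ℝ) / 2 ^ d.1 = (1/2) ^ d.1 := by
    rw [← sub_div]
    simp [one_div]
  rw [h2] at h1
  calc _ ≤ (ENNReal.ofReal ((1/2) ^ d.1)).toReal := ENNReal.toReal_mono ENNReal.ofReal_ne_top h1
    _ = _ := ENNReal.toReal_ofReal (by positivity)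

lemma lam_Pd_zero (d : D) (h : d.2 < 0 ∨ 2 ^ d.1 ≤ d.2) : lam (Pd d) = 0 := by
  rw [lam, Measure.restrict_apply (measurableSet_Pd d)]
  convert measure_empty (μ := (volume : Measure ℝ))
  rw [← subset_empty_iff]
  rintro t ⟨h1, h2⟩
  rw [mem_Pd] at h1
  exfalso
  rcases h with h | h
  · have : (0:ℤ) ≤ ⌊(2:ℝ) ^ d.1 * t⌋ := by
      apply Int.floor_nonneg.2
      have := h2.1
      positivity
    omega
  · have h3 : ⌊(2:ℝ) ^ d.1 * t⌋ < 2 ^ d.1 := by
      rw [Int.floor_lt]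
      push_cast
      have h4 := h2.2
      have : (0:ℝ) < 2 ^ d.1 := by positivity
      nlinarith
    omega

lemma finite_large (ε : ℝ) (hε : 0 < ε) : {d : D | ε < (lam (Pd d)).toReal}.Finite := by
  obtain ⟨N, hN⟩ := exists_pow_lt_of_lt_one hε (show (1/2:ℝ) < 1 by norm_num)
  have hfin : ((Finset.range N ×ˢ Finset.Ico (0:ℤ) (2 ^ N) : Finset D) : Set D).Finite :=
    Finset.finite_toSet _
  refine hfin.subset ?_
  intro d hd
  simp only [mem_ofPred_eq] at hd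
  have h1 : d.1 < N := by
    by_contra hcon
    push Not at hcon
    have h2 := lam_Pd_le d
    have h3 : ((1/2:ℝ)) ^ d.1 ≤ (1/2) ^ N :=
      pow_le_pow_of_le_one (by norm_num) (by norm_num) hcon
    linarith
  have h2 : ¬ (d.2 < 0 ∨ 2 ^ d.1 ≤ d.2) := by
    intro hcon
    rw [lam_Pd_zero d hcon] at hd
    simp at hd
    linarith
  push Not at h2
  simp only [Finset.coe_product, mem_prod, Finset.coe_range, mem_Iio, Finset.coe_Ico, mem_Ico]
  refine ⟨h1, h2.1, ?_⟩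
  have h3 : (2:ℤ) ^ d.1 ≤ 2 ^ N := pow_le_pow_right₀ (by norm_num) h1.le
  omega

lemma node_sep {t t' : ℝ} (h : t ≠ t') : ∃ N : ℕ, ∀ n, N ≤ n → node t n ≠ node t' n := by
  have hpos : 0 < |t - t'| := abs_pos.2 (sub_ne_zero.2 h)
  obtain ⟨N, hN⟩ := exists_pow_lt_of_lt_one hpos (show (1/2:ℝ) < 1 by norm_num)
  refine ⟨N, fun n hn heq => ?_⟩
  have h1 : ⌊(2:ℝ) ^ n * t⌋ = ⌊(2:ℝ) ^ n * t'⌋ := congrArg Prod.snd heq
  have h2 := Int.abs_sub_lt_one_of_floor_eq_floor h1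
  rw [← mul_sub, abs_mul, abs_of_pos (by positivity : (0:ℝ) < 2 ^ n)] at h2
  have h3 : ((1/2:ℝ)) ^ n ≤ (1/2) ^ N := pow_le_pow_of_le_one (by norm_num) (by norm_num) hn
  have h4 : (1/2:ℝ) ^ n * 2 ^ n = 1 := by
    rw [← mul_pow]; norm_num
  have h5 : (0:ℝ) < 2 ^ n := by positivity
  nlinarith

/-- The indicator of the branch of `t`. -/
def hvec (t : ℝ) : W := ⟨fun d => (Pd d).indicator (fun _ => (1:ℝ)) t, by
  apply memℓp_infty
  refine ⟨1, ?_⟩
  rintro _ ⟨d, rfl⟩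
  simp only [indicator]
  split_ifs <;> simp⟩

lemma hvec_apply (t : ℝ) (d : D) : (hvec t : ∀ _, ℝ) d = (Pd d).indicator (fun _ => (1:ℝ)) t := rfl

/-- unit vectors -/
def evec (d : D) : Amb := (lp.single ∞ d (1:ℝ), 0, 0)

open Classical in
def gvec1 (t γ : ℝ) : P1 := lp.single ∞ t (lp.single 1 γ (1:ℝ) : G1)
open Classical in
def gvec2 (t γ : ℝ) : P2 := lp.single 1 t (lp.single ∞ γ (1:ℝ) : Gi)

def gvec (t γ : ℝ) : P1 × P2 := (gvec1 t γ, gvec2 t γ)

def fvec (t γ : ℝ) : Amb := (hvec t, gvec t γ)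

/-- The Banach space of the example. -/
def Xsub : Submodule ℝ Amb :=
  (Submodule.span ℝ (range evec ∪ range (fun p : ℝ × ℝ => fvec p.1 p.2))).topologicalClosure

lemma isClosed_Xsub : IsClosed (Xsub : Set Amb) := Submodule.isClosed_topologicalClosure _

instance : CompleteSpace Xsub := isClosed_Xsub.completeSpace_coe

lemma evec_mem (d : D) : evec d ∈ Xsub :=
  Submodule.le_topologicalClosure _ (Submodule.subset_span (Or.inl ⟨d, rfl⟩))

lemma fvec_mem (t γ : ℝ) : fvec t γ ∈ Xsub :=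
  Submodule.le_topologicalClosure _ (Submodule.subset_span (Or.inr ⟨(t, γ), rfl⟩))

/-- coordinate `d` of the first component -/
def co (d : D) : Amb →L[ℝ] ℝ :=
  (lp.evalCLM ℝ (fun _ : D => ℝ) ∞ d).comp (ContinuousLinearMap.fst ℝ W (P1 × P2))

def p1 (t : ℝ) : Amb →L[ℝ] G1 :=
  (lp.evalCLM ℝ (fun _ : ℝ => G1) ∞ t).comp
    ((ContinuousLinearMap.fst ℝ P1 P2).comp (ContinuousLinearMap.snd ℝ W (P1 × P2)))

def p2 : Amb →L[ℝ] P2 :=
  (ContinuousLinearMap.snd ℝ P1 P2).comp (ContinuousLinearMap.snd ℝ W (P1 × P2))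

lemma co_apply (d : D) (x : Amb) : co d x = (x.1 : ∀ _, ℝ) d := rfl
lemma p1_apply (t : ℝ) (x : Amb) : p1 t x = (x.2.1 : ∀ _, G1) t := rfl
lemma p2_apply (x : Amb) : p2 x = x.2.2 := rfl

lemma norm_Amb_le {x : Amb} {C : ℝ} (hC : 0 ≤ C) (h1 : ∀ d, |co d x| ≤ C)
    (h2 : ∀ t, ‖p1 t x‖ ≤ C) (h3 : ‖p2 x‖ ≤ C) : ‖x‖ ≤ C := by
  rw [Prod.norm_def, Prod.norm_def]
  refine max_le ?_ (max_le ?_ h3)
  · exact lp.norm_le_of_forall_le hC (fun d => h1 d)
  · exact lp.norm_le_of_forall_le hC (fun t => h2 t)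

lemma co_evec (d d' : D) : co d' (evec d) = if d' = d then 1 else 0 := by
  rw [co_apply, evec, lp.single_apply, Pi.single_apply]

lemma p1_evec (d : D) (t : ℝ) : p1 t (evec d) = 0 := rfl
lemma p2_evec (d : D) : p2 (evec d) = 0 := rfl

lemma co_hvec (d : D) (t : ℝ) : co d (hvec t, 0) = (Pd d).indicator (fun _ => (1:ℝ)) t := rfl
lemma p1_hvec (s t : ℝ) : p1 s (hvec t, 0) = 0 := rfl
lemma p2_hvec (t : ℝ) : p2 (hvec t, 0) = 0 := rfl

lemma co_gvec (d : D) (t γ : ℝ) : co d (0, gvec t γ) = 0 := rfl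
lemma p1_gvec (s t γ : ℝ) : p1 s (0, gvec t γ) = gvec1 t γ s := rfl
lemma p2_gvec (t γ : ℝ) : p2 (0, gvec t γ) = gvec2 t γ := rfl

lemma norm_sum_evec (s : Finset D) (c : D → ℝ) (hc : ∀ d, |c d| ≤ 1) :
    ‖∑ d ∈ s, c d • evec d‖ ≤ 1 := by
  refine norm_Amb_le zero_le_one ?_ ?_ ?_
  · intro d'
    rw [map_sum]
    simp only [map_smul, co_evec, smul_eq_mul, mul_ite, mul_one, mul_zero, Finset.sum_ite_eq]
    split_ifs
    · exact hc d'
    · simp
  · intro t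
    rw [map_sum]
    simp [p1_evec]
  · rw [map_sum]
    simp [p2_evec]

lemma sign_mul (x : ℝ) : Real.sign x * x = |x| := by
  rcases lt_trichotomy x 0 with h | h | h
  · rw [Real.sign_of_neg h, abs_of_neg h]; ring
  · simp [h]
  · rw [Real.sign_of_pos h, abs_of_pos h]; ring

lemma abs_sign_le (x : ℝ) : |Real.sign x| ≤ 1 := by
  rcases Real.sign_apply_eq x with h | h | h <;> simp [h]

lemma summable_coeff (Φ : Amb →L[ℝ] ℝ) : Summable (fun d => |Φ (evec d)|) := by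
  refine summable_of_sum_le (c := ‖Φ‖) (fun d => abs_nonneg _) ?_
  intro s
  have h1 := norm_sum_evec s (fun d => Real.sign (Φ (evec d))) (fun d => abs_sign_le _)
  have h2 := Φ.le_opNorm (∑ d ∈ s, Real.sign (Φ (evec d)) • evec d)
  rw [map_sum] at h2
  simp only [map_smul, smul_eq_mul, sign_mul] at h2
  have h3 : ∑ d ∈ s, |Φ (evec d)| ≤ ‖Φ‖ * ‖∑ d ∈ s, Real.sign (Φ (evec d)) • evec d‖ :=
    (le_abs_self _).trans h2
  calc _ ≤ _ := h3
    _ ≤ ‖Φ‖ * 1 := by gcongr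
    _ = _ := mul_one _

lemma indicator_le_one (d : D) (t : ℝ) : |(Pd d).indicator (fun _ => (1:ℝ)) t| ≤ 1 := by
  simp only [indicator]
  split_ifs <;> simp

/-- the Borel function associated with a functional -/
def gfun (Φ : Amb →L[ℝ] ℝ) (t : ℝ) : ℝ :=
  ∑' d, Φ (evec d) * (Pd d).indicator (fun _ => (1:ℝ)) t

lemma summable_gfun (Φ : Amb →L[ℝ] ℝ) (t : ℝ) :
    Summable (fun d => Φ (evec d) * (Pd d).indicator (fun _ => (1:ℝ)) t) := by
  refine Summable.of_norm_bounded (summable_coeff Φ) ?_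
  intro d
  rw [Real.norm_eq_abs, abs_mul]
  exact mul_le_of_le_one_right (abs_nonneg _) (indicator_le_one d t)

lemma norm_comb (T : Finset ℝ) (ε : ℝ → ℝ) (hε : ∀ t, |ε t| ≤ 1) (F : Finset D)
    (hF : ∀ d, d ∉ F → ∀ t ∈ T, ∀ t' ∈ T, t ∈ Pd d → t' ∈ Pd d → t = t') :
    ‖∑ t ∈ T, ε t • (((hvec t, 0) : Amb) -
      ∑ d ∈ F, (Pd d).indicator (fun _ => (1:ℝ)) t • evec d)‖ ≤ 1 := by
  refine norm_Amb_le zero_le_one ?_ ?_ ?_
  · intro d'
    rw [map_sum]
    simp only [map_smul, map_sub, map_sum, co_evec, co_hvec, smul_eq_mul, mul_ite, mul_one,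
      mul_zero, Finset.sum_ite_eq]
    by_cases hd : d' ∈ F
    · simp [hd]
    · simp only [hd, if_false, sub_zero]
      by_cases hex : ∃ t0 ∈ T, t0 ∈ Pd d'
      · obtain ⟨t0, ht0, hP⟩ := hex
        rw [Finset.sum_eq_single_of_mem t0 ht0]
        · rw [abs_mul]
          exact mul_le_one₀ (hε t0) (abs_nonneg _) (indicator_le_one _ _)
        · intro t ht hne
          have : t ∉ Pd d' := fun h => hne (hF d' hd t ht t0 ht0 h hP)
          simp [this]
      · push Not at hex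
        rw [Finset.sum_eq_zero]
        · simp
        · intro t ht
          simp [hex t ht]
  · intro t
    rw [map_sum]
    simp [p1_evec, p1_hvec, map_sum]
  · rw [map_sum]
    simp [p2_evec, p2_hvec, map_sum]

lemma eventually_good (T : Finset ℝ) : ∀ᶠ F : Finset D in atTop,
    ∀ d, d ∉ F → ∀ t ∈ T, ∀ t' ∈ T, t ∈ Pd d → t' ∈ Pd d → t = t' := by
  have h1 : ∀ t t' : ℝ, ∃ N : ℕ, t ≠ t' → ∀ n, N ≤ n → node t n ≠ node t' n := by
    intro t t'
    by_cases h : t = t'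
    · exact ⟨0, fun h' => absurd h h'⟩
    · obtain ⟨N, hN⟩ := node_sep h
      exact ⟨N, fun _ => hN⟩
  choose N hN using h1
  let M : ℕ := ∑ t ∈ T, ∑ t' ∈ T, N t t'
  have hM : ∀ t ∈ T, ∀ t' ∈ T, N t t' ≤ M := by
    intro t ht t' ht'
    calc N t t' ≤ ∑ t' ∈ T, N t t' := Finset.single_le_sum (fun _ _ => Nat.zero_le _) ht'
      _ ≤ M := Finset.single_le_sum (f := fun t => ∑ t' ∈ T, N t t') (fun _ _ => Nat.zero_le _) ht
  classical
  let F0 : Finset D := (T ×ˢ Finset.range M).image (fun p => node p.1 p.2)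
  filter_upwards [eventually_ge_atTop F0] with F hF d hd t ht t' ht' hP hP'
  by_contra hne
  apply hd
  apply hF
  have e1 : node t d.1 = d := hP
  have e2 : node t' d.1 = d := hP'
  have hlt : d.1 < M := by
    by_contra hcon
    push Not at hcon
    exact hN t t' hne d.1 ((hM t ht t' ht').trans hcon) (e1.trans e2.symm)
  refine Finset.mem_image.2 ⟨(t, d.1), ?_, e1⟩
  simp [ht, hlt]

lemma countable_bad_h (Φ : Amb →L[ℝ] ℝ) : {t : ℝ | Φ (hvec t, 0) ≠ gfun Φ t}.Countable := by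
  have key : ∀ T : Finset ℝ, ∑ t ∈ T, |Φ (hvec t, 0) - gfun Φ t| ≤ ‖Φ‖ := by
    intro T
    let ε : ℝ → ℝ := fun t => Real.sign (Φ (hvec t, 0) - gfun Φ t)
    have hlim : Tendsto (fun F : Finset D => ∑ t ∈ T, ε t * (Φ (hvec t, 0) -
        ∑ d ∈ F, Φ (evec d) * (Pd d).indicator (fun _ => (1:ℝ)) t)) atTop
        (𝓝 (∑ t ∈ T, ε t * (Φ (hvec t, 0) - gfun Φ t))) := by
      refine tendsto_finset_sum _ fun t _ => ?_
      refine Tendsto.const_mul _ (Tendsto.const_sub _ ?_)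
      exact (summable_gfun Φ t).hasSum
    have hval : ∑ t ∈ T, ε t * (Φ (hvec t, 0) - gfun Φ t) = ∑ t ∈ T, |Φ (hvec t, 0) - gfun Φ t| :=
      Finset.sum_congr rfl fun t _ => sign_mul _
    rw [← hval]
    refine le_of_tendsto hlim ?_
    filter_upwards [eventually_good T] with F hF
    have h1 := norm_comb T ε (fun t => abs_sign_le _) F hF
    have h2 := Φ.le_opNorm (∑ t ∈ T, ε t • (((hvec t, 0) : Amb) -
      ∑ d ∈ F, (Pd d).indicator (fun _ => (1:ℝ)) t • evec d))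
    have h3 : Φ (∑ t ∈ T, ε t • (((hvec t, 0) : Amb) -
      ∑ d ∈ F, (Pd d).indicator (fun _ => (1:ℝ)) t • evec d)) = ∑ t ∈ T, ε t * (Φ (hvec t, 0) -
        ∑ d ∈ F, Φ (evec d) * (Pd d).indicator (fun _ => (1:ℝ)) t) := by
      simp only [map_sum, map_smul, map_sub, smul_eq_mul]
      refine Finset.sum_congr rfl fun t _ => ?_
      congr 2
      exact Finset.sum_congr rfl fun d _ => mul_comm _ _
    rw [h3] at h2
    calc _ ≤ _ := le_abs_self _
      _ ≤ _ := h2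
      _ ≤ ‖Φ‖ * 1 := by gcongr
      _ = _ := mul_one _
  have hs : Summable (fun t => |Φ (hvec t, 0) - gfun Φ t|) :=
    summable_of_sum_le (fun t => abs_nonneg _) key
  refine hs.countable_support.mono ?_
  intro t ht
  simp only [mem_ofPred_eq] at ht
  simp only [Function.mem_support, ne_eq, abs_eq_zero]
  exact fun h => ht (sub_eq_zero.1 h)

lemma gvec1_self (t γ : ℝ) : (gvec1 t γ : ∀ _, G1) t = lp.single 1 γ (1:ℝ) := by
  simp [gvec1]

lemma norm_comb_g (T : Finset ℝ) (G : ℝ → Finset ℝ) (K : ℕ) (hT : T.card = K)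
    (hG : ∀ t, (G t).card ≤ K) (ε : ℝ → ℝ → ℝ) (hε : ∀ t γ, |ε t γ| ≤ 1) :
    ‖∑ t ∈ T, ∑ γ ∈ G t, ε t γ • ((0, gvec t γ) : Amb)‖ ≤ K := by
  classical
  refine norm_Amb_le (Nat.cast_nonneg K) ?_ ?_ ?_
  · intro d
    simp only [map_sum, map_smul, co_gvec, smul_zero, Finset.sum_const_zero, abs_zero]
    positivity
  · intro s
    simp only [map_sum, map_smul, p1_gvec]
    have h1 : ∀ t ∈ T, t ≠ s → ∑ γ ∈ G t, ε t γ • (gvec1 t γ : ∀ _, G1) s = 0 := by
      intro t _ hne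
      refine Finset.sum_eq_zero fun γ _ => ?_
      have : (gvec1 t γ : ∀ _, G1) s = 0 := by
        rw [gvec1, lp.single_apply, Pi.single_eq_of_ne (Ne.symm hne)]
      rw [this, smul_zero]
    by_cases hs : s ∈ T
    · rw [Finset.sum_eq_single_of_mem s hs h1]
      calc ‖∑ γ ∈ G s, ε s γ • (gvec1 s γ : ∀ _, G1) s‖
          ≤ ∑ γ ∈ G s, ‖ε s γ • (gvec1 s γ : ∀ _, G1) s‖ := norm_sum_le _ _
        _ ≤ ∑ γ ∈ G s, 1 := by
            refine Finset.sum_le_sum fun γ _ => ?_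
            rw [norm_smul, gvec1, lp.single_apply, Pi.single_eq_same,
              lp.norm_single (by norm_num), norm_one, mul_one]
            exact hε s γ
        _ ≤ K := by
            rw [Finset.sum_const, nsmul_eq_mul, mul_one]
            exact_mod_cast hG s
    · rw [Finset.sum_eq_zero fun t ht => h1 t ht (fun h => hs (h ▸ ht))]
      simp
  · simp only [map_sum, map_smul, p2_gvec]
    calc ‖∑ t ∈ T, ∑ γ ∈ G t, ε t γ • gvec2 t γ‖
        ≤ ∑ t ∈ T, ‖∑ γ ∈ G t, ε t γ • gvec2 t γ‖ := norm_sum_le _ _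
      _ ≤ ∑ t ∈ T, 1 := by
          refine Finset.sum_le_sum fun t _ => ?_
          have h1 : ∑ γ ∈ G t, ε t γ • gvec2 t γ =
              lp.singleContinuousLinearMap ℝ (fun _ : ℝ => Gi) 1 t
                (∑ γ ∈ G t, ε t γ • (lp.single ∞ γ (1:ℝ) : Gi)) := by
            rw [map_sum]
            refine Finset.sum_congr rfl fun γ _ => ?_
            rw [map_smul, lp.singleContinuousLinearMap_apply]
            rfl
          rw [h1, lp.singleContinuousLinearMap_apply, lp.norm_single (by norm_num)]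
          refine lp.norm_le_of_forall_le zero_le_one fun γ' => ?_
          have h2 : ((∑ γ ∈ G t, ε t γ • (lp.single ∞ γ (1:ℝ) : Gi) : Gi) : ∀ _, ℝ) γ' =
              ∑ γ ∈ G t, ε t γ * (if γ' = γ then 1 else 0) := by
            rw [lp.coeFn_sum, Finset.sum_apply]
            refine Finset.sum_congr rfl fun γ _ => ?_
            rw [lp.coeFn_smul, Pi.smul_apply, lp.single_apply, Pi.single_apply, smul_eq_mul]
          rw [h2]
          simp only [mul_ite, mul_one, mul_zero, Finset.sum_ite_eq]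
          split_ifs
          · exact hε t γ'
          · simp
      _ = K := by simp [hT]

lemma countable_bad_g (Φ : Amb →L[ℝ] ℝ) :
    {t : ℝ | ¬ {γ : ℝ | Φ (0, gvec t γ) ≠ 0}.Countable}.Countable := by
  have h1 : ∀ m : ℕ, {t : ℝ | {γ : ℝ | 1 / ((m:ℝ) + 1) < |Φ (0, gvec t γ)|}.Infinite}.Finite := by
    intro m
    by_contra hinf
    have hinf' : {t : ℝ | {γ : ℝ | 1 / ((m:ℝ) + 1) < |Φ (0, gvec t γ)|}.Infinite}.Infinite := hinf
    obtain ⟨K, hK⟩ := exists_nat_gt (‖Φ‖ * ((m:ℝ) + 1))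
    obtain ⟨T, hTsub, hTcard⟩ := hinf'.exists_subset_card_eq K
    have h2 : ∀ t : ℝ, ∃ G : Finset ℝ, (t ∈ T → ((G : Set ℝ) ⊆ {γ : ℝ | 1 / ((m:ℝ) + 1) < |Φ (0, gvec t γ)|} ∧
        G.card = K)) ∧ G.card ≤ K := by
      intro t
      by_cases ht : t ∈ T
      · have h3 : {γ : ℝ | 1 / ((m:ℝ) + 1) < |Φ (0, gvec t γ)|}.Infinite := hTsub ht
        obtain ⟨G, hG1, hG2⟩ := h3.exists_subset_card_eq K
        exact ⟨G, fun _ => ⟨hG1, hG2⟩, hG2.le⟩
      · exact ⟨∅, fun h => absurd h ht, by simp⟩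
    choose G hG hGK using h2
    have h4 := norm_comb_g T G K hTcard hGK (fun t γ => Real.sign (Φ (0, gvec t γ)))
      (fun t γ => abs_sign_le _)
    have h5 := Φ.le_opNorm (∑ t ∈ T, ∑ γ ∈ G t, Real.sign (Φ (0, gvec t γ)) • ((0, gvec t γ) : Amb))
    simp only [map_sum, map_smul, smul_eq_mul, sign_mul] at h5
    have h6 : (K:ℝ) * (K * (1 / ((m:ℝ) + 1))) ≤ ∑ t ∈ T, ∑ γ ∈ G t, |Φ (0, gvec t γ)| := by
      calc (K:ℝ) * (K * (1 / ((m:ℝ) + 1))) = ∑ t ∈ T, (K * (1 / ((m:ℝ) + 1))) := by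
            rw [Finset.sum_const, hTcard, nsmul_eq_mul]
        _ ≤ _ := by
            refine Finset.sum_le_sum fun t ht => ?_
            calc (K:ℝ) * (1 / ((m:ℝ) + 1)) = ∑ γ ∈ G t, (1 / ((m:ℝ) + 1)) := by
                  rw [Finset.sum_const, (hG t ht).2, nsmul_eq_mul]
              _ ≤ _ := Finset.sum_le_sum fun γ hγ => ((hG t ht).1 hγ).le
    have h7 : ∑ t ∈ T, ∑ γ ∈ G t, |Φ (0, gvec t γ)| ≤ ‖Φ‖ * K := by
      calc _ ≤ _ := le_abs_self _
        _ ≤ _ := h5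
        _ ≤ _ := by gcongr
    have h8 : (0:ℝ) < (m:ℝ) + 1 := by positivity
    have hKpos : (0:ℝ) < K := lt_of_le_of_lt (by positivity) hK
    have h9 : (K:ℝ) * (K * (1 / ((m:ℝ) + 1))) ≤ ‖Φ‖ * K := h6.trans h7
    have h10 : (K:ℝ) * (1 / ((m:ℝ) + 1)) ≤ ‖Φ‖ := by
      have : (K:ℝ) * (K * (1 / ((m:ℝ) + 1))) ≤ K * ‖Φ‖ := by linarith [mul_comm ‖Φ‖ (K:ℝ)]
      exact le_of_mul_le_mul_left this hKpos
    rw [mul_one_div, div_le_iff₀ h8] at h10
    linarith
  refine (countable_iUnion fun m => (h1 m).countable).mono ?_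
  intro t ht
  by_contra hcon
  simp only [mem_iUnion, mem_ofPred_eq, not_exists, not_infinite] at hcon
  apply ht
  have h2 : {γ : ℝ | Φ (0, gvec t γ) ≠ 0} ⊆ ⋃ m : ℕ, {γ : ℝ | 1 / ((m:ℝ) + 1) < |Φ (0, gvec t γ)|} := by
    intro γ hγ
    simp only [mem_ofPred_eq] at hγ
    obtain ⟨m, hm⟩ := exists_nat_one_div_lt (abs_pos.2 hγ)
    exact mem_iUnion.2 ⟨m, hm⟩
  exact (countable_iUnion fun m => (hcon m).countable).mono h2

instance : NullSingletonClass lam := by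
  unfold lam; infer_instance

/-- every functional of `fvec` is, off a negligible set, a Borel function of the first
coordinate -/
lemma nul_bad (Φ : Amb →L[ℝ] ℝ) :
    Nul {ω : Om | Φ (fvec ω.fst ω.snd) ≠ gfun Φ ω.fst} := by
  unfold Nul
  refine measure_mono_null ?_ (((countable_bad_h Φ).union (countable_bad_g Φ)).measure_zero lam)
  intro t ht
  by_contra hcon
  simp only [mem_union, mem_ofPred_eq, not_or, not_not] at hcon
  apply ht
  refine hcon.2.mono ?_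
  intro γ hγ
  simp only [mem_ofPred_eq] at hγ ⊢
  intro h0
  apply hγ
  have : fvec t γ = (hvec t, 0) + (0, gvec t γ) := by simp [fvec]
  rw [this, map_add, h0, add_zero, hcon.1]

end

end Pool.Agent.Helper519.Pettis
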