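import Pool.Agent.Helper519.PSpace

set_option autoImplicit false
open MeasureTheory Set Filter Topology
open scoped ENNReal

namespace Pool.Agent.Helper519.Pettis

noncomputable section

section generic

variable {Ω : Type} [MeasurableSpace Ω] (μ : Measure Ω) [IsFiniteMeasure μ] (π : Ω → ℝ)

lemma toReal_le_univ (E : Set Ω) : (μ E).toReal ≤ (μ univ).toReal :=
  ENNReal.toReal_mono (measure_ne_top _ _) (measure_mono (subset_univ _))

/-- The value of the vector measure. -/
def wval (E : Set Ω) : W := ⟨fun d => (μ (E ∩ π ⁻¹' Pd d)).toReal, by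
  apply memℓp_infty
  refine ⟨(μ univ).toReal, ?_⟩
  rintro _ ⟨d, rfl⟩
  show ‖(μ (E ∩ π ⁻¹' Pd d)).toReal‖ ≤ _
  rw [Real.norm_eq_abs, abs_of_nonneg ENNReal.toReal_nonneg]
  exact toReal_le_univ μ _⟩

def val (E : Set Ω) : Amb := (wval μ π E, 0)

lemma co_val (E : Set Ω) (d : D) : co d (val μ π E) = (μ (E ∩ π ⁻¹' Pd d)).toReal := rfl
lemma p1_val (E : Set Ω) (t : ℝ) : p1 t (val μ π E) = 0 := rfl
lemma p2_val (E : Set Ω) : p2 (val μ π E) = 0 := rfl

lemma Amb_ext {x y : Amb} (h1 : ∀ d, co d x = co d y) (h2 : ∀ t, p1 t x = p1 t y)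
    (h3 : p2 x = p2 y) : x = y := by
  refine Prod.ext ?_ (Prod.ext ?_ h3)
  · exact lp.ext (funext h1)
  · exact lp.ext (funext h2)

variable {π} (hπ : Measurable π) (hμ : μ.map π = lam)

include hπ hμ in
lemma mu_pre (B : Set ℝ) (hB : MeasurableSet B) : μ (π ⁻¹' B) = lam B := by
  rw [← hμ, Measure.map_apply hπ hB]

include hπ hμ in
lemma hasSum_val (E : Set Ω) :
    HasSum (fun d => (μ (E ∩ π ⁻¹' Pd d)).toReal • evec d) (val μ π E) := by
  rw [HasSum, Metric.tendsto_nhds]
  intro ε hε
  filter_upwards [eventually_ge_atTop (finite_large (ε / 2) (by positivity)).toFinset] with F hF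
  rw [dist_eq_norm]
  refine lt_of_le_of_lt ?_ (half_lt_self hε)
  refine norm_Amb_le (by positivity) ?_ ?_ ?_
  · intro d'
    simp only [map_sub, map_sum, map_smul, co_evec, co_val, smul_eq_mul, mul_ite, mul_one,
      mul_zero, Finset.sum_ite_eq]
    by_cases hd : d' ∈ F
    · simp only [hd, if_true, sub_self, abs_zero]; positivity
    · simp only [hd, if_false, zero_sub, abs_neg]
      rw [abs_of_nonneg ENNReal.toReal_nonneg]
      have h1 : d' ∉ (finite_large (ε / 2) (by positivity)).toFinset := fun h => hd (hF h)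
      simp only [Finite.mem_toFinset, mem_ofPred_eq, not_lt] at h1
      refine le_trans ?_ h1
      rw [← mu_pre μ hπ hμ _ (measurableSet_Pd d')]
      exact ENNReal.toReal_mono (measure_ne_top _ _) (measure_mono inter_subset_right)
  · intro t
    simp only [map_sub, map_sum, map_smul, p1_evec, p1_val, smul_zero, Finset.sum_const_zero,
      sub_zero, norm_zero]
    positivity
  · simp only [map_sub, map_sum, map_smul, p2_evec, p2_val, smul_zero, Finset.sum_const_zero,
      sub_zero, norm_zero]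
    positivity

include hπ hμ in
lemma val_mem (E : Set Ω) : val μ π E ∈ Xsub := by
  refine isClosed_Xsub.mem_of_tendsto (hasSum_val μ hπ hμ E) (Eventually.of_forall fun F => ?_)
  exact Submodule.sum_mem _ fun d _ => Submodule.smul_mem _ _ (evec_mem d)

include hπ hμ in
lemma norm_val (E : Set Ω) : ‖val μ π E‖ = (μ E).toReal := by
  apply le_antisymm
  · refine norm_Amb_le ENNReal.toReal_nonneg ?_ ?_ ?_
    · intro d
      rw [co_val, abs_of_nonneg ENNReal.toReal_nonneg]
      exact ENNReal.toReal_mono (measure_ne_top _ _) (measure_mono inter_subset_left)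
    · intro t; rw [p1_val, norm_zero]; exact ENNReal.toReal_nonneg
    · rw [p2_val, norm_zero]; exact ENNReal.toReal_nonneg
  · have h0 : Ico (0:ℝ) 1 ⊆ Pd (0, 0) := by
      intro t ht
      rw [Pd_eq_Ico]
      simpa using ht
    have h1 : lam (Pd (0,0))ᶜ = 0 := by
      rw [lam, Measure.restrict_apply (measurableSet_Pd _).compl]
      convert measure_empty (μ := (volume : Measure ℝ))
      rw [← subset_empty_iff]
      rintro t ⟨ht1, ht2⟩
      exact ht1 (h0 ht2)
    have h2 : μ (π ⁻¹' (Pd (0,0))ᶜ) = 0 := by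
      rw [mu_pre μ hπ hμ _ (measurableSet_Pd _).compl, h1]
    have h3 : μ E ≤ μ (E ∩ π ⁻¹' Pd (0,0)) := by
      calc μ E ≤ μ ((E ∩ π ⁻¹' Pd (0,0)) ∪ π ⁻¹' (Pd (0,0))ᶜ) := by
            refine measure_mono ?_
            intro ω hω
            by_cases h : π ω ∈ Pd (0,0)
            · exact Or.inl ⟨hω, h⟩
            · exact Or.inr h
        _ ≤ μ (E ∩ π ⁻¹' Pd (0,0)) + μ (π ⁻¹' (Pd (0,0))ᶜ) := measure_union_le _ _
        _ = _ := by rw [h2, add_zero]
    have h4 : (μ E).toReal ≤ co (0,0) (val μ π E) := by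
      rw [co_val]
      exact ENNReal.toReal_mono (measure_ne_top _ _) h3
    refine h4.trans ?_
    have h5 : ‖(wval μ π E : ∀ _, ℝ) (0,0)‖ ≤ ‖wval μ π E‖ :=
      lp.norm_apply_le_norm (by simp) (wval μ π E) (0,0)
    have h6 : ‖wval μ π E‖ ≤ ‖val μ π E‖ := norm_fst_le (val μ π E)
    exact (le_abs_self _).trans (h5.trans h6)

include hπ hμ in
lemma hasSum_iUnion (f : ℕ → Set Ω) (hf : ∀ i, MeasurableSet (f i))
    (hd : Pairwise (Function.onFun Disjoint f)) :
    HasSum (fun i => val μ π (f i)) (val μ π (⋃ i, f i)) := by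
  have hsum0 : Summable (fun i => (μ (f i)).toReal) := by
    refine ENNReal.summable_toReal ?_
    rw [← measure_iUnion hd hf]
    exact measure_ne_top _ _
  have hsum : Summable (fun i => val μ π (f i)) := by
    refine Summable.of_norm ?_
    simp only [norm_val μ hπ hμ]
    exact hsum0
  have hS := hsum.hasSum
  have heq : ∑' i, val μ π (f i) = val μ π (⋃ i, f i) := by
    refine Amb_ext ?_ ?_ ?_
    · intro d
      rw [(co d).map_tsum hsum]
      simp only [co_val]
      rw [iUnion_inter, measure_iUnion]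
      · rw [ENNReal.tsum_toReal_eq]
        intro i; exact measure_ne_top _ _
      · intro i j hij
        exact (hd hij).mono inter_subset_left inter_subset_left
      · intro i
        exact (hf i).inter (hπ (measurableSet_Pd d))
    · intro t
      rw [(p1 t).map_tsum hsum]
      simp only [p1_val, tsum_zero]
    · rw [p2.map_tsum hsum]
      simp only [p2_val, tsum_zero]
  rw [heq] at hS
  exact hS

open Classical in
/-- The vector measure `E ↦ (μ(E ∩ π⁻¹ P_d))_d`, with values in the space `Xsub`. -/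
def vm : VectorMeasure Ω Xsub where
  measureOf' E := if MeasurableSet E then ⟨val μ π E, val_mem μ hπ hμ E⟩ else 0
  empty' := by
    simp only [MeasurableSet.empty, if_true]
    apply Subtype.ext
    refine Amb_ext ?_ ?_ ?_
    · intro d
      show co d (val μ π ∅) = co d 0
      rw [co_val, map_zero]; simp
    · intro t; rfl
    · rfl
  not_measurable' E hE := by simp [hE]
  m_iUnion' f hf hd := by
    simp only [hf, MeasurableSet.iUnion hf, if_true]
    have h1 : Tendsto (fun F : Finset ℕ => ∑ i ∈ F, val μ π (f i)) atTop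
      (𝓝 (val μ π (⋃ i, f i))) := hasSum_iUnion μ hπ hμ f hf hd
    rw [HasSum, tendsto_subtype_rng]
    refine Tendsto.congr (fun F => ?_) h1
    rw [AddSubmonoidClass.coe_finset_sum]

lemma vm_apply (E : Set Ω) (hE : MeasurableSet E) :
    ((vm μ hπ hμ E : Xsub) : Amb) = val μ π E := by
  simp [vm, hE]

lemma vm_nnnorm (E : Set Ω) (hE : MeasurableSet E) :
    ((‖vm μ hπ hμ E‖₊ : NNReal) : ENNReal) = μ E := by
  have h1 : ‖vm μ hπ hμ E‖ = (μ E).toReal := by
    have : ‖vm μ hπ hμ E‖ = ‖((vm μ hπ hμ E : Xsub) : Amb)‖ := rfl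
    rw [this, vm_apply μ hπ hμ E hE, norm_val μ hπ hμ]
  rw [← ENNReal.toReal_eq_toReal_iff' (by simp) (measure_ne_top _ _)]
  simpa using h1

lemma vm_variation (A : Set Ω) (hA : MeasurableSet A) :
    μ A = ⨆ (s : Finset (Set Ω))
          (_ : (∀ B ∈ s, MeasurableSet B ∧ B ⊆ A) ∧ (s : Set (Set Ω)).PairwiseDisjoint id),
          ∑ B ∈ s, ((‖vm μ hπ hμ B‖₊ : NNReal) : ENNReal) := by
  apply le_antisymm
  · refine le_iSup_of_le {A} (le_iSup_of_le ⟨?_, ?_⟩ ?_)
    · intro B hB
      rw [Finset.mem_singleton] at hB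
      subst hB
      exact ⟨hA, subset_rfl⟩
    · simp
    · rw [Finset.sum_singleton, vm_nnnorm μ hπ hμ A hA]
  · refine iSup_le fun s => iSup_le fun hs => ?_
    calc ∑ B ∈ s, ((‖vm μ hπ hμ B‖₊ : NNReal) : ENNReal) = ∑ B ∈ s, μ B :=
          Finset.sum_congr rfl fun B hB => vm_nnnorm μ hπ hμ B (hs.1 B hB).1
      _ = μ (⋃ B ∈ s, id B) := (measure_biUnion_finset hs.2 fun B hB => (hs.1 B hB).1).symm
      _ ≤ μ A := by
          refine measure_mono (iUnion₂_subset fun B hB => (hs.1 B hB).2)

end generic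

end

end Pool.Agent.Helper519.Pettis
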