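import Mathlib
import Pool.Agent.Helper519.MapEll

set_option autoImplicit false

namespace Pool.Agent.Helper519.Renorm

open scoped Topology NNReal ENNReal
open Filter WithLp

noncomputable section

universe u

variable {𝕜 : Type*} [RCLike 𝕜] {X : Type*} [NormedAddCommGroup X] [NormedSpace 𝕜 X]

lemma modulus (q : ℝ) (hq : 1 ≤ q) (ε : ℝ) (hε : 0 < ε) : ∃ γ : ℝ, 0 < γ ∧ ∀ a b : ℝ, 0 ≤ a →
    0 ≤ b → (a ^ q + b ^ q) ^ (1 / q) ≤ 1 + γ → 1 - γ ≤ a → b ≤ ε := by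
  have hq0 : 0 < q := by linarith
  have hc : ContinuousAt (fun t : ℝ => (1 + t) ^ q - (1 - t) ^ q) 0 := by
    have h1 : ContinuousAt (fun t : ℝ => (1 + t) ^ q) 0 := by
      apply ContinuousAt.rpow_const (by fun_prop)
      left; norm_num
    have h2 : ContinuousAt (fun t : ℝ => (1 - t) ^ q) 0 := by
      apply ContinuousAt.rpow_const (by fun_prop)
      left; norm_num
    exact h1.sub h2
  have h0 : ((1 : ℝ) + 0) ^ q - (1 - 0) ^ q = 0 := by simp
  have h1 : ∀ᶠ t in 𝓝 (0 : ℝ), (1 + t) ^ q - (1 - t) ^ q < ε ^ q := by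
    have := hc.tendsto
    rw [h0] at this
    exact this.eventually (gt_mem_nhds (Real.rpow_pos_of_pos hε q))
  obtain ⟨δ, hδ, hδ'⟩ := Metric.eventually_nhds_iff.mp h1
  refine ⟨min (δ / 2) (1 / 2), by positivity, fun a b ha hb hab ha1 => ?_⟩
  set γ := min (δ / 2) (1 / 2) with hγ
  have hγ0 : 0 < γ := by positivity
  have hγ1 : γ ≤ 1 / 2 := min_le_right _ _
  have hγ2 : γ ≤ δ / 2 := min_le_left _ _
  have h2 := hδ' (y := γ) (by
    rw [Real.dist_eq, sub_zero, abs_of_pos hγ0]; linarith)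
  have h3 : a ^ q + b ^ q ≤ (1 + γ) ^ q := by
    have h4 : 0 ≤ a ^ q + b ^ q := by positivity
    have h5 := Real.rpow_le_rpow (by positivity) hab hq0.le
    rwa [← Real.rpow_mul h4, one_div, inv_mul_cancel₀ hq0.ne', Real.rpow_one] at h5
  have h4 : (1 - γ) ^ q ≤ a ^ q := Real.rpow_le_rpow (by linarith) ha1 hq0.le
  have h5 : b ^ q < ε ^ q := by linarith
  exact ((Real.rpow_lt_rpow_iff hb hε.le hq0).mp h5).le

section blocks

variable {B : BSys 𝕜 X} {p : ℝ≥0∞} [Fact (1 ≤ p)] {Y : Type*} [NormedAddCommGroup Y]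
  [NormedSpace 𝕜 Y]

/-- inclusion of the first summand -/
def inl (B : BSys 𝕜 X) (p : ℝ≥0∞) (Y : Type*) [NormedAddCommGroup Y]
    [NormedSpace 𝕜 Y] : X →ₗ[𝕜] WithLp p (NSp B × Y) where
  toFun x := toLp p (ψ B x, (0 : Y))
  map_add' x y := by
    rw [← toLp_add, Prod.mk_add_mk, map_add, add_zero]
  map_smul' a x := by
    rw [RingHom.id_apply, ← toLp_smul, Prod.smul_mk, map_smul, smul_zero]

/-- inclusion of the second summand -/
def inr (B : BSys 𝕜 X) (p : ℝ≥0∞) (Y : Type*) [NormedAddCommGroup Y]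
    [NormedSpace 𝕜 Y] : Y →ₗ[𝕜] WithLp p (NSp B × Y) where
  toFun y := toLp p ((0 : NSp B), y)
  map_add' x y := by
    rw [← toLp_add, Prod.mk_add_mk, add_zero]
  map_smul' a x := by
    rw [RingHom.id_apply, ← toLp_smul, Prod.smul_mk, smul_zero]

lemma norm_inl (x : X) : ‖inl B p Y x‖ = B.N x := norm_toLp_fst p _ _ _

lemma norm_inr (y : Y) : ‖inr B p Y y‖ = ‖y‖ := norm_toLp_snd p _ _ _

variable (P : WithLp p (NSp B × Y) →L[𝕜] WithLp p (NSp B × Y))

/-- first block -/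
def PA : X →ₗ[𝕜] X :=
  (ψ B).symm.toLinearMap ∘ₗ (fstₗ p 𝕜 (NSp B) Y) ∘ₗ (P : _ →ₗ[𝕜] _) ∘ₗ inl B p Y

/-- block from the first to the second summand -/
def PC : X →ₗ[𝕜] Y := (sndₗ p 𝕜 (NSp B) Y) ∘ₗ (P : _ →ₗ[𝕜] _) ∘ₗ inl B p Y

/-- block from the second to the first summand -/
def PD : Y →ₗ[𝕜] X :=
  (ψ B).symm.toLinearMap ∘ₗ (fstₗ p 𝕜 (NSp B) Y) ∘ₗ (P : _ →ₗ[𝕜] _) ∘ₗ inr B p Y

lemma ψ_PA (x : X) : ψ B (PA P x) = (P (inl B p Y x)).fst := rfl

lemma PC_apply (x : X) : PC P x = (P (inl B p Y x)).snd := rfl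

lemma ψ_PD (y : Y) : ψ B (PD P y) = (P (inr B p Y y)).fst := rfl

lemma P_inl (x : X) : P (inl B p Y x) = inl B p Y (PA P x) + inr B p Y (PC P x) := by
  apply WithLp.ofLp_injective
  apply Prod.ext
  · show (P (inl B p Y x)).fst = ψ B (PA P x) + 0
    rw [ψ_PA, add_zero]
  · show (P (inl B p Y x)).snd = 0 + PC P x
    rw [PC_apply, zero_add]

lemma PA_PA (hPP : ∀ w, P (P w) = P w) (x : X) :
    PA P (PA P x) + PD P (PC P x) = PA P x := by
  apply (ψ B).injective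
  rw [map_add, ψ_PA, ψ_PD, ← add_fst, ← map_add, ← P_inl, hPP, ψ_PA]

variable {γ : ℝ} (hP : ∀ w, ‖P w‖ ≤ (1 + γ) * ‖w‖)

include hP

lemma N_PA (x : X) : B.N (PA P x) ≤ (1 + γ) * B.N x := by
  rw [← norm_ψ, ψ_PA, ← norm_inl (B := B) (p := p) (Y := Y)]
  exact (WithLp.norm_fst_le _ _).trans (hP _)

lemma norm_PC (x : X) : ‖PC P x‖ ≤ (1 + γ) * B.N x := by
  rw [PC_apply, ← norm_inl (B := B) (p := p) (Y := Y)]
  exact (WithLp.norm_snd_le _ _).trans (hP _)

lemma N_PD (y : Y) : B.N (PD P y) ≤ (1 + γ) * ‖y‖ := by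
  rw [← norm_ψ, ψ_PD, ← norm_inr (B := B) (p := p) y]
  exact (WithLp.norm_fst_le _ _).trans (hP _)

/-- For finite `p`, flatness at `U 0`. -/
lemma flat (hp : p ≠ ∞) (hγ : 0 ≤ γ) (d : X) (hd : B.Φ 0 d = 0) (hdr : ‖d‖ ≤ B.r) :
    (B.N (PA P (B.U 0)) ^ p.toReal + ‖PC P d‖ ^ p.toReal) ^ (1 / p.toReal) ≤ 1 + γ := by
  have hp0 : 0 < p.toReal := by
    have h1 : 1 ≤ p := Fact.out
    exact ENNReal.toReal_pos (by positivity) hp
  have hplus : ‖P (inl B p Y (B.U 0 + d))‖ ≤ 1 + γ := by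
    refine (hP _).trans ?_
    rw [norm_inl]
    have := B.N_adm.2.2 0 d hd hdr
    nlinarith
  have hminus : ‖P (inl B p Y (B.U 0 - d))‖ ≤ 1 + γ := by
    refine (hP _).trans ?_
    rw [norm_inl, sub_eq_add_neg]
    have := B.N_adm.2.2 0 (-d) (by rw [map_neg, hd, neg_zero]) (by rwa [norm_neg])
    nlinarith
  set w : WithLp p (NSp B × Y) := P (inl B p Y (B.U 0 - d)) with hw
  set w' : WithLp p (NSp B × Y) := toLp p (w.fst, -w.snd) with hw'
  have hww' : ‖w'‖ = ‖w‖ := by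
    rw [prod_norm_eq_add hp0, prod_norm_eq_add hp0]
    show (‖w.fst‖ ^ p.toReal + ‖-w.snd‖ ^ p.toReal) ^ (1 / p.toReal) = _
    rw [norm_neg]
  set v : WithLp p (NSp B × Y) := toLp p (ψ B (PA P (B.U 0)), PC P d) with hv
  have hvv : (2 : 𝕜) • v = P (inl B p Y (B.U 0 + d)) + w' := by
    apply WithLp.ofLp_injective
    apply Prod.ext
    · show (2 : 𝕜) • ψ B (PA P (B.U 0)) = (P (inl B p Y (B.U 0 + d))).fst + w.fst
      rw [hw, ← ψ_PA, ← ψ_PA, map_add, map_sub, map_add, map_sub, two_smul]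
      abel
    · show (2 : 𝕜) • PC P d = (P (inl B p Y (B.U 0 + d))).snd + -w.snd
      rw [hw, ← PC_apply, ← PC_apply, map_add, map_sub, two_smul]
      abel
  have hnv : ‖v‖ ≤ 1 + γ := by
    have h1 : ‖(2 : 𝕜) • v‖ ≤ (1 + γ) + (1 + γ) := by
      rw [hvv]
      refine (norm_add_le _ _).trans ?_
      rw [hww']
      exact add_le_add hplus hminus
    rw [norm_smul, RCLike.norm_ofNat] at h1
    linarith
  rw [prod_norm_eq_add hp0] at hnv
  exact hnv

end blocks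

variable (B : BSys 𝕜 X)

lemma N_eq_zero_bound (k : ℕ) : 1 ≤ B.N (B.U k) := by
  have := B.Φ_le_N k (B.U k)
  rwa [B.Φ_U_self, norm_one] at this

/-- The obstruction for finite `p`. -/
theorem no_P_finite (p : ℝ≥0∞) [Fact (1 ≤ p)] (hp : p ≠ ∞) : ∃ γ : ℝ, 0 < γ ∧
    ∀ (Y : Type u) [NormedAddCommGroup Y] [NormedSpace 𝕜 Y]
      (P : WithLp p (NSp B × Y) →L[𝕜] WithLp p (NSp B × Y)),
      FiniteDimensional 𝕜 (LinearMap.range (P : WithLp p (NSp B × Y) →ₗ[𝕜] WithLp p (NSp B × Y))) →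
      (∀ w, P (P w) = P w) → (∀ w, ‖P w‖ ≤ (1 + γ) * ‖w‖) →
      (∀ j < 4, B.N (PA P (B.x j) - B.x j) ≤ γ) → False := by
  have hp0 : 0 < p.toReal := by
    have h1 : 1 ≤ p := Fact.out
    exact ENNReal.toReal_pos (by positivity) hp
  have hp1 : 1 ≤ p.toReal := by
    have h1 : 1 ≤ p := Fact.out
    rw [← ENNReal.toReal_one]
    exact ENNReal.toReal_mono hp h1
  have hM := B.hM
  have hM0 := B.M_pos
  have hr := B.r_pos
  have hr1 := B.r1_pos
  have hc := B.c_pos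
  have hcle := B.c_le
  set K : ℝ := 1 + 8 * B.M / B.r with hK
  have hK0 : 0 < K := by positivity
  obtain ⟨γ₁, hγ₁, hmod⟩ := modulus p.toReal hp1 (B.c / (2 * K)) (by positivity)
  set γ := min (γ₁ / 2) (min B.c (B.r1 / 8)) with hγdef
  have hγ : 0 < γ := by positivity
  have hγa : γ ≤ γ₁ / 2 := min_le_left _ _
  have hγb : γ ≤ B.c := (min_le_right _ _).trans (min_le_left _ _)
  have hγc : γ ≤ B.r1 / 8 := (min_le_right _ _).trans (min_le_right _ _)
  refine ⟨γ, hγ, ?_⟩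
  intro Y _ _ P hfin hPP hP hx
  -- the image of `U 0`
  have hU : 1 - 2 * γ ≤ B.N (PA P (B.U 0)) := by
    have e : B.U 0 = PA P (B.U 0) - ((PA P (B.x 1) - B.x 1) -
        (1 / 2 : 𝕜) • (PA P (B.x 0) - B.x 0)) := by
      rw [BSys.U, map_sub, map_smul, smul_sub]
      abel
    have h1 := N_eq_zero_bound B 0
    have h2 : B.N (B.U 0) ≤ B.N (PA P (B.U 0)) + (B.N (PA P (B.x 1) - B.x 1) +
        1 / 2 * B.N (PA P (B.x 0) - B.x 0)) := by
      calc B.N (B.U 0) = B.N (PA P (B.U 0) - ((PA P (B.x 1) - B.x 1) -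
        (1 / 2 : 𝕜) • (PA P (B.x 0) - B.x 0))) := by rw [← e]
        _ ≤ B.N (PA P (B.U 0)) + B.N ((PA P (B.x 1) - B.x 1) -
        (1 / 2 : 𝕜) • (PA P (B.x 0) - B.x 0)) := map_sub_le_add _ _ _
        _ ≤ B.N (PA P (B.U 0)) + (B.N (PA P (B.x 1) - B.x 1) +
          B.N ((1 / 2 : 𝕜) • (PA P (B.x 0) - B.x 0))) := by
            gcongr; exact map_sub_le_add _ _ _
        _ = _ := by rw [map_smul_eq_mul, BSys.norm_half]
    have h3 := hx 0 (by norm_num)
    have h4 := hx 1 (by norm_num)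
    linarith
  -- the off-diagonal block is small
  have hC1 : ∀ d : X, B.Φ 0 d = 0 → ‖d‖ ≤ B.r → ‖PC P d‖ ≤ B.c / (2 * K) := by
    intro d hd hdr
    have h1 := flat P hP hp hγ.le d hd hdr
    refine hmod _ _ (apply_nonneg _ _) (norm_nonneg _) (h1.trans (by linarith)) (by linarith)
  have hCU : ‖PC P (B.U 0)‖ ≤ B.c / (2 * K) := by
    have h1 : ‖P (inl B p Y (B.U 0))‖ ≤ 1 + γ := by
      refine (hP _).trans ?_
      rw [norm_inl]
      have := B.N_U_le 0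
      nlinarith
    rw [prod_norm_eq_add hp0, ← ψ_PA, ← PC_apply, norm_ψ] at h1
    exact hmod _ _ (apply_nonneg _ _) (norm_nonneg _) (h1.trans (by linarith)) (by linarith)
  have hC2 : ∀ d : X, B.Φ 0 d = 0 → ‖PC P d‖ ≤ B.c / (2 * K) / B.r * ‖d‖ := by
    intro d hd
    by_cases hd0 : d = 0
    · rw [hd0, map_zero, norm_zero, norm_zero, mul_zero]
    · have hdn : 0 < ‖d‖ := norm_pos_iff.mpr hd0
      have h2 := hC1 (((B.r / ‖d‖ : ℝ) : 𝕜) • d) (by rw [map_smul, hd, smul_zero]) (by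
        rw [norm_smul, RCLike.norm_ofReal, abs_of_pos (by positivity)]
        apply le_of_eq
        field_simp)
      rw [map_smul, norm_smul, RCLike.norm_ofReal, abs_of_pos (by positivity)] at h2
      have h3 : ‖PC P d‖ = (‖d‖ / B.r) * (B.r / ‖d‖ * ‖PC P d‖) := by
        field_simp
      rw [h3]
      calc _ ≤ (‖d‖ / B.r) * (B.c / (2 * K)) := by gcongr
        _ = _ := by ring
  have hC : ∀ x : X, ‖PC P x‖ ≤ B.c / 2 * B.N x := by
    intro x
    set d := x - B.Φ 0 x • B.U 0 with hd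
    have hΦd : B.Φ 0 d = 0 := by
      rw [hd, map_sub, map_smul, B.Φ_U_self, smul_eq_mul, mul_one, sub_self]
    have h1 := hC2 d hΦd
    have h2 := B.Φ_le_N 0 x
    have h3 : ‖d‖ ≤ 8 * B.M * B.N x := by
      have h4 : ‖d‖ ≤ ‖x‖ + ‖B.Φ 0 x‖ * ‖B.U 0‖ := by
        rw [hd, ← norm_smul]; exact norm_sub_le _ _
      have h5 := B.U_norm 0
      have h6 := B.half_norm_le_N x
      have h7 : 0 ≤ B.N x := apply_nonneg _ _
      have h8 : ‖B.Φ 0 x‖ * ‖B.U 0‖ ≤ B.N x * (3 / 2) := by gcongr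
      nlinarith
    have h4 : x = d + B.Φ 0 x • B.U 0 := by rw [hd]; abel
    calc ‖PC P x‖ = ‖PC P d + B.Φ 0 x • PC P (B.U 0)‖ := by
          rw [← map_smul, ← map_add, ← h4]
      _ ≤ ‖PC P d‖ + ‖B.Φ 0 x‖ * ‖PC P (B.U 0)‖ := by
          rw [← norm_smul]; exact norm_add_le _ _
      _ ≤ B.c / (2 * K) / B.r * (8 * B.M * B.N x) + B.N x * (B.c / (2 * K)) := by
          gcongr
          exact h1.trans (by gcongr)
      _ = B.c / (2 * K) * K * B.N x := by rw [hK]; ring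
      _ = _ := by field_simp
  have hAA : ∀ x, B.N (PA P (PA P x) - PA P x) ≤ B.c * B.N x := by
    intro x
    have e : PA P (PA P x) - PA P x = -(PD P (PC P x)) := by
      have := PA_PA P hPP x
      rw [← sub_eq_zero] at this ⊢
      rw [← this]; abel
    rw [e, map_neg_eq_map]
    refine (N_PD P hP _).trans ?_
    have h1 := hC x
    have h2 : 1 + γ ≤ 2 := by linarith
    calc (1 + γ) * ‖PC P x‖ ≤ 2 * (B.c / 2 * B.N x) := by gcongr
      _ = _ := by ring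
  have hA : ∀ x, B.N (PA P x) ≤ (1 + B.c) * B.N x := by
    intro x
    refine (N_PA P hP x).trans ?_
    have : 0 ≤ B.N x := apply_nonneg _ _
    gcongr
  have hxx : ∀ j < 3, ‖PA P (B.x j) - B.x j‖ ≤ B.r1 / 4 := by
    intro j hj
    have h1 := hx j (by omega)
    have h2 := B.half_norm_le_N (PA P (B.x j) - B.x j)
    linarith
  let W : Submodule 𝕜 X := Submodule.map ((ψ B).symm.toLinearMap ∘ₗ (fstₗ p 𝕜 (NSp B) Y))
    (LinearMap.range (P : WithLp p (NSp B × Y) →ₗ[𝕜] WithLp p (NSp B × Y)))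
  have : FiniteDimensional 𝕜 W := inferInstance
  exact B.no_almost_projection (PA P) hA hAA W (fun x => ⟨_, ⟨_, rfl⟩, rfl⟩)
    (hxx 0 (by norm_num)) (hxx 1 (by norm_num)) (hxx 2 (by norm_num))

/-- The obstruction for `p = ∞`. -/
theorem no_P_top : ∃ γ : ℝ, 0 < γ ∧
    ∀ (Y : Type u) [NormedAddCommGroup Y] [NormedSpace 𝕜 Y]
      (P : WithLp ∞ (NSp B × Y) →L[𝕜] WithLp ∞ (NSp B × Y)),
      FiniteDimensional 𝕜 (LinearMap.range (P : WithLp ∞ (NSp B × Y) →ₗ[𝕜] WithLp ∞ (NSp B × Y))) →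
      (∀ w, P (P w) = P w) → (∀ w, ‖P w‖ ≤ (1 + γ) * ‖w‖) →
      (∀ j < 4, B.N (PA P (B.x j) - B.x j) ≤ γ) → False := by
  have hM := B.hM
  have hM0 := B.M_pos
  have hr := B.r_pos
  have hr1 := B.r1_pos
  have hc := B.c_pos
  have hcle := B.c_le
  set γ := min (B.c / 64) (B.r1 / 8) with hγdef
  have hγ : 0 < γ := by positivity
  have hγb : γ ≤ B.c / 64 := min_le_left _ _
  have hγc : γ ≤ B.r1 / 8 := min_le_right _ _
  refine ⟨γ, hγ, ?_⟩
  intro Y _ _ P hfin hPP hP hx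
  have hD1 : ∀ b : Y, ‖b‖ ≤ 1 → B.N (PD P b) ≤ 32 * γ := by
    intro b hb
    set w := PD P b with hw
    obtain ⟨t, ht, htw⟩ := RCLike.exists_norm_eq_mul_self (B.V 0 w)
    have h1 : B.N (PA P (B.x 3) + t • w) ≤ 1 + γ := by
      have e : ψ B (PA P (B.x 3) + t • w) = (P (inl B ∞ Y (B.x 3) + inr B ∞ Y (t • b))).fst := by
        rw [map_add, map_smul, hw, ψ_PA, ψ_PD, map_add, add_fst, map_smul (inr B ∞ Y), map_smul P,
          smul_fst]
      rw [← norm_ψ, e]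
      refine (WithLp.norm_fst_le _ _).trans ((hP _).trans ?_)
      have h2 : ‖inl B ∞ Y (B.x 3) + inr B ∞ Y (t • b)‖ ≤ 1 := by
        rw [prod_norm_eq_sup]
        apply sup_le
        · show ‖ψ B (B.x 3) + 0‖ ≤ 1
          rw [add_zero, norm_ψ]
          exact B.N_x_le 3
        · show ‖0 + t • b‖ ≤ 1
          rw [zero_add, norm_smul, ht, one_mul]
          exact hb
      nlinarith
    have h2 : B.N (B.x 3 + t • w) ≤ 1 + 2 * γ := by
      have e : B.x 3 + t • w = (PA P (B.x 3) + t • w) - (PA P (B.x 3) - B.x 3) := by abel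
      rw [e]
      have h3 := hx 3 (by norm_num)
      have h4 : B.N ((PA P (B.x 3) + t • w) - (PA P (B.x 3) - B.x 3)) ≤
        B.N (PA P (B.x 3) + t • w) + B.N (PA P (B.x 3) - B.x 3) := map_sub_le_add _ _ _
      linarith
    have hVx : B.V 0 (B.x 3) = 1 := B.V_x_self 0
    have hV : B.V 0 (B.x 3 + t • w) = 1 + t * B.V 0 w := by
      rw [map_add, map_smul, hVx, smul_eq_mul]
    have h3 := B.expose 0 (B.x 3 + t • w)
    have h4 : B.x 3 + t • w - B.V 0 (B.x 3 + t • w) • B.x (0 + 3) =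
        t • (w - B.V 0 w • B.x 3) := by
      rw [hV, add_smul, one_smul, smul_sub, smul_smul]
      abel
    have h5 : ‖B.V 0 (B.x 3 + t • w)‖ = 1 + ‖B.V 0 w‖ := by
      rw [hV, ← htw]
      have : (1 : 𝕜) + ((‖B.V 0 w‖ : ℝ) : 𝕜) = ((1 + ‖B.V 0 w‖ : ℝ) : 𝕜) := by push_cast; rfl
      rw [this, RCLike.norm_ofReal, abs_of_nonneg (by positivity)]
    rw [h4, h5, map_smul_eq_mul, ht, one_mul] at h3
    have h6 : B.N w ≤ ‖B.V 0 w‖ + B.N (w - B.V 0 w • B.x 3) := by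
      have e : w = B.V 0 w • B.x 3 + (w - B.V 0 w • B.x 3) := by abel
      calc B.N w = B.N (B.V 0 w • B.x 3 + (w - B.V 0 w • B.x 3)) := by rw [← e]
        _ ≤ B.N (B.V 0 w • B.x 3) + B.N (w - B.V 0 w • B.x 3) := map_add_le_add _ _ _
        _ ≤ _ := by
          rw [map_smul_eq_mul]
          have := B.N_x_le 3
          have := norm_nonneg (B.V 0 w)
          nlinarith
    have h7 : 0 ≤ B.N (w - B.V 0 w • B.x 3) := apply_nonneg _ _
    have h8 := norm_nonneg (B.V 0 w)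
    linarith
  have hD : ∀ b : Y, B.N (PD P b) ≤ 32 * γ * ‖b‖ := by
    intro b
    by_cases hb0 : b = 0
    · rw [hb0, map_zero, map_zero, norm_zero, mul_zero]
    · have hbn : 0 < ‖b‖ := norm_pos_iff.mpr hb0
      have h2 := hD1 (((‖b‖⁻¹ : ℝ) : 𝕜) • b) (by
        rw [norm_smul, RCLike.norm_ofReal, abs_of_pos (by positivity)]
        apply le_of_eq
        field_simp)
      rw [map_smul, map_smul_eq_mul, RCLike.norm_ofReal, abs_of_pos (by positivity),
        inv_mul_le_iff₀ hbn] at h2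
      linarith
  have hAA : ∀ x, B.N (PA P (PA P x) - PA P x) ≤ B.c * B.N x := by
    intro x
    have e : PA P (PA P x) - PA P x = -(PD P (PC P x)) := by
      have := PA_PA P hPP x
      rw [← sub_eq_zero] at this ⊢
      rw [← this]; abel
    rw [e, map_neg_eq_map]
    refine (hD _).trans ?_
    have h1 := norm_PC P hP x
    have h2 : 1 + γ ≤ 2 := by linarith
    have h3 : 0 ≤ B.N x := apply_nonneg _ _
    calc 32 * γ * ‖PC P x‖ ≤ 32 * γ * (2 * B.N x) := by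
          gcongr
          exact h1.trans (by gcongr)
      _ = 64 * γ * B.N x := by ring
      _ ≤ 64 * (B.c / 64) * B.N x := by gcongr
      _ = _ := by ring
  have hA : ∀ x, B.N (PA P x) ≤ (1 + B.c) * B.N x := by
    intro x
    refine (N_PA P hP x).trans ?_
    have : 0 ≤ B.N x := apply_nonneg _ _
    gcongr
    linarith
  have hxx : ∀ j < 3, ‖PA P (B.x j) - B.x j‖ ≤ B.r1 / 4 := by
    intro j hj
    have h1 := hx j (by omega)
    have h2 := B.half_norm_le_N (PA P (B.x j) - B.x j)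
    linarith
  let W : Submodule 𝕜 X := Submodule.map ((ψ B).symm.toLinearMap ∘ₗ (fstₗ ∞ 𝕜 (NSp B) Y))
    (LinearMap.range (P : WithLp ∞ (NSp B × Y) →ₗ[𝕜] WithLp ∞ (NSp B × Y)))
  have : FiniteDimensional 𝕜 W := inferInstance
  exact B.no_almost_projection (PA P) hA hAA W (fun x => ⟨_, ⟨_, rfl⟩, rfl⟩)
    (hxx 0 (by norm_num)) (hxx 1 (by norm_num)) (hxx 2 (by norm_num))

end

end Pool.Agent.Helper519.Renorm
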