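import Mathlib

set_option autoImplicit false

namespace Pool.Agent.Helper519.Tsirelson

open Finset

noncomputable section

/-- Norming functionals of the Figiel–Johnson space (nonnegative ones). -/
inductive K : (ℕ → ℝ) → Prop
  | zero : K (fun _ => 0)
  | single (m : ℕ) : K (Pi.single m 1)
  | avg (n : ℕ) (f : ℕ → ℕ → ℝ) (t : ℕ → ℕ) (hf : ∀ i, K (f i)) (ht : Monotone t) (hn : n ≤ t 0)
      (hs : ∀ i m, f i m ≠ 0 → t i ≤ m ∧ m < t (i + 1)) :
      K (fun m => (1 / 2) * ∑ i ∈ range n, f i m)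

lemma K.nonneg {f : ℕ → ℝ} (h : K f) : ∀ m, 0 ≤ f m := by
  induction h with
  | zero => intro m; exact le_rfl
  | single j =>
    intro m
    by_cases hm : m = j
    · subst hm; simp
    · simp [Pi.single_eq_of_ne hm]
  | avg n f t hf ht hn hs ih =>
    intro m
    have : 0 ≤ ∑ i ∈ range n, f i m := sum_nonneg fun i _ => ih i m
    positivity

lemma blocks_unique {f : ℕ → ℕ → ℝ} {t : ℕ → ℕ} (ht : Monotone t)
    (hs : ∀ i m, f i m ≠ 0 → t i ≤ m ∧ m < t (i + 1)) {i j m : ℕ}
    (hi : f i m ≠ 0) (hj : f j m ≠ 0) : i = j := by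
  have h1 := hs i m hi
  have h2 := hs j m hj
  rcases lt_trichotomy i j with h | h | h
  · have := ht (show i + 1 ≤ j from h)
    omega
  · exact h
  · have := ht (show j + 1 ≤ i from h)
    omega

lemma sum_blocks_le {f : ℕ → ℕ → ℝ} {t : ℕ → ℕ} (ht : Monotone t)
    (hs : ∀ i m, f i m ≠ 0 → t i ≤ m ∧ m < t (i + 1)) (h1 : ∀ i m, f i m ≤ 1)
    (n m : ℕ) : ∑ i ∈ range n, f i m ≤ 1 := by
  by_cases hz : ∃ i ∈ range n, f i m ≠ 0
  · obtain ⟨i, hi, him⟩ := hz
    rw [sum_eq_single_of_mem i hi]
    · exact h1 i m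
    · intro j _ hji
      by_contra hj
      exact hji (blocks_unique ht hs hj him)
  · push Not at hz
    rw [sum_eq_zero hz]
    exact zero_le_one

lemma K.le_one {f : ℕ → ℝ} (h : K f) : ∀ m, f m ≤ 1 := by
  induction h with
  | zero => intro m; exact zero_le_one
  | single j =>
    intro m
    by_cases hm : m = j
    · subst hm; simp
    · simp [Pi.single_eq_of_ne hm]
  | avg n f t hf ht hn hs ih =>
    intro m
    have := sum_blocks_le ht hs ih n m
    show (1 / 2) * ∑ i ∈ range n, f i m ≤ 1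
    linarith

lemma K.restrict {f : ℕ → ℝ} (h : K f) (A : ℕ → Prop) [DecidablePred A] :
    K (fun m => if A m then f m else 0) := by
  induction h with
  | zero =>
    have : (fun m => if A m then (fun _ => (0 : ℝ)) m else 0) = fun _ => 0 := by
      funext m; simp
    rw [this]
    exact K.zero
  | single j =>
    by_cases hj : A j
    · have : (fun m => if A m then (Pi.single j (1 : ℝ) : ℕ → ℝ) m else 0) = Pi.single j 1 := by
        funext m
        by_cases hm : m = j
        · subst hm; simp [hj]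
        · simp [Pi.single_eq_of_ne hm]
      rw [this]
      exact K.single j
    · have : (fun m => if A m then (Pi.single j (1 : ℝ) : ℕ → ℝ) m else 0) = fun _ => 0 := by
        funext m
        by_cases hm : m = j
        · subst hm; simp [hj]
        · simp [Pi.single_eq_of_ne hm]
      rw [this]
      exact K.zero
  | avg n f t hf ht hn hs ih =>
    have : (fun m => if A m then (fun m => (1 / 2) * ∑ i ∈ range n, f i m) m else 0) =
        fun m => (1 / 2) * ∑ i ∈ range n, (fun i m => if A m then f i m else 0) i m := by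
      funext m
      by_cases hm : A m
      · simp [hm]
      · simp [hm]
    rw [this]
    refine K.avg n _ t ih ht hn ?_
    intro i m hm
    apply hs
    by_contra h0
    apply hm
    show (if A m then f i m else 0) = 0
    rw [h0]; simp

/-- The positive part of the unit ball of the Figiel–Johnson space. -/
def B : Set (ℕ → ℝ) :=
  {b | (∀ m, 0 ≤ b m) ∧ ∀ f, K f → ∀ A : Finset ℕ, ∑ m ∈ A, f m * b m ≤ 1}

lemma B.nonneg {b : ℕ → ℝ} (hb : b ∈ B) (m : ℕ) : 0 ≤ b m := hb.1 m

lemma B.le_one {b : ℕ → ℝ} (hb : b ∈ B) (m : ℕ) : b m ≤ 1 := by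
  have := hb.2 _ (K.single m) {m}
  simpa using this

lemma B.mono {b b' : ℕ → ℝ} (hb : b ∈ B) (h0 : ∀ m, 0 ≤ b' m) (h : ∀ m, b' m ≤ b m) :
    b' ∈ B := by
  refine ⟨h0, fun f hf A => le_trans ?_ (hb.2 f hf A)⟩
  exact sum_le_sum fun m _ => mul_le_mul_of_nonneg_left (h m) (hf.nonneg m)

lemma B.restrict {b : ℕ → ℝ} (hb : b ∈ B) (A : ℕ → Prop) [DecidablePred A] :
    (fun m => if A m then b m else 0) ∈ B := by
  refine B.mono hb (fun m => ?_) (fun m => ?_)
  · show 0 ≤ if A m then b m else 0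
    split_ifs
    · exact hb.1 m
    · exact le_rfl
  · show (if A m then b m else 0) ≤ b m
    split_ifs
    · exact le_rfl
    · exact hb.1 m

lemma B.single (m : ℕ) : (Pi.single m 1 : ℕ → ℝ) ∈ B := by
  refine ⟨(K.single m).nonneg, fun f hf A => ?_⟩
  by_cases hm : m ∈ A
  · rw [sum_eq_single_of_mem m hm]
    · simpa using hf.le_one m
    · intro j _ hj
      rw [Pi.single_eq_of_ne hj, mul_zero]
  · rw [sum_eq_zero]
    · exact zero_le_one
    · intro j hj
      have hne : j ≠ m := fun h => hm (by rw [← h]; exact hj)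
      rw [Pi.single_eq_of_ne hne, mul_zero]

lemma B.zero : (fun _ => 0 : ℕ → ℝ) ∈ B := ⟨fun _ => le_rfl, fun f _ A => by simp⟩

/-- scaled membership -/
lemma B.of_bound {b : ℕ → ℝ} (h0 : ∀ m, 0 ≤ b m) {s : ℝ} (hs : 0 < s)
    (h : ∀ f, K f → ∀ A : Finset ℕ, ∑ m ∈ A, f m * b m ≤ s) : (fun m => s⁻¹ * b m) ∈ B := by
  refine ⟨fun m => mul_nonneg (inv_nonneg.mpr hs.le) (h0 m), fun f hf A => ?_⟩
  have h1 : ∑ m ∈ A, f m * (s⁻¹ * b m) = s⁻¹ * ∑ m ∈ A, f m * b m := by
    rw [mul_sum]
    exact sum_congr rfl fun m _ => by ring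
  rw [h1, inv_mul_le_iff₀ hs, mul_one]
  exact h f hf A

/-- The lower `ℓ_1` estimate of the Figiel–Johnson space, in dual form. -/
theorem upper_c0 {b : ℕ → ℝ} (hb : b ∈ B) (n : ℕ) {t : ℕ → ℕ} (ht : Monotone t) (hn : n ≤ t 0)
    (w : ℕ → ℕ → ℝ)
    (hw : ∀ k, k < n → ∀ b' ∈ B, ∀ A : Finset ℕ, (∀ m ∈ A, t k ≤ m ∧ m < t (k + 1)) →
      ∑ m ∈ A, b' m * w k m ≤ 1)
    (A : Finset ℕ) :
    ∑ k ∈ range n, ∑ m ∈ A with t k ≤ m ∧ m < t (k + 1), b m * w k m ≤ 2 := by
  classical
  -- the norms of the pieces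
  let V : ℕ → Set ℝ := fun k => {r | ∃ f, K f ∧ ∃ A : Finset ℕ,
    (∀ m ∈ A, t k ≤ m ∧ m < t (k + 1)) ∧ r = ∑ m ∈ A, f m * b m}
  have hV1 : ∀ k, ∀ r ∈ V k, r ≤ 1 := by
    rintro k r ⟨f, hf, A, -, rfl⟩
    exact hb.2 f hf A
  have hVb : ∀ k, BddAbove (V k) := fun k => ⟨1, hV1 k⟩
  have hV0 : ∀ k, (0 : ℝ) ∈ V k := fun k => ⟨_, K.zero, ∅, by simp, by simp⟩
  let s : ℕ → ℝ := fun k => sSup (V k)
  have hs0 : ∀ k, 0 ≤ s k := fun k => le_csSup (hVb k) (hV0 k)
  -- the sum of the norms
  have hsum : ∑ k ∈ range n, s k ≤ 2 := by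
    apply le_of_forall_pos_le_add
    intro ε hε
    have hex : ∀ k, ∃ f, K f ∧ ∃ A : Finset ℕ, (∀ m ∈ A, t k ≤ m ∧ m < t (k + 1)) ∧
        s k - ε / (n + 1) < ∑ m ∈ A, f m * b m := by
      intro k
      have hlt : s k - ε / (n + 1) < s k := by
        have : 0 < ε / (n + 1) := by positivity
        linarith
      obtain ⟨r, ⟨f, hf, A, hA, rfl⟩, hr⟩ := exists_lt_of_lt_csSup ⟨0, hV0 k⟩ hlt
      exact ⟨f, hf, A, hA, hr⟩
    choose f hf A' hA' hfA using hex
    have hK : K (fun m => (1 / 2) * ∑ k ∈ range n,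
        (fun k m => if m ∈ A' k then f k m else 0) k m) := by
      refine K.avg n _ t (fun k => ?_) ht hn ?_
      · exact (hf k).restrict (fun m => m ∈ A' k)
      · intro k m hm
        apply hA'
        by_contra h0
        apply hm
        show (if m ∈ A' k then f k m else 0) = 0
        rw [if_neg h0]
    let U : Finset ℕ := (range n).biUnion A'
    have h1 := hb.2 _ hK U
    have h2 : ∑ m ∈ U, (1 / 2) * (∑ k ∈ range n, (if m ∈ A' k then f k m else 0)) * b m =
        (1 / 2) * ∑ k ∈ range n, ∑ m ∈ A' k, f k m * b m := by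
      have h3 : ∀ k ∈ range n, ∑ m ∈ A' k, f k m * b m =
          ∑ m ∈ U, (if m ∈ A' k then f k m else 0) * b m := by
        intro k hk
        have hsub : A' k ⊆ U := subset_biUnion_of_mem A' hk
        rw [← sum_subset hsub (f := fun m => (if m ∈ A' k then f k m else 0) * b m)]
        · exact sum_congr rfl fun m hm => by rw [if_pos hm]
        · intro m _ hm
          rw [if_neg hm, zero_mul]
      rw [sum_congr rfl h3, sum_comm, mul_sum]
      refine sum_congr rfl fun m _ => ?_
      rw [mul_assoc, sum_mul]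
    have h4 : ∑ m ∈ U, (1 / 2) * (∑ k ∈ range n, (if m ∈ A' k then f k m else 0)) * b m ≤ 1 := h1
    rw [h2] at h4
    have h5 : ∑ k ∈ range n, (s k - ε / (n + 1)) ≤ ∑ k ∈ range n, ∑ m ∈ A' k, f k m * b m :=
      sum_le_sum fun k _ => (hfA k).le
    rw [sum_sub_distrib, sum_const, card_range, nsmul_eq_mul] at h5
    have h6 : (n : ℝ) * (ε / (n + 1)) ≤ ε := by
      rw [← mul_div_assoc, div_le_iff₀ (by positivity)]
      nlinarith
    linarith
  refine le_trans (sum_le_sum fun k hk => ?_) hsum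
  rw [mem_range] at hk
  set Ak := A.filter (fun m => t k ≤ m ∧ m < t (k + 1)) with hAk
  have hAkm : ∀ m ∈ Ak, t k ≤ m ∧ m < t (k + 1) := fun m hm => (mem_filter.mp hm).2
  rcases (hs0 k).lt_or_eq with hpos | hzero
  · -- positive norm
    have hmem : (fun m => (s k)⁻¹ * (if t k ≤ m ∧ m < t (k + 1) then b m else 0)) ∈ B := by
      refine B.of_bound (fun m => (B.restrict hb (fun m => t k ≤ m ∧ m < t (k + 1))).1 m) hpos ?_
      intro f hf A0
      have h1 : ∑ m ∈ A0, f m * (if t k ≤ m ∧ m < t (k + 1) then b m else 0) =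
          ∑ m ∈ A0.filter (fun m => t k ≤ m ∧ m < t (k + 1)), f m * b m := by
        rw [sum_filter]
        refine sum_congr rfl fun m _ => ?_
        split_ifs <;> simp
      rw [h1]
      exact le_csSup (hVb k) ⟨f, hf, _, fun m hm => (mem_filter.mp hm).2, rfl⟩
    have h1 := hw k hk _ hmem Ak hAkm
    have h2 : ∑ m ∈ Ak, (s k)⁻¹ * (if t k ≤ m ∧ m < t (k + 1) then b m else 0) * w k m =
        (s k)⁻¹ * ∑ m ∈ Ak, b m * w k m := by
      rw [mul_sum]
      refine sum_congr rfl fun m hm => ?_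
      rw [if_pos (hAkm m hm), mul_assoc]
    have h3 : ∑ m ∈ Ak, (s k)⁻¹ * (if t k ≤ m ∧ m < t (k + 1) then b m else 0) * w k m ≤ 1 := h1
    rw [h2, inv_mul_le_iff₀ hpos, mul_one] at h3
    exact h3
  · -- zero norm
    have h1 : ∀ m ∈ Ak, b m * w k m = 0 := by
      intro m hm
      have h2 : b m ≤ s k := by
        refine le_csSup (hVb k) ⟨_, K.single m, {m}, ?_, ?_⟩
        · intro m' hm'
          rw [mem_singleton] at hm'
          rw [hm']
          exact hAkm m hm
        · simp
      have h3 : b m = 0 := le_antisymm (by rw [hzero]; exact h2) (hb.1 m)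
      rw [h3, zero_mul]
    rw [sum_eq_zero h1]
    exact hs0 k

/-- The James-type estimate: adding a long average of far blocks to a block of norm one gives
norm at most `7 / 4`. -/
theorem james {b₁ : ℕ → ℝ} (hb₁ : b₁ ∈ B) {M : ℕ} (hM : ∀ m, M ≤ m → b₁ m = 0) {n : ℕ}
    (hn0 : 0 < n) (hnM : 2 * M ≤ n) {t : ℕ → ℕ} (ht : Monotone t) (htM : M ≤ t 0)
    (b : ℕ → ℕ → ℝ) (hb : ∀ k, b k ∈ B) (hbs : ∀ k m, b k m ≠ 0 → t k ≤ m ∧ m < t (k + 1)) :
    (fun m => (7 / 4 : ℝ)⁻¹ * (b₁ m + (n : ℝ)⁻¹ * ∑ k ∈ range n, b k m)) ∈ B := by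
  classical
  have hnpos : (0 : ℝ) < n := by exact_mod_cast hn0
  refine B.of_bound (fun m => ?_) (by norm_num) ?_
  · have h1 := hb₁.1 m
    have h2 : 0 ≤ ∑ k ∈ range n, b k m := sum_nonneg fun k _ => (hb k).1 m
    positivity
  intro f hf A
  have hsplit : ∀ g : ℕ → ℝ, ∑ m ∈ A, g m * (b₁ m + (n : ℝ)⁻¹ * ∑ k ∈ range n, b k m) =
      ∑ m ∈ A, g m * b₁ m + (n : ℝ)⁻¹ * ∑ k ∈ range n, ∑ m ∈ A, g m * b k m := by
    intro g
    rw [sum_comm, mul_sum, ← sum_add_distrib]
    refine sum_congr rfl fun m _ => ?_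
    rw [← mul_sum]
    ring
  rw [hsplit]
  have hall : ∀ g : ℕ → ℝ, K g → (n : ℝ)⁻¹ * ∑ k ∈ range n, ∑ m ∈ A, g m * b k m ≤ 1 := by
    intro g hg
    rw [inv_mul_le_iff₀ hnpos, mul_one]
    calc _ ≤ ∑ k ∈ range n, (1 : ℝ) := sum_le_sum fun k _ => (hb k).2 g hg A
      _ = n := by simp
  cases hf with
  | zero => simp; norm_num
  | single j =>
    by_cases hj : j < M
    · have h1 : ∀ k, b k j = 0 := by
        intro k
        by_contra h
        have := (hbs k j h).1
        have := ht (Nat.zero_le k)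
        omega
      have h2 : ∑ k ∈ range n, ∑ m ∈ A, (Pi.single j 1 : ℕ → ℝ) m * b k m = 0 := by
        refine sum_eq_zero fun k _ => sum_eq_zero fun m _ => ?_
        by_cases hm : m = j
        · rw [hm, h1 k, mul_zero]
        · rw [Pi.single_eq_of_ne hm, zero_mul]
      rw [h2, mul_zero, add_zero]
      have := hb₁.2 _ (K.single j) A
      linarith
    · have h2 : ∑ m ∈ A, (Pi.single j 1 : ℕ → ℝ) m * b₁ m = 0 := by
        refine sum_eq_zero fun m _ => ?_
        by_cases hm : m = j
        · rw [hm, hM j (by omega), mul_zero]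
        · rw [Pi.single_eq_of_ne hm, zero_mul]
      rw [h2, zero_add]
      have := hall _ (K.single j)
      linarith
  | avg l f t' hf ht' hl hs =>
    have hF : K (fun m => (1 / 2) * ∑ i ∈ range l, f i m) := K.avg l f t' hf ht' hl hs
    by_cases hlM : M < l
    · have h2 : ∑ m ∈ A, (1 / 2) * (∑ i ∈ range l, f i m) * b₁ m = 0 := by
        refine sum_eq_zero fun m _ => ?_
        by_cases hm : M ≤ m
        · rw [hM m hm, mul_zero]
        · have : ∑ i ∈ range l, f i m = 0 := by
            refine sum_eq_zero fun i _ => ?_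
            by_contra h
            have h1 := (hs i m h).1
            have h2 := ht' (Nat.zero_le i)
            omega
          rw [this]; ring
      rw [h2, zero_add]
      have := hall _ hF
      linarith
    · -- few pieces
      have h1 := hb₁.2 _ hF A
      let c : ℕ → ℝ := fun k => ∑ m ∈ A, (1 / 2) * (∑ i ∈ range l, f i m) * b k m
      have hc1 : ∀ k, c k ≤ 1 := fun k => (hb k).2 _ hF A
      let T : ℕ → ℕ → Prop := fun k i => ∃ m ∈ A, f i m ≠ 0 ∧ b k m ≠ 0
      let bad : Finset ℕ := (range n).filter (fun k => ∃ j < l, (∃ i < j, T k i) ∧ T k j)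
      have hgood : ∀ k ∈ range n, k ∉ bad → c k ≤ 1 / 2 := by
        intro k hk hkb
        have hex : ∃ i0, ∀ i, i < l → i ≠ i0 → ¬ T k i := by
          by_contra hcon
          push Not at hcon
          obtain ⟨i1, hi1, -, hT1⟩ := hcon l
          obtain ⟨i2, hi2, hne, hT2⟩ := hcon i1
          apply hkb
          refine mem_filter.mpr ⟨hk, ?_⟩
          rcases lt_or_gt_of_ne hne with h | h
          · exact ⟨i1, hi1, ⟨i2, h, hT2⟩, hT1⟩
          · exact ⟨i2, hi2, ⟨i1, h, hT1⟩, hT2⟩
        obtain ⟨i0, hi0⟩ := hex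
        have h3 : ∀ m ∈ A, (1 / 2) * (∑ i ∈ range l, f i m) * b k m ≤
            (1 / 2) * (f i0 m * b k m) := by
          intro m hm
          have h4 : (∑ i ∈ range l, f i m) * b k m ≤ f i0 m * b k m := by
            by_cases hbk : b k m = 0
            · rw [hbk]; simp
            · apply mul_le_mul_of_nonneg_right _ ((hb k).1 m)
              by_cases hi0l : i0 ∈ range l
              · rw [sum_eq_single_of_mem i0 hi0l]
                intro i hi hii
                by_contra hfi
                exact hi0 i (mem_range.mp hi) hii ⟨m, hm, hfi, hbk⟩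
              · rw [sum_eq_zero]
                · exact (hf i0).nonneg m
                · intro i hi
                  by_contra hfi
                  exact hi0 i (mem_range.mp hi) (fun h => hi0l (h ▸ hi)) ⟨m, hm, hfi, hbk⟩
          linarith
        calc c k ≤ ∑ m ∈ A, (1 / 2) * (f i0 m * b k m) := sum_le_sum h3
          _ = (1 / 2) * ∑ m ∈ A, f i0 m * b k m := by rw [mul_sum]
          _ ≤ 1 / 2 := by
            have := (hb k).2 _ (hf i0) A
            linarith
      have hbadcard : bad.card ≤ l := by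
        have hφ : ∀ k ∈ bad, ∃ j < l, (∃ i < j, T k i) ∧ T k j := fun k hk => (mem_filter.mp hk).2
        choose! φ hφ1 hφ2 hφ3 using hφ
        have hlt : ∀ k ∈ bad, ∀ k' ∈ bad, k < k' → φ k < φ k' := by
          intro k hk k' hk' hkk
          obtain ⟨i', hi', m', hm'A, hfm', hbm'⟩ := hφ2 k' hk'
          obtain ⟨m, hmA, hfm, hbm⟩ := hφ3 k hk
          have e1 := (hbs k m hbm).2
          have e2 := (hbs k' m' hbm').1
          have e3 := ht (show k + 1 ≤ k' from hkk)
          have e4 := (hs _ m hfm).1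
          have e5 := (hs _ m' hfm').2
          have e6 : φ k ≤ i' := by
            by_contra hcon
            have := ht' (show i' + 1 ≤ φ k by omega)
            omega
          omega
        have hcard : bad.card ≤ (range l).card := by
          refine card_le_card_of_injOn φ (fun k hk => ?_) ?_
          · exact mem_coe.mpr (mem_range.mpr (hφ1 k hk))
          · intro k hk k' hk' heq
            rcases lt_trichotomy k k' with h | h | h
            · have := hlt k hk k' hk' h
              omega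
            · exact h
            · have := hlt k' hk' k hk h
              omega
        simpa using hcard
      have h5 : ∑ k ∈ range n, c k ≤ (n : ℝ) / 2 + (M : ℝ) / 2 := by
        have h6 : ∀ k ∈ range n, c k ≤ 1 / 2 + (if k ∈ bad then (1 / 2 : ℝ) else 0) := by
          intro k hk
          by_cases hkb : k ∈ bad
          · rw [if_pos hkb]
            have := hc1 k
            linarith
          · rw [if_neg hkb]
            have := hgood k hk hkb
            linarith
        refine (sum_le_sum h6).trans ?_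
        rw [sum_add_distrib, sum_const, card_range, nsmul_eq_mul, ← sum_filter, sum_const,
          nsmul_eq_mul]
        have h7 : ((range n).filter (fun k => k ∈ bad)).card ≤ M := by
          calc _ ≤ bad.card := card_le_card (fun k hk => (mem_filter.mp hk).2)
            _ ≤ l := hbadcard
            _ ≤ M := by omega
        have h8 : (((range n).filter (fun k => k ∈ bad)).card : ℝ) ≤ M := by exact_mod_cast h7
        linarith
      have h9 : (n : ℝ)⁻¹ * ∑ k ∈ range n, c k ≤ 3 / 4 := by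
        rw [inv_mul_le_iff₀ hnpos]
        have h10 : (2 * M : ℝ) ≤ n := by exact_mod_cast hnM
        linarith
      have h11 : ∑ m ∈ A, (1 / 2) * (∑ i ∈ range l, f i m) * b₁ m ≤ 1 := h1
      have h12 : (n : ℝ)⁻¹ * ∑ k ∈ range n, ∑ m ∈ A, (1 / 2) * (∑ i ∈ range l, f i m) * b k m ≤
          3 / 4 := h9
      linarith

end

end Pool.Agent.Helper519.Tsirelson
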