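import Mathlib
import Pool.Agent.Helper519.Tsirelson

set_option autoImplicit false

namespace Pool.Agent.Helper519.TSpace

open Finset Pool.Agent.Helper519.Tsirelson
open scoped ENNReal

noncomputable section

/-- Indices of the norming functionals. -/
structure Idx (Γ : Type) where
  b : ℕ → ℝ
  hb : b ∈ B
  A : Finset ℕ
  F : ℕ → Finset Γ
  hF : ∀ m, (F m).card ≤ 4 ^ m
  σ : ℕ → Γ → ℝ
  hσ : ∀ m γ, |σ m γ| ≤ 1

variable {Γ : Type}

/-- The norming functionals. -/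
def L (i : Idx Γ) : (Γ → ℝ) →ₗ[ℝ] ℝ where
  toFun x := ∑ m ∈ i.A, i.b m * (1 / 2) ^ m * ∑ γ ∈ i.F m, i.σ m γ * x γ
  map_add' x y := by
    rw [← sum_add_distrib]
    refine sum_congr rfl fun m _ => ?_
    rw [← mul_add, ← sum_add_distrib]
    congr 1
    exact sum_congr rfl fun γ _ => by rw [Pi.add_apply]; ring
  map_smul' c x := by
    rw [RingHom.id_apply, smul_eq_mul, mul_sum]
    refine sum_congr rfl fun m _ => ?_
    have h1 : ∑ γ ∈ i.F m, i.σ m γ * (c • x) γ = c * ∑ γ ∈ i.F m, i.σ m γ * x γ := by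
      rw [mul_sum]
      exact sum_congr rfl fun γ _ => by rw [Pi.smul_apply, smul_eq_mul]; ring
    rw [h1]
    ring

lemma L_apply (i : Idx Γ) (x : Γ → ℝ) :
    L i x = ∑ m ∈ i.A, i.b m * (1 / 2) ^ m * ∑ γ ∈ i.F m, i.σ m γ * x γ := rfl

/-- the coordinate functionals -/
def dl (γ : Γ) : Idx Γ where
  b := Pi.single 0 1
  hb := B.single 0
  A := {0}
  F := fun _ => {γ}
  hF := fun m => by
    rw [card_singleton]
    exact Nat.one_le_pow _ _ (by norm_num)
  σ := fun _ _ => 1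
  hσ := fun _ _ => by simp

lemma L_dl (γ : Γ) (x : Γ → ℝ) : L (dl γ) x = x γ := by
  simp [L_apply, dl]

/-- bounded families indexed by the norming functionals -/
abbrev LI (Γ : Type) : Type := lp (fun _ : Idx Γ => ℝ) ∞

/-- the space, as a subspace of `ℓ^∞` -/
def XSub (Γ : Type) : Submodule ℝ (LI Γ) where
  carrier := {y | ∀ i, y i = L i (fun γ => y (dl γ))}
  add_mem' := by
    intro y z hy hz i
    have h1 : (fun γ => (y + z) (dl γ)) = (fun γ => y (dl γ)) + fun γ => z (dl γ) := by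
      funext γ
      simp
    rw [h1, map_add, ← hy i, ← hz i]
    simp
  zero_mem' := by
    intro i
    have h1 : (fun γ => (0 : LI Γ) (dl γ)) = 0 := by
      funext γ
      simp
    rw [h1, map_zero]
    simp
  smul_mem' := by
    intro c y hy i
    have h1 : (fun γ => (c • y) (dl γ)) = c • fun γ => y (dl γ) := by
      funext γ
      simp
    rw [h1, map_smul, ← hy i]
    simp

lemma isClosed_XSub (Γ : Type) : IsClosed (XSub Γ : Set (LI Γ)) := by
  have h1 : (XSub Γ : Set (LI Γ)) = ⋂ i, {y : LI Γ | y i = L i (fun γ => y (dl γ))} := by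
    ext y
    simp only [Set.mem_iInter, Set.mem_ofPred_eq]
    rfl
  rw [h1]
  have hc : ∀ i : Idx Γ, Continuous fun y : LI Γ => y i := by
    intro i
    have := (lp.uniformContinuous_coe (E := fun _ : Idx Γ => ℝ) (p := ∞)).continuous
    exact (continuous_apply i).comp this
  refine isClosed_iInter fun i => isClosed_eq (hc i) ?_
  simp only [L_apply]
  refine continuous_finsetSum _ fun m _ => Continuous.mul continuous_const ?_
  refine continuous_finsetSum _ fun γ _ => Continuous.mul continuous_const (hc _)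

/-- the space -/
def X (Γ : Type) : Type := XSub Γ

instance : NormedAddCommGroup (X Γ) := inferInstanceAs (NormedAddCommGroup (XSub Γ))

instance : NormedSpace ℝ (X Γ) := inferInstanceAs (NormedSpace ℝ (XSub Γ))

instance : CompleteSpace (X Γ) :=
  have : CompleteSpace (XSub Γ) := (isClosed_XSub Γ).completeSpace_coe
  this

/-- the inclusion -/
def inc : X Γ →ₗ[ℝ] LI Γ := (XSub Γ).subtype

lemma norm_inc (y : X Γ) : ‖inc y‖ = ‖y‖ := rfl

/-- coordinates -/
def co : X Γ →ₗ[ℝ] (Γ → ℝ) where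
  toFun y γ := inc y (dl γ)
  map_add' y z := by
    funext γ
    rw [map_add, lp.coeFn_add]
    rfl
  map_smul' c y := by
    funext γ
    rw [map_smul, lp.coeFn_smul]
    rfl

lemma apply_eq (y : X Γ) (i : Idx Γ) : inc y i = L i (co y) := y.2 i

lemma abs_L_le (y : X Γ) (i : Idx Γ) : |L i (co y)| ≤ ‖y‖ := by
  rw [← apply_eq, ← norm_inc]
  exact lp.norm_apply_le_norm (by simp) (inc y) i

lemma norm_le {y : X Γ} {C : ℝ} (hC : 0 ≤ C) (h : ∀ i, |L i (co y)| ≤ C) : ‖y‖ ≤ C := by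
  rw [← norm_inc]
  refine lp.norm_le_of_forall_le hC fun i => ?_
  have h1 := h i
  rw [← apply_eq] at h1
  exact h1

lemma co_injective : Function.Injective (co : X Γ → Γ → ℝ) := by
  intro y z h
  apply Subtype.ext
  show inc y = inc z
  apply lp.ext
  funext i
  rw [apply_eq, apply_eq, h]

lemma co_le (y : X Γ) (γ : Γ) : |co y γ| ≤ ‖y‖ := by
  have := abs_L_le y (dl γ)
  rwa [L_dl] at this

/-- constructor from a family of coordinates -/
lemma exists_mk (x : Γ → ℝ) (C : ℝ) (h : ∀ i, |L i x| ≤ C) : ∃ y : X Γ, co y = x := by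
  have hm : Memℓp (fun i : Idx Γ => L i x) ∞ := by
    rw [memℓp_infty_iff]
    refine ⟨C, ?_⟩
    rintro _ ⟨i, rfl⟩
    exact h i
  refine ⟨⟨⟨fun i => L i x, hm⟩, ?_⟩, ?_⟩
  · intro i
    show L i x = L i (fun γ => L (dl γ) x)
    congr 1
    funext γ
    rw [L_dl]
  · funext γ
    show L (dl γ) x = x γ
    rw [L_dl]

/-- the sum of the `4 ^ m` largest coordinates -/
def S (m : ℕ) (y : X Γ) : ℝ := sSup {r | ∃ F : Finset Γ, F.card ≤ 4 ^ m ∧ r = ∑ γ ∈ F, |co y γ|}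

lemma S_bdd {m : ℕ} {y : X Γ} {η : ℝ} (h : ∀ γ, |co y γ| ≤ η) (hη : 0 ≤ η) (F : Finset Γ)
    (hF : F.card ≤ 4 ^ m) : ∑ γ ∈ F, |co y γ| ≤ 4 ^ m * η := by
  calc _ ≤ ∑ γ ∈ F, η := sum_le_sum fun γ _ => h γ
    _ = F.card * η := by rw [sum_const, nsmul_eq_mul]
    _ ≤ _ := by
      apply mul_le_mul_of_nonneg_right _ hη
      exact_mod_cast hF

lemma S_bddAbove (m : ℕ) (y : X Γ) :
    BddAbove {r | ∃ F : Finset Γ, F.card ≤ 4 ^ m ∧ r = ∑ γ ∈ F, |co y γ|} := by
  refine ⟨4 ^ m * ‖y‖, ?_⟩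
  rintro _ ⟨F, hF, rfl⟩
  exact S_bdd (co_le y) (norm_nonneg y) F hF

lemma le_S (m : ℕ) (y : X Γ) (F : Finset Γ) (hF : F.card ≤ 4 ^ m) :
    ∑ γ ∈ F, |co y γ| ≤ S m y := le_csSup (S_bddAbove m y) ⟨F, hF, rfl⟩

lemma S_nonempty (m : ℕ) (y : X Γ) :
    {r | ∃ F : Finset Γ, F.card ≤ 4 ^ m ∧ r = ∑ γ ∈ F, |co y γ|}.Nonempty :=
  ⟨0, ∅, by simp, by simp⟩

lemma S_le {m : ℕ} {y : X Γ} {c : ℝ} (h : ∀ F : Finset Γ, F.card ≤ 4 ^ m →
    ∑ γ ∈ F, |co y γ| ≤ c) : S m y ≤ c := by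
  refine csSup_le (S_nonempty m y) ?_
  rintro _ ⟨F, hF, rfl⟩
  exact h F hF

lemma S_nonneg (m : ℕ) (y : X Γ) : 0 ≤ S m y := by
  have := le_S m y ∅ (by simp)
  simpa using this

lemma S_le_sup {m : ℕ} {y : X Γ} {η : ℝ} (h : ∀ γ, |co y γ| ≤ η) (hη : 0 ≤ η) :
    S m y ≤ 4 ^ m * η := S_le fun F hF => S_bdd h hη F hF

lemma S_add (m : ℕ) (y z : X Γ) : S m (y + z) ≤ S m y + S m z := by
  refine S_le fun F hF => ?_
  calc _ ≤ ∑ γ ∈ F, (|co y γ| + |co z γ|) := by
        refine sum_le_sum fun γ _ => ?_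
        rw [map_add, Pi.add_apply]
        exact abs_add_le _ _
    _ = ∑ γ ∈ F, |co y γ| + ∑ γ ∈ F, |co z γ| := sum_add_distrib
    _ ≤ _ := add_le_add (le_S m y F hF) (le_S m z F hF)

lemma S_mono {m : ℕ} {y z : X Γ} (h : ∀ γ, |co y γ| ≤ |co z γ|) : S m y ≤ S m z :=
  S_le fun F hF => (sum_le_sum fun γ _ => h γ).trans (le_S m z F hF)

lemma S_smul (m : ℕ) (c : ℝ) (y : X Γ) : S m (c • y) ≤ |c| * S m y := by
  refine S_le fun F hF => ?_
  have h1 : ∑ γ ∈ F, |co (c • y) γ| = |c| * ∑ γ ∈ F, |co y γ| := by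
    rw [mul_sum]
    refine sum_congr rfl fun γ _ => ?_
    rw [map_smul, Pi.smul_apply, smul_eq_mul, abs_mul]
  rw [h1]
  exact mul_le_mul_of_nonneg_left (le_S m y F hF) (abs_nonneg c)

lemma S_neg (m : ℕ) (y : X Γ) : S m (-y) = S m y := by
  apply le_antisymm
  · exact S_mono fun γ => by rw [map_neg, Pi.neg_apply, abs_neg]
  · exact S_mono fun γ => by rw [map_neg, Pi.neg_apply, abs_neg]

/-- the sequence attached to a vector -/
def q (y : X Γ) (m : ℕ) : ℝ := (1 / 2) ^ m * S m y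

lemma q_nonneg (y : X Γ) (m : ℕ) : 0 ≤ q y m := mul_nonneg (by positivity) (S_nonneg m y)

lemma q_add (y z : X Γ) (m : ℕ) : q (y + z) m ≤ q y m + q z m := by
  have := S_add m y z
  have h : (0 : ℝ) ≤ (1 / 2) ^ m := by positivity
  calc _ ≤ (1 / 2) ^ m * (S m y + S m z) := mul_le_mul_of_nonneg_left this h
    _ = _ := by unfold q; ring

lemma q_smul (c : ℝ) (y : X Γ) (m : ℕ) : q (c • y) m ≤ |c| * q y m := by
  have := S_smul m c y
  have h : (0 : ℝ) ≤ (1 / 2) ^ m := by positivity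
  calc _ ≤ (1 / 2) ^ m * (|c| * S m y) := mul_le_mul_of_nonneg_left this h
    _ = _ := by unfold q; ring

lemma q_neg (y : X Γ) (m : ℕ) : q (-y) m = q y m := by unfold q; rw [S_neg]

lemma q_mono {y z : X Γ} (h : ∀ γ, |co y γ| ≤ |co z γ|) (m : ℕ) : q y m ≤ q z m :=
  mul_le_mul_of_nonneg_left (S_mono h) (by positivity)

lemma q_le_sup {y : X Γ} {η : ℝ} (h : ∀ γ, |co y γ| ≤ η) (hη : 0 ≤ η) (m : ℕ) :
    q y m ≤ 2 ^ m * η := by
  have := S_le_sup (m := m) h hη
  have h' : (0 : ℝ) ≤ (1 / 2) ^ m := by positivity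
  calc _ ≤ (1 / 2) ^ m * (4 ^ m * η) := mul_le_mul_of_nonneg_left this h'
    _ = _ := by
      rw [← mul_assoc, ← mul_pow]
      norm_num

lemma norm_le_q {y : X Γ} {C : ℝ} (h : ∀ b ∈ B, ∀ A : Finset ℕ, ∑ m ∈ A, b m * q y m ≤ C) :
    ‖y‖ ≤ C := by
  have hC : 0 ≤ C := by simpa using h _ B.zero ∅
  refine norm_le hC fun i => ?_
  refine le_trans ?_ (h i.b i.hb i.A)
  rw [L_apply]
  refine (abs_sum_le_sum_abs _ _).trans (sum_le_sum fun m _ => ?_)
  have hb := B.nonneg i.hb m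
  have h2 : (0 : ℝ) ≤ (1 / 2) ^ m := by positivity
  rw [abs_mul, abs_mul, abs_of_nonneg hb, abs_of_nonneg h2, mul_assoc]
  apply mul_le_mul_of_nonneg_left _ hb
  apply mul_le_mul_of_nonneg_left _ h2
  refine (abs_sum_le_sum_abs _ _).trans ?_
  refine le_trans (sum_le_sum fun γ _ => ?_) (le_S m y (i.F m) (i.hF m))
  rw [abs_mul]
  have := i.hσ m γ
  have h3 := abs_nonneg (co y γ)
  nlinarith

lemma q_le_norm (y : X Γ) {b : ℕ → ℝ} (hb : b ∈ B) (A : Finset ℕ) :
    ∑ m ∈ A, b m * q y m ≤ ‖y‖ := by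
  apply le_of_forall_pos_le_add
  intro ε hε
  have hex : ∀ m, ∃ F : Finset Γ, F.card ≤ 4 ^ m ∧
      S m y - ε / (A.card + 1) < ∑ γ ∈ F, |co y γ| := by
    intro m
    have hlt : S m y - ε / (A.card + 1) < S m y := by
      have : 0 < ε / (A.card + 1) := by positivity
      linarith
    obtain ⟨r, ⟨F, hF, rfl⟩, hr⟩ := exists_lt_of_lt_csSup (S_nonempty m y) hlt
    exact ⟨F, hF, hr⟩
  choose F hF hFS using hex
  let i : Idx Γ :=
    { b := b
      hb := hb
      A := A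
      F := F
      hF := hF
      σ := fun _ γ => if 0 ≤ co y γ then 1 else -1
      hσ := fun _ γ => by split_ifs <;> simp }
  have h1 := (le_abs_self _).trans (abs_L_le y i)
  have h2 : L i (co y) = ∑ m ∈ A, b m * (1 / 2) ^ m * ∑ γ ∈ F m, |co y γ| := by
    rw [L_apply]
    refine sum_congr rfl fun m _ => ?_
    congr 1
    refine sum_congr rfl fun γ _ => ?_
    show (if 0 ≤ co y γ then (1 : ℝ) else -1) * co y γ = |co y γ|
    split_ifs with h
    · rw [abs_of_nonneg h, one_mul]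
    · rw [abs_of_neg (not_le.mp h)]; ring
  rw [h2] at h1
  have h3 : ∀ m ∈ A, b m * q y m ≤ b m * (1 / 2) ^ m * ∑ γ ∈ F m, |co y γ| +
      ε / (A.card + 1) := by
    intro m _
    have hb0 := B.nonneg hb m
    have hb1 := B.le_one hb m
    have h4 : (0 : ℝ) ≤ (1 / 2) ^ m := by positivity
    have h5 : ((1 : ℝ) / 2) ^ m ≤ 1 := pow_le_one₀ (by norm_num) (by norm_num)
    have h6 : 0 ≤ b m * (1 / 2) ^ m := mul_nonneg hb0 h4
    have h7 : b m * (1 / 2) ^ m ≤ 1 := by nlinarith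
    have h8 : 0 < ε / (A.card + 1) := by positivity
    have h9 := mul_le_mul_of_nonneg_left (hFS m).le h6
    have h10 : b m * (1 / 2) ^ m * (ε / (A.card + 1)) ≤ ε / (A.card + 1) := by
      have := mul_le_mul_of_nonneg_right h7 h8.le
      linarith
    unfold q
    rw [← mul_assoc]
    linarith
  have h4 := sum_le_sum h3
  rw [sum_add_distrib, sum_const, nsmul_eq_mul] at h4
  have h5 : (A.card : ℝ) * (ε / (A.card + 1)) ≤ ε := by
    rw [← mul_div_assoc, div_le_iff₀ (by positivity)]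
    nlinarith [(Nat.cast_nonneg A.card : (0 : ℝ) ≤ A.card)]
  linarith

lemma norm_mono {y z : X Γ} (h : ∀ γ, |co y γ| ≤ |co z γ|) : ‖y‖ ≤ ‖z‖ := by
  refine norm_le_q fun b hb A => le_trans (sum_le_sum fun m _ => ?_) (q_le_norm z hb A)
  exact mul_le_mul_of_nonneg_left (q_mono h m) (B.nonneg hb m)

/-- a single coordinate of `q` is at most the norm -/
lemma q_le (y : X Γ) (m : ℕ) : q y m ≤ ‖y‖ := by
  have := q_le_norm y (B.single m) {m}
  simpa using this

end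

end Pool.Agent.Helper519.TSpace
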