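import Mathlib
import Pool.Agent.Helper519.TSpace

set_option autoImplicit false

namespace Pool.Agent.Helper519.TSpace

open Finset Pool.Agent.Helper519.Tsirelson
open scoped ENNReal

noncomputable section

variable {Γ : Type}

lemma geo_tail (M : ℕ) (A : Finset ℕ) (h : ∀ m ∈ A, M ≤ m) :
    ∑ m ∈ A, ((1 : ℝ) / 2) ^ m ≤ 2 * (1 / 2) ^ M := by
  have h1 : ∀ m ∈ A, ((1 : ℝ) / 2) ^ m = (1 / 2) ^ M * (1 / 2) ^ (m - M) := by
    intro m hm
    rw [← pow_add, Nat.add_sub_cancel' (h m hm)]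
  rw [sum_congr rfl h1, ← mul_sum, mul_comm]
  apply mul_le_mul_of_nonneg_right _ (by positivity)
  have h2 : ∑ m ∈ A, ((1 : ℝ) / 2) ^ (m - M) = ∑ j ∈ A.image (fun m => m - M), (1 / 2) ^ j := by
    rw [sum_image]
    intro m hm m' hm' heq
    have := h m hm
    have := h m' hm'
    simp only at heq
    omega
  rw [h2]
  calc _ ≤ ∑' n : ℕ, ((1 : ℝ) / 2) ^ n :=
        summable_geometric_two.sum_le_tsum _ fun j _ => by positivity
    _ = 2 := tsum_geometric_two

lemma geo_le (A : Finset ℕ) : ∑ m ∈ A, ((1 : ℝ) / 2) ^ m ≤ 2 := by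
  have := geo_tail 0 A fun m _ => Nat.zero_le m
  simpa using this

lemma exists_e (γ : Γ) : ∃ y : X Γ, co y = fun γ' => by classical exact if γ' = γ then 1 else 0 := by
  classical
  apply exists_mk _ 2
  intro i
  rw [L_apply]
  refine (abs_sum_le_sum_abs _ _).trans (le_trans (sum_le_sum fun m _ => ?_) (geo_le i.A))
  have hb := B.nonneg i.hb m
  have hb1 := B.le_one i.hb m
  have h2 : (0 : ℝ) ≤ (1 / 2) ^ m := by positivity
  have h3 : |∑ γ' ∈ i.F m, i.σ m γ' * (if γ' = γ then (1 : ℝ) else 0)| ≤ 1 := by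
    by_cases hγ : γ ∈ i.F m
    · rw [sum_eq_single_of_mem γ hγ]
      · simpa using i.hσ m γ
      · intro γ' _ hne
        rw [if_neg hne, mul_zero]
    · rw [sum_eq_zero]
      · simp
      · intro γ' hγ'
        have hne : γ' ≠ γ := fun h => hγ (by rw [← h]; exact hγ')
        rw [if_neg hne, mul_zero]
  rw [abs_mul, abs_mul, abs_of_nonneg hb, abs_of_nonneg h2]
  have h4 : i.b m * (1 / 2) ^ m ≤ (1 / 2) ^ m := by nlinarith
  have h5 : 0 ≤ i.b m * (1 / 2) ^ m := mul_nonneg hb h2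
  calc _ ≤ i.b m * (1 / 2) ^ m * 1 := mul_le_mul_of_nonneg_left (by convert h3) h5
    _ ≤ _ := by linarith

/-- unit vectors -/
def e (γ : Γ) : X Γ := (exists_e γ).choose

lemma co_e (γ γ' : Γ) [Decidable (γ' = γ)] : co (e γ) γ' = if γ' = γ then 1 else 0 := by
  have := congrFun (exists_e γ).choose_spec γ'
  rw [show co (e γ) = co (exists_e γ).choose from rfl, this]
  congr

/-- finite combinations -/
def fs (G : Finset Γ) (a : Γ → ℝ) : X Γ := ∑ γ ∈ G, a γ • e γ

lemma co_fs (G : Finset Γ) (a : Γ → ℝ) (γ : Γ) [Decidable (γ ∈ G)] :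
    co (fs G a) γ = if γ ∈ G then a γ else 0 := by
  classical
  have h1 : co (fs G a) γ = ∑ γ' ∈ G, a γ' * (if γ = γ' then 1 else 0) := by
    rw [fs, map_sum, Finset.sum_apply]
    refine sum_congr rfl fun γ' _ => ?_
    rw [map_smul, Pi.smul_apply, co_e, smul_eq_mul]
  rw [h1]
  split_ifs with h
  · rw [sum_eq_single_of_mem γ h]
    · simp
    · intro γ' _ hne
      rw [if_neg (Ne.symm hne), mul_zero]
  · refine sum_eq_zero fun γ' hγ' => ?_
    have hne : γ ≠ γ' := fun h' => h (by rw [h']; exact hγ')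
    rw [if_neg hne, mul_zero]

lemma abs_co_fs_le {G : Finset Γ} {a : Γ → ℝ} {η : ℝ} (hη : 0 ≤ η) (h : ∀ γ ∈ G, |a γ| ≤ η)
    (γ : Γ) : |co (fs G a) γ| ≤ η := by
  classical
  rw [co_fs]
  split_ifs with hγ
  · exact h γ hγ
  · simpa using hη

lemma fs_mono_abs {G : Finset Γ} {a : Γ → ℝ} {z : X Γ} (h : ∀ γ ∈ G, |a γ| ≤ |co z γ|) (γ : Γ) :
    |co (fs G a) γ| ≤ |co z γ| := by
  classical
  rw [co_fs]
  split_ifs with hγ
  · exact h γ hγ
  · simp

lemma norm_fs_co_le (G : Finset Γ) (y : X Γ) : ‖fs G (co y)‖ ≤ ‖y‖ :=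
  norm_mono (fs_mono_abs fun _ _ => le_rfl)

lemma q_fs_le (G : Finset Γ) (a : Γ → ℝ) (m : ℕ) : q (fs G a) m ≤ (1 / 2) ^ m * ∑ γ ∈ G, |a γ| := by
  classical
  apply mul_le_mul_of_nonneg_left _ (by positivity)
  refine S_le fun F _ => ?_
  have h1 : ∑ γ ∈ F, |co (fs G a) γ| = ∑ γ ∈ F.filter (fun γ => γ ∈ G), |a γ| := by
    rw [sum_filter]
    refine sum_congr rfl fun γ _ => ?_
    rw [co_fs]
    split_ifs <;> simp
  rw [h1]
  exact sum_le_sum_of_subset_of_nonneg (fun γ hγ => (mem_filter.mp hγ).2) fun _ _ _ => abs_nonneg _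

/-- lower estimate for many coordinates -/
lemma many_coords (y : X Γ) (m : ℕ) (F : Finset Γ) (hF : F.card = 4 ^ m) (η : ℝ)
    (h : ∀ γ ∈ F, η ≤ |co y γ|) : 2 ^ m * η ≤ ‖y‖ := by
  have h1 := le_S m y F hF.le
  have h2 : (4 : ℝ) ^ m * η ≤ ∑ γ ∈ F, |co y γ| := by
    calc _ = ∑ γ ∈ F, η := by rw [sum_const, nsmul_eq_mul, hF]; push_cast; ring
      _ ≤ _ := sum_le_sum h
  have h3 := q_le y m
  have h4 : (0 : ℝ) ≤ (1 / 2) ^ m := by positivity
  have h5 : (1 / 2) ^ m * (4 ^ m * η) ≤ q y m := mul_le_mul_of_nonneg_left (h2.trans h1) h4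
  have h6 : ((1 : ℝ) / 2) ^ m * (4 ^ m * η) = 2 ^ m * η := by
    rw [← mul_assoc, ← mul_pow]; norm_num
  linarith

lemma exists_pow_gt (C η : ℝ) (hη : 0 < η) : ∃ m : ℕ, C < 2 ^ m * η := by
  obtain ⟨m, hm⟩ := pow_unbounded_of_one_lt (C / η) (by norm_num : (1 : ℝ) < 2)
  exact ⟨m, by rwa [div_lt_iff₀ hη] at hm⟩

lemma finite_large {a : Γ → ℝ} {C : ℝ} (h : ∀ G : Finset Γ, ‖fs G a‖ ≤ C) {η : ℝ} (hη : 0 < η) :
    {γ | η < |a γ|}.Finite := by
  classical
  by_contra hinf
  obtain ⟨m, hm⟩ := exists_pow_gt C η hη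
  obtain ⟨G, hG, hcard⟩ := Set.Infinite.exists_subset_card_eq hinf (4 ^ m)
  have h1 := many_coords (fs G a) m G hcard η fun γ hγ => by
    rw [co_fs, if_pos hγ]
    exact (hG hγ : η < |a γ|).le
  have := h G
  linarith

/-- The unit vectors form a boundedly complete family. -/
theorem summable_of_bounded (a : Γ → ℝ) (C : ℝ) (h : ∀ G : Finset Γ, ‖fs G a‖ ≤ C) :
    Summable fun γ => a γ • e γ := by
  classical
  by_contra hns
  rw [summable_iff_vanishing_norm] at hns
  push Not at hns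
  obtain ⟨ε, hε, hs⟩ := hns
  have hs' : ∀ s : Finset Γ, ∃ t : Finset Γ, Disjoint t s ∧ ε ≤ ‖fs t a‖ := hs
  let Dset : Finset Γ → Set ℝ := fun s => {r | ∃ t : Finset Γ, Disjoint t s ∧ r = ‖fs t a‖}
  have hbdd : ∀ s, BddAbove (Dset s) := fun s => ⟨C, by rintro _ ⟨t, -, rfl⟩; exact h t⟩
  have hDε : ∀ s, ε ≤ sSup (Dset s) := fun s => by
    obtain ⟨t, ht, hte⟩ := hs' s
    exact hte.trans (le_csSup (hbdd s) ⟨t, ht, rfl⟩)
  set D : ℝ := ⨅ s, sSup (Dset s) with hD
  have hDb : BddBelow (Set.range fun s => sSup (Dset s)) := ⟨ε, by rintro _ ⟨s, rfl⟩; exact hDε s⟩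
  have hDpos : 0 < D := lt_of_lt_of_le hε (le_ciInf hDε)
  have hlow : ∀ s : Finset Γ, ∀ r < D, ∃ t : Finset Γ, Disjoint t s ∧ r < ‖fs t a‖ := by
    intro s r hr
    have h1 : r < sSup (Dset s) := lt_of_lt_of_le hr (ciInf_le hDb s)
    obtain ⟨_, ⟨t, ht, rfl⟩, h2⟩ := exists_lt_of_lt_csSup
      (by obtain ⟨t, ht, -⟩ := hs' s; exact ⟨_, t, ht, rfl⟩) h1
    exact ⟨t, ht, h2⟩
  obtain ⟨s0, hs0⟩ : ∃ s0, sSup (Dset s0) < (41 / 40) * D :=
    exists_lt_of_ciInf_lt (by rw [← hD]; linarith)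
  have hup : ∀ t : Finset Γ, Disjoint t s0 → ‖fs t a‖ ≤ (41 / 40) * D := fun t ht =>
    (le_csSup (hbdd s0) ⟨t, ht, rfl⟩).trans hs0.le
  -- the basic step
  have step : ∀ M : ℕ, ∃ (t : Finset Γ) (b : ℕ → ℝ) (M' : ℕ), Disjoint t s0 ∧ b ∈ B ∧ M ≤ M' ∧
      (∀ m, b m ≠ 0 → M ≤ m ∧ m < M') ∧
      (38 / 40) * D ≤ ∑ m ∈ range M', b m * q (fs t a) m := by
    intro M
    have hη : 0 < D / (40 * 2 ^ M) := by positivity
    have hfin := finite_large h hη
    obtain ⟨t, ht, htn⟩ := hlow (s0 ∪ hfin.toFinset) ((39 / 40) * D) (by linarith)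
    have ht0 : Disjoint t s0 := disjoint_of_subset_right subset_union_left ht
    have hsmall : ∀ γ, |co (fs t a) γ| ≤ D / (40 * 2 ^ M) := by
      refine abs_co_fs_le hη.le fun γ hγ => ?_
      by_contra hlt
      rw [not_le] at hlt
      have h1 : γ ∈ s0 ∪ hfin.toFinset := mem_union_right _ (hfin.mem_toFinset.mpr hlt)
      exact (Finset.disjoint_left.mp ht hγ) h1
    obtain ⟨b, hb, A, hA⟩ : ∃ b ∈ B, ∃ A : Finset ℕ,
        (39 / 40) * D < ∑ m ∈ A, b m * q (fs t a) m := by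
      by_contra hcon
      push Not at hcon
      have := norm_le_q (y := fs t a) (C := (39 / 40) * D) hcon
      linarith
    refine ⟨t, fun m => if M ≤ m ∧ m < max M (A.sup id + 1) then b m else 0,
      max M (A.sup id + 1), ht0, B.restrict hb _, le_max_left _ _, ?_, ?_⟩
    · intro m hm
      by_contra h0
      exact hm (by show (if _ then b m else 0) = 0; rw [if_neg h0])
    · set M' := max M (A.sup id + 1) with hM'
      have hq0 : ∀ m, 0 ≤ b m * q (fs t a) m := fun m =>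
        mul_nonneg (B.nonneg hb m) (q_nonneg _ m)
      have h1 : ∑ m ∈ A, b m * q (fs t a) m ≤ ∑ m ∈ range M', b m * q (fs t a) m := by
        refine sum_le_sum_of_subset_of_nonneg (fun m hm => ?_) fun m _ _ => hq0 m
        rw [mem_range]
        have : m ≤ A.sup id := le_sup (f := id) hm
        have := le_max_right M (A.sup id + 1)
        omega
      have h2 : ∑ m ∈ range M', b m * q (fs t a) m =
          ∑ m ∈ range M, b m * q (fs t a) m + ∑ m ∈ Ico M M', b m * q (fs t a) m :=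
        (sum_range_add_sum_Ico _ (le_max_left _ _)).symm
      have h3 : ∑ m ∈ range M', (if M ≤ m ∧ m < M' then b m else 0) * q (fs t a) m =
          ∑ m ∈ Ico M M', b m * q (fs t a) m := by
        have hsub : Ico M M' ⊆ range M' := fun m hm => by
          rw [mem_Ico] at hm; rw [mem_range]; exact hm.2
        rw [← sum_subset hsub (f := fun m => (if M ≤ m ∧ m < M' then b m else 0) * q (fs t a) m)]
        · refine sum_congr rfl fun m hm => ?_
          rw [if_pos (mem_Ico.mp hm)]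
        · intro m _ hm
          rw [if_neg (fun h' => hm (mem_Ico.mpr h')), zero_mul]
      have h4 : ∑ m ∈ range M, b m * q (fs t a) m ≤ D / 40 := by
        have h5 : ∀ m ∈ range M, b m * q (fs t a) m ≤ 2 ^ m * (D / (40 * 2 ^ M)) := by
          intro m _
          have h6 := q_le_sup hsmall hη.le m
          have h7 := B.le_one hb m
          have h8 := q_nonneg (fs t a) m
          nlinarith
        refine (sum_le_sum h5).trans ?_
        rw [← sum_mul]
        have h9 : ∑ m ∈ range M, (2 : ℝ) ^ m ≤ 2 ^ M := by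
          have := geom_sum_eq (show (2 : ℝ) ≠ 1 by norm_num) M
          rw [this]
          have h10 : (0 : ℝ) < 2 ^ M := by positivity
          linarith
        calc _ ≤ 2 ^ M * (D / (40 * 2 ^ M)) := mul_le_mul_of_nonneg_right h9 hη.le
          _ = D / 40 := by field_simp
      show (38 / 40) * D ≤ ∑ m ∈ range M', (if M ≤ m ∧ m < M' then b m else 0) * q (fs t a) m
      rw [h3]
      linarith
  choose tt bb MM htt hbb hMM hsupp hsum using step
  -- the first block and the following ones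
  set M₁ := MM 0 with hM₁
  let T : ℕ → ℕ := fun k => Nat.rec M₁ (fun _ M => MM M) k
  have hT0 : T 0 = M₁ := rfl
  have hTs : ∀ k, T (k + 1) = MM (T k) := fun k => rfl
  have hTmono : Monotone T := monotone_nat_of_le_succ fun k => by rw [hTs]; exact hMM _
  set n := 2 * M₁ + 1 with hn
  have hJ := james (hbb 0) (M := M₁) (fun m hm => by
    by_contra h0
    have := (hsupp 0 m h0).2
    omega) (n := n) (by omega) (by omega) hTmono (le_of_eq hT0.symm) (fun k => bb (T k))
    (fun k => hbb _) (fun k m hm => by rw [hTs]; exact hsupp _ m hm)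
  set G : Finset Γ := tt 0 ∪ (range n).biUnion fun k => tt (T k) with hG
  have hGs0 : Disjoint G s0 := by
    rw [hG, disjoint_union_left, disjoint_biUnion_left]
    exact ⟨htt 0, fun k _ => htt _⟩
  have hqG : ∀ t ⊆ G, ∀ m, q (fs t a) m ≤ q (fs G a) m := by
    intro t ht m
    refine q_mono (fun γ => fs_mono_abs (fun γ hγ => ?_) γ) m
    rw [co_fs, if_pos (ht hγ)]
  have hfin := q_le_norm (fs G a) hJ (range (T n))
  have hTM : ∀ k, k ≤ n → T k ≤ T n := fun k hk => hTmono hk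
  have h1 : (38 / 40) * D ≤ ∑ m ∈ range (T n), bb 0 m * q (fs G a) m := by
    refine (hsum 0).trans ?_
    calc _ ≤ ∑ m ∈ range (MM 0), bb 0 m * q (fs G a) m :=
          sum_le_sum fun m _ => mul_le_mul_of_nonneg_left (hqG _ subset_union_left m)
            (B.nonneg (hbb 0) m)
      _ ≤ _ := by
          refine sum_le_sum_of_subset_of_nonneg (fun m hm => ?_) fun m _ _ =>
            mul_nonneg (B.nonneg (hbb 0) m) (q_nonneg _ m)
          rw [mem_range] at hm ⊢
          have := hTM 0 (Nat.zero_le n)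
          omega
  have h2 : ∀ k ∈ range n, (38 / 40) * D ≤ ∑ m ∈ range (T n), bb (T k) m * q (fs G a) m := by
    intro k hk
    refine (hsum (T k)).trans ?_
    have hsub : tt (T k) ⊆ G := (subset_biUnion_of_mem (fun k => tt (T k)) hk).trans
      subset_union_right
    calc _ ≤ ∑ m ∈ range (MM (T k)), bb (T k) m * q (fs G a) m :=
          sum_le_sum fun m _ => mul_le_mul_of_nonneg_left (hqG _ hsub m)
            (B.nonneg (hbb _) m)
      _ ≤ _ := by
          refine sum_le_sum_of_subset_of_nonneg (fun m hm => ?_) fun m _ _ =>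
            mul_nonneg (B.nonneg (hbb _) m) (q_nonneg _ m)
          rw [mem_range] at hm hk ⊢
          have := hTM (k + 1) hk
          rw [hTs] at this
          omega
  have hnpos : (0 : ℝ) < n := by rw [hn]; positivity
  have h3 : ∑ m ∈ range (T n), (7 / 4 : ℝ)⁻¹ * (bb 0 m + (n : ℝ)⁻¹ * ∑ k ∈ range n, bb (T k) m) *
      q (fs G a) m = (7 / 4 : ℝ)⁻¹ * (∑ m ∈ range (T n), bb 0 m * q (fs G a) m +
      (n : ℝ)⁻¹ * ∑ k ∈ range n, ∑ m ∈ range (T n), bb (T k) m * q (fs G a) m) := by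
    rw [sum_comm (s := range n), mul_sum (s := range (T n)) (a := (n : ℝ)⁻¹), ← sum_add_distrib,
      mul_sum]
    refine sum_congr rfl fun m _ => ?_
    rw [← sum_mul]
    ring
  rw [h3] at hfin
  have h4 : (n : ℝ)⁻¹ * ∑ k ∈ range n, ∑ m ∈ range (T n), bb (T k) m * q (fs G a) m ≥
      (38 / 40) * D := by
    have h5 : (n : ℝ) * ((38 / 40) * D) ≤
        ∑ k ∈ range n, ∑ m ∈ range (T n), bb (T k) m * q (fs G a) m := by
      calc _ = ∑ k ∈ range n, (38 / 40) * D := by rw [sum_const, card_range, nsmul_eq_mul]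
        _ ≤ _ := sum_le_sum h2
    rw [ge_iff_le, le_inv_mul_iff₀ hnpos]
    exact h5
  have h6 := hup G hGs0
  have h7 : (7 / 4 : ℝ)⁻¹ = 4 / 7 := by norm_num
  rw [h7] at hfin
  linarith

end

end Pool.Agent.Helper519.TSpace
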