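import Mathlib
import Pool.Agent.Helper519.TBasis

set_option autoImplicit false

namespace Pool.Agent.Helper519.TSpace

open Finset Pool.Agent.Helper519.Tsirelson
open scoped ENNReal Topology

noncomputable section

variable {Γ : Type}

/-- coordinate functionals, continuous -/
def coL (γ : Γ) : X Γ →L[ℝ] ℝ :=
  LinearMap.mkContinuous
    { toFun := fun y => co y γ
      map_add' := fun y z => by rw [map_add, Pi.add_apply]
      map_smul' := fun c y => by rw [map_smul, Pi.smul_apply, RingHom.id_apply] } 1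
    (fun y => by rw [one_mul]; exact co_le y γ)

lemma coL_apply (γ : Γ) (y : X Γ) : coL γ y = co y γ := rfl

lemma hasSum_coord {a : Γ → ℝ} {z : X Γ} (h : HasSum (fun γ => a γ • e γ) z) : co z = a := by
  classical
  funext γ
  have h1 := h.mapL (coL γ)
  have h2 : HasSum (fun γ' => coL γ (a γ' • e γ')) (a γ) := by
    have h3 : (fun γ' => coL γ (a γ' • e γ')) = fun γ' => if γ' = γ then a γ else 0 := by
      funext γ'
      rw [coL_apply, map_smul, Pi.smul_apply, co_e, smul_eq_mul]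
      by_cases hγ : γ' = γ
      · subst hγ; simp
      · rw [if_neg hγ, if_neg (Ne.symm hγ), mul_zero]
    rw [h3]
    exact hasSum_ite_eq γ (a γ)
  exact h1.unique h2

theorem hasSum_co (y : X Γ) : HasSum (fun γ => co y γ • e γ) y := by
  have hs := summable_of_bounded (co y) ‖y‖ fun G => norm_fs_co_le G y
  have h1 := hs.hasSum
  have h2 := hasSum_coord h1
  have h3 : ∑' γ, co y γ • e γ = y := co_injective h2
  rwa [h3] at h1

theorem basis_unique (y : X Γ) : ∃! a : Γ → ℝ, HasSum (fun γ => a γ • e γ) y :=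
  ⟨co y, hasSum_co y, fun _ ha => (hasSum_coord ha).symm⟩

lemma tendsto_fs (y : X Γ) : Filter.Tendsto (fun G => fs G (co y)) Filter.atTop (𝓝 y) :=
  hasSum_co y

lemma exists_fs_near (y : X Γ) {ε : ℝ} (hε : 0 < ε) : ∃ G : Finset Γ, ‖y - fs G (co y)‖ < ε := by
  have := (Metric.tendsto_nhds.mp (tendsto_fs y) ε hε).exists
  obtain ⟨G, hG⟩ := this
  refine ⟨G, ?_⟩
  rwa [dist_comm, dist_eq_norm] at hG

lemma tail_small (y : X Γ) {ε : ℝ} (hε : 0 < ε) :
    ∃ M : ℕ, ∀ b ∈ B, ∀ A : Finset ℕ, (∀ m ∈ A, M ≤ m) → ∑ m ∈ A, b m * q y m ≤ ε := by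
  obtain ⟨G, hG⟩ := exists_fs_near y (half_pos hε)
  set s := ∑ γ ∈ G, |co y γ| with hs
  have hs0 : 0 ≤ s := sum_nonneg fun _ _ => abs_nonneg _
  obtain ⟨M, hM⟩ : ∃ M : ℕ, s * (2 * (1 / 2) ^ M) ≤ ε / 2 := by
    have h1 : (0 : ℝ) < ε / (4 * (s + 1)) := by positivity
    obtain ⟨M, hM⟩ := exists_pow_lt_of_lt_one h1 (by norm_num : (1 / 2 : ℝ) < 1)
    refine ⟨M, ?_⟩
    rw [lt_div_iff₀ (by positivity)] at hM
    have h2 : (0 : ℝ) ≤ (1 / 2) ^ M := by positivity
    nlinarith
  refine ⟨M, fun b hb A hA => ?_⟩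
  have h1 : ∀ m ∈ A, b m * q y m ≤ s * (1 / 2) ^ m + b m * q (y - fs G (co y)) m := by
    intro m _
    have hb0 := B.nonneg hb m
    have hb1 := B.le_one hb m
    have h2 : q y m ≤ q (fs G (co y)) m + q (y - fs G (co y)) m := by
      have := q_add (fs G (co y)) (y - fs G (co y)) m
      rwa [add_sub_cancel] at this
    have h3 := q_fs_le G (co y) m
    have h4 := q_nonneg (fs G (co y)) m
    have h5 := mul_le_mul_of_nonneg_left h2 hb0
    rw [mul_add] at h5
    have h6 : b m * q (fs G (co y)) m ≤ s * (1 / 2) ^ m := by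
      rw [mul_comm s]
      nlinarith
    linarith
  refine (sum_le_sum h1).trans ?_
  rw [sum_add_distrib, ← mul_sum]
  have h2 := q_le_norm (y - fs G (co y)) hb A
  have h3 := mul_le_mul_of_nonneg_left (geo_tail M A hA) hs0
  linarith

lemma head_small {y : X Γ} {η : ℝ} (h : ∀ γ, |co y γ| ≤ η) (hη : 0 ≤ η) {M : ℕ} {b : ℕ → ℝ}
    (hb : b ∈ B) {A : Finset ℕ} (hA : ∀ m ∈ A, m < M) : ∑ m ∈ A, b m * q y m ≤ 2 ^ M * η := by
  have h5 : ∀ m ∈ A, b m * q y m ≤ 2 ^ m * η := by
    intro m _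
    have h6 := q_le_sup h hη m
    have h7 := B.le_one hb m
    have h8 := q_nonneg y m
    nlinarith
  refine (sum_le_sum h5).trans ?_
  rw [← sum_mul]
  apply mul_le_mul_of_nonneg_right _ hη
  have h9 : ∑ m ∈ A, (2 : ℝ) ^ m ≤ ∑ m ∈ range M, (2 : ℝ) ^ m :=
    sum_le_sum_of_subset_of_nonneg (fun m hm => mem_range.mpr (hA m hm)) fun _ _ _ => by positivity
  refine h9.trans ?_
  have := geom_sum_eq (show (2 : ℝ) ≠ 1 by norm_num) M
  rw [this]
  have h10 : (0 : ℝ) < 2 ^ M := by positivity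
  linarith

/-- Almost disjoint blocks can be chosen in every set of bounded vectors whose sup-norms are not
bounded away from zero. -/
lemma blocks (V : Set (X Γ)) (h2 : ∀ η : ℝ, 0 < η → ∃ v ∈ V, ∀ γ, |co v γ| ≤ η) (N : ℕ) {ε : ℝ}
    (hε : 0 < ε) : ∃ (v : ℕ → X Γ) (T : ℕ → ℕ), Monotone T ∧ N ≤ T 0 ∧ (∀ k, v k ∈ V) ∧
      (∀ k, ∀ b ∈ B, ∀ A : Finset ℕ, (∀ m ∈ A, m < T k) → ∑ m ∈ A, b m * q (v k) m ≤ ε) ∧
      (∀ k, ∀ b ∈ B, ∀ A : Finset ℕ, (∀ m ∈ A, T (k + 1) ≤ m) →
        ∑ m ∈ A, b m * q (v k) m ≤ ε) := by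
  have step : ∀ M : ℕ, ∃ (v : X Γ) (M' : ℕ), v ∈ V ∧ M ≤ M' ∧
      (∀ b ∈ B, ∀ A : Finset ℕ, (∀ m ∈ A, m < M) → ∑ m ∈ A, b m * q v m ≤ ε) ∧
      (∀ b ∈ B, ∀ A : Finset ℕ, (∀ m ∈ A, M' ≤ m) → ∑ m ∈ A, b m * q v m ≤ ε) := by
    intro M
    obtain ⟨v, hv, hvs⟩ := h2 (ε / 2 ^ M) (by positivity)
    obtain ⟨M', hM'⟩ := tail_small v hε
    refine ⟨v, max M M', hv, le_max_left _ _, fun b hb A hA => ?_, fun b hb A hA => ?_⟩
    · have := head_small hvs (by positivity) hb hA
      refine this.trans (le_of_eq ?_)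
      field_simp
    · exact hM' b hb A fun m hm => (le_max_right _ _).trans (hA m hm)
  choose vv MM hvV hMM hhead htail using step
  let T : ℕ → ℕ := fun k => Nat.rec N (fun _ M => MM M) k
  have hTs : ∀ k, T (k + 1) = MM (T k) := fun k => rfl
  refine ⟨fun k => vv (T k), T, monotone_nat_of_le_succ fun k => by rw [hTs]; exact hMM _, le_rfl,
    fun k => hvV _, fun k => hhead _, fun k => ?_⟩
  rw [hTs]
  exact htail _

lemma q_sum_le {ι : Type*} (s : Finset ι) (α : ι → ℝ) (v : ι → X Γ) (m : ℕ) :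
    q (∑ k ∈ s, α k • v k) m ≤ ∑ k ∈ s, |α k| * q (v k) m := by
  classical
  induction s using Finset.induction_on with
  | empty =>
    simp only [sum_empty]
    have := q_smul 0 (0 : X Γ) m
    simpa using this
  | insert k s hk ih =>
    rw [sum_insert hk, sum_insert hk]
    refine (q_add _ _ m).trans (add_le_add (q_smul _ _ _) ih)

lemma q_smul_eq (c : ℝ) (y : X Γ) (m : ℕ) : q (c • y) m = |c| * q y m := by
  apply le_antisymm (q_smul c y m)
  by_cases hc : c = 0
  · subst hc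
    simpa using q_nonneg _ m
  · have h1 := q_smul c⁻¹ (c • y) m
    rw [smul_smul, inv_mul_cancel₀ hc, one_smul, abs_inv] at h1
    have h2 : 0 < |c| := abs_pos.mpr hc
    calc |c| * q y m ≤ |c| * (|c|⁻¹ * q (c • y) m) := mul_le_mul_of_nonneg_left h1 h2.le
      _ = _ := by rw [← mul_assoc, mul_inv_cancel₀ h2.ne', one_mul]

/-- Uniform copies of `c_0^n`. -/
theorem c0_blocks (V : Set (X Γ)) (h1 : ∀ v ∈ V, ‖v‖ ≤ 1)
    (h2 : ∀ η : ℝ, 0 < η → ∃ v ∈ V, ∀ γ, |co v γ| ≤ η) (n : ℕ) :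
    ∃ v : ℕ → X Γ, (∀ k, v k ∈ V) ∧
      (∀ (α : ℕ → ℝ) (c : ℝ), 0 ≤ c → (∀ k < n, |α k| ≤ c) →
        ‖∑ k ∈ range n, α k • v k‖ ≤ 9 / 4 * c) ∧
      (∀ (α : ℕ → ℝ) (j : ℕ), j < n → ‖v j‖ = 1 → (∀ k < n, |α k| ≤ |α j|) →
        |α j| / 2 ≤ ‖∑ k ∈ range n, α k • v k‖) := by
  classical
  have hnpos : (0 : ℝ) < n + 1 := by positivity
  set ε : ℝ := 1 / (8 * (n + 1)) with hεdef
  have hε : 0 < ε := by positivity
  have hε8 : ε ≤ 1 / 8 := by
    rw [hεdef]
    apply one_div_le_one_div_of_le (by norm_num)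
    have : (0 : ℝ) ≤ n := Nat.cast_nonneg n
    linarith
  have hnε : (n : ℝ) * ε ≤ 1 / 8 := by
    rw [hεdef, mul_one_div, div_le_iff₀ (by positivity)]
    linarith
  obtain ⟨v, T, hT, hN, hvV, hhead, htail⟩ := blocks V h2 n hε
  refine ⟨v, hvV, ?_, ?_⟩
  · intro α c hc hα
    refine norm_le_q fun b hb A => ?_
    have e1 : ∑ m ∈ A, b m * q (∑ k ∈ range n, α k • v k) m ≤
        c * ∑ k ∈ range n, ∑ m ∈ A, b m * q (v k) m := by
      rw [sum_comm, mul_sum]
      refine sum_le_sum fun m _ => ?_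
      have hb0 := B.nonneg hb m
      calc _ ≤ b m * ∑ k ∈ range n, |α k| * q (v k) m :=
            mul_le_mul_of_nonneg_left (q_sum_le _ _ _ m) hb0
        _ ≤ b m * ∑ k ∈ range n, c * q (v k) m := by
            apply mul_le_mul_of_nonneg_left _ hb0
            exact sum_le_sum fun k hk =>
              mul_le_mul_of_nonneg_right (hα k (mem_range.mp hk)) (q_nonneg _ m)
        _ = _ := by
            rw [← mul_sum, ← mul_sum]
            ring
    have e2 : ∀ k, ∑ m ∈ A, b m * q (v k) m ≤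
        2 * ε + ∑ m ∈ A with T k ≤ m ∧ m < T (k + 1), b m * q (v k) m := by
      intro k
      have e3 : ∑ m ∈ A, b m * q (v k) m = ∑ m ∈ A with m < T k, b m * q (v k) m +
          ∑ m ∈ A with ¬ m < T k, b m * q (v k) m := (sum_filter_add_sum_filter_not _ _ _).symm
      have e4 : ∑ m ∈ A with ¬ m < T k, b m * q (v k) m =
          ∑ m ∈ (A.filter fun m => ¬ m < T k) with m < T (k + 1), b m * q (v k) m +
          ∑ m ∈ (A.filter fun m => ¬ m < T k) with ¬ m < T (k + 1), b m * q (v k) m :=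
        (sum_filter_add_sum_filter_not _ _ _).symm
      have e5 := hhead k b hb (A.filter fun m => m < T k) fun m hm => (mem_filter.mp hm).2
      have e6 := htail k b hb ((A.filter fun m => ¬ m < T k).filter fun m => ¬ m < T (k + 1))
        fun m hm => not_lt.mp (mem_filter.mp hm).2
      have e7 : (A.filter fun m => ¬ m < T k).filter (fun m => m < T (k + 1)) =
          A.filter fun m => T k ≤ m ∧ m < T (k + 1) := by
        rw [filter_filter]
        apply filter_congr
        intro m _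
        rw [not_lt]
      rw [e7] at e4
      linarith
    have e8 : ∑ k ∈ range n, ∑ m ∈ A, b m * q (v k) m ≤ 9 / 4 := by
      refine (sum_le_sum fun k _ => e2 k).trans ?_
      rw [sum_add_distrib, sum_const, card_range, nsmul_eq_mul]
      have e9 := upper_c0 hb n hT hN (fun k m => q (v k) m) (fun k _ b' hb' A' _ =>
        (q_le_norm (v k) hb' A').trans (h1 _ (hvV k))) A
      linarith
    calc _ ≤ c * ∑ k ∈ range n, ∑ m ∈ A, b m * q (v k) m := e1
      _ ≤ c * (9 / 4) := mul_le_mul_of_nonneg_left e8 hc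
      _ = _ := by ring
  · intro α j hj hvj hα
    set x := ∑ k ∈ range n, α k • v k with hx
    obtain ⟨b, hb, A, hA⟩ : ∃ b ∈ B, ∃ A : Finset ℕ, 1 - ε < ∑ m ∈ A, b m * q (v j) m := by
      by_contra hcon
      push Not at hcon
      have := norm_le_q (y := v j) (C := 1 - ε) hcon
      linarith
    set A' := A.filter fun m => T j ≤ m ∧ m < T (j + 1) with hA'
    have hA'm : ∀ m ∈ A', T j ≤ m ∧ m < T (j + 1) := fun m hm => (mem_filter.mp hm).2
    have e1 : 1 - 3 * ε ≤ ∑ m ∈ A', b m * q (v j) m := by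
      have e3 : ∑ m ∈ A, b m * q (v j) m = ∑ m ∈ A with m < T j, b m * q (v j) m +
          ∑ m ∈ A with ¬ m < T j, b m * q (v j) m := (sum_filter_add_sum_filter_not _ _ _).symm
      have e4 : ∑ m ∈ A with ¬ m < T j, b m * q (v j) m =
          ∑ m ∈ (A.filter fun m => ¬ m < T j) with m < T (j + 1), b m * q (v j) m +
          ∑ m ∈ (A.filter fun m => ¬ m < T j) with ¬ m < T (j + 1), b m * q (v j) m :=
        (sum_filter_add_sum_filter_not _ _ _).symm
      have e5 := hhead j b hb (A.filter fun m => m < T j) fun m hm => (mem_filter.mp hm).2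
      have e6 := htail j b hb ((A.filter fun m => ¬ m < T j).filter fun m => ¬ m < T (j + 1))
        fun m hm => not_lt.mp (mem_filter.mp hm).2
      have e7 : (A.filter fun m => ¬ m < T j).filter (fun m => m < T (j + 1)) = A' := by
        rw [filter_filter]
        apply filter_congr
        intro m _
        rw [not_lt]
      rw [e7] at e4
      linarith
    have hjr : j ∈ range n := mem_range.mpr hj
    have e2 : ∀ m, |α j| * q (v j) m ≤ q x m + ∑ k ∈ (range n).erase j, |α k| * q (v k) m := by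
      intro m
      have e3 : α j • v j = x + -(∑ k ∈ (range n).erase j, α k • v k) := by
        rw [hx, ← add_sum_erase _ _ hjr]
        abel
      rw [← q_smul_eq, e3]
      refine (q_add _ _ m).trans ?_
      rw [q_neg]
      have := q_sum_le ((range n).erase j) α v m
      linarith
    have e4 : |α j| * ∑ m ∈ A', b m * q (v j) m ≤
        ∑ m ∈ A', b m * q x m + ∑ k ∈ (range n).erase j, |α k| * ∑ m ∈ A', b m * q (v k) m := by
      have e5 : ∑ k ∈ (range n).erase j, |α k| * ∑ m ∈ A', b m * q (v k) m =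
          ∑ m ∈ A', b m * ∑ k ∈ (range n).erase j, |α k| * q (v k) m := by
        simp only [mul_sum]
        rw [sum_comm]
        exact sum_congr rfl fun m _ => sum_congr rfl fun k _ => by ring
      rw [e5, mul_sum, ← sum_add_distrib]
      refine sum_le_sum fun m _ => ?_
      have := mul_le_mul_of_nonneg_left (e2 m) (B.nonneg hb m)
      linarith
    have e6 : ∀ k ∈ (range n).erase j, |α k| * ∑ m ∈ A', b m * q (v k) m ≤ |α j| * ε := by
      intro k hk
      rw [mem_erase, mem_range] at hk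
      have e7 : ∑ m ∈ A', b m * q (v k) m ≤ ε := by
        rcases lt_or_gt_of_ne hk.1 with h | h
        · refine htail k b hb A' fun m hm => ?_
          exact (hT (show k + 1 ≤ j from h)).trans (hA'm m hm).1
        · refine hhead k b hb A' fun m hm => ?_
          exact lt_of_lt_of_le (hA'm m hm).2 (hT (show j + 1 ≤ k from h))
      have e8 : 0 ≤ ∑ m ∈ A', b m * q (v k) m :=
        sum_nonneg fun m _ => mul_nonneg (B.nonneg hb m) (q_nonneg _ m)
      calc _ ≤ |α j| * ∑ m ∈ A', b m * q (v k) m :=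
            mul_le_mul_of_nonneg_right (hα k hk.2) e8
        _ ≤ _ := mul_le_mul_of_nonneg_left e7 (abs_nonneg _)
    have e9 := sum_le_sum e6
    rw [sum_const, nsmul_eq_mul] at e9
    have e10 : (((range n).erase j).card : ℝ) ≤ n := by
      have : ((range n).erase j).card ≤ (range n).card := card_le_card (erase_subset _ _)
      rw [card_range] at this
      exact_mod_cast this
    have e11 := q_le_norm x hb A'
    have e12 : |α j| * (1 - 3 * ε) ≤ |α j| * ∑ m ∈ A', b m * q (v j) m :=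
      mul_le_mul_of_nonneg_left e1 (abs_nonneg _)
    have e13 : (((range n).erase j).card : ℝ) * (|α j| * ε) ≤ |α j| * (1 / 8) := by
      have h0 : 0 ≤ |α j| * ε := by positivity
      calc _ ≤ (n : ℝ) * (|α j| * ε) := mul_le_mul_of_nonneg_right e10 h0
        _ = |α j| * (n * ε) := by ring
        _ ≤ _ := mul_le_mul_of_nonneg_left hnε (abs_nonneg _)
    have e14 : |α j| * (5 / 8) ≤ |α j| * (1 - 3 * ε) := by
      apply mul_le_mul_of_nonneg_left _ (abs_nonneg _)
      linarith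
    linarith

end

end Pool.Agent.Helper519.TSpace
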