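import Mathlib
import Pool.Agent.Helper519.TBlocks

set_option autoImplicit false

namespace Pool.Agent.Helper519.TSpace

open Finset Pool.Agent.Helper519.Tsirelson
open scoped ENNReal Topology

noncomputable section

variable {Γ : Type}

lemma finite_co (y : X Γ) {η : ℝ} (hη : 0 < η) : {γ | η < |co y γ|}.Finite :=
  finite_large (C := ‖y‖) (fun G => norm_fs_co_le G y) hη

/-- one step in an infinite-dimensional subspace -/
lemma sub_step (Y : Submodule ℝ (X Γ)) (hY : ¬ FiniteDimensional ℝ Y) (F : Finset Γ) :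
    ∃ y ∈ Y, ∃ γ : Γ, (∀ γ' ∈ F, co y γ' = 0) ∧ (∀ γ', |co y γ'| ≤ 1) ∧ 1 / 2 ≤ |co y γ| := by
  classical
  let R : Y →ₗ[ℝ] (F → ℝ) :=
    { toFun := fun y γ => co (y : X Γ) γ
      map_add' := fun y z => by
        funext γ
        simp
      map_smul' := fun c y => by
        funext γ
        simp }
  have hR : ¬ Function.Injective R := fun hinj => hY (Module.Finite.of_injective R hinj)
  rw [← LinearMap.ker_eq_bot, Submodule.eq_bot_iff] at hR
  push Not at hR
  obtain ⟨y, hy, hy0⟩ := hR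
  have hyF : ∀ γ' ∈ F, co (y : X Γ) γ' = 0 := fun γ' hγ' =>
    congrFun (LinearMap.mem_ker.mp hy) ⟨γ', hγ'⟩
  have hyX : (y : X Γ) ≠ 0 := fun h => hy0 (Subtype.ext h)
  have hex : ∃ γ, co (y : X Γ) γ ≠ 0 := by
    by_contra hcon
    push Not at hcon
    apply hyX
    apply co_injective
    rw [map_zero]
    funext γ
    exact hcon γ
  obtain ⟨γ0, hγ0⟩ := hex
  let s : Set ℝ := Set.range fun γ => |co (y : X Γ) γ|
  have hsb : BddAbove s := ⟨‖(y : X Γ)‖, by rintro _ ⟨γ, rfl⟩; exact co_le _ γ⟩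
  have hpos : 0 < sSup s := lt_of_lt_of_le (abs_pos.mpr hγ0) (le_csSup hsb ⟨γ0, rfl⟩)
  obtain ⟨_, ⟨γ, rfl⟩, hγ⟩ := exists_lt_of_lt_csSup (s := s) ⟨_, γ0, rfl⟩ (half_lt_self hpos)
  refine ⟨(sSup s)⁻¹ • (y : X Γ), Y.smul_mem _ y.2, γ, fun γ' hγ' => ?_, fun γ' => ?_, ?_⟩
  · rw [map_smul, Pi.smul_apply, hyF γ' hγ', smul_zero]
  · rw [map_smul, Pi.smul_apply, smul_eq_mul, abs_mul, abs_inv, abs_of_pos hpos,
      inv_mul_le_iff₀ hpos, mul_one]
    exact le_csSup hsb ⟨γ', rfl⟩
  · rw [map_smul, Pi.smul_apply, smul_eq_mul, abs_mul, abs_inv, abs_of_pos hpos,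
      le_inv_mul_iff₀ hpos]
    simp only at hγ
    linarith

/-- Infinite-dimensional subspaces contain unit vectors with small coordinates. -/
theorem exists_small (Y : Submodule ℝ (X Γ)) (hY : ¬ FiniteDimensional ℝ Y) (η : ℝ) (hη : 0 < η) :
    ∃ v ∈ {v : X Γ | v ∈ Y ∧ ‖v‖ = 1}, ∀ γ, |co v γ| ≤ η := by
  classical
  by_contra hcon
  push Not at hcon
  have hbig : ∀ y ∈ Y, ∀ s : ℝ, (∀ γ, |co y γ| ≤ s) → η * ‖y‖ ≤ s := by
    intro y hy s hs
    by_cases hy0 : y = 0
    · subst hy0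
      obtain ⟨-, -, γ, -⟩ := sub_step Y hY ∅
      have := (abs_nonneg _).trans (hs γ)
      simpa using this
    · have hn : 0 < ‖y‖ := norm_pos_iff.mpr hy0
      obtain ⟨γ, hγ⟩ := hcon (‖y‖⁻¹ • y) ⟨Y.smul_mem _ hy, by
        rw [norm_smul, norm_inv, norm_norm, inv_mul_cancel₀ hn.ne']⟩
      rw [map_smul, Pi.smul_apply, smul_eq_mul, abs_mul, abs_inv, abs_of_pos hn,
        lt_inv_mul_iff₀ hn] at hγ
      have := hs γ
      linarith
  obtain ⟨m, hm⟩ := exists_pow_gt 5 η hη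
  set n := 4 ^ m with hn
  have hnpos : (0 : ℝ) < n := by rw [hn]; positivity
  set θ : ℝ := 1 / (4 * n) with hθ
  have hθpos : 0 < θ := by positivity
  have hnθ : (n : ℝ) * θ = 1 / 4 := by rw [hθ]; field_simp
  have hn1 : (1 : ℝ) ≤ n := by
    rw [hn]; exact_mod_cast Nat.one_le_pow _ _ (by norm_num)
  have hθ4 : θ ≤ 1 / 4 := by nlinarith
  choose yy hyY gg hyF hy1 hyg using sub_step Y hY
  let FF : Finset Γ → Finset Γ := fun F => F ∪ (finite_co (yy F) hθpos).toFinset
  let Fs : ℕ → Finset Γ := fun k => Nat.rec ∅ (fun _ F => FF F) k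
  have hFs : ∀ k, Fs (k + 1) = FF (Fs k) := fun k => rfl
  have hFmono : Monotone Fs := monotone_nat_of_le_succ fun k => by
    rw [hFs]; exact subset_union_left
  have hlarge : ∀ k γ, θ < |co (yy (Fs k)) γ| → γ ∈ Fs (k + 1) := by
    intro k γ h
    rw [hFs]
    exact mem_union_right _ ((finite_co (yy (Fs k)) hθpos).mem_toFinset.mpr h)
  have hzero : ∀ j k γ, j < k → θ < |co (yy (Fs j)) γ| → co (yy (Fs k)) γ = 0 := by
    intro j k γ hjk h
    exact hyF _ _ (hFmono (show j + 1 ≤ k from hjk) (hlarge j γ h))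
  let x : X Γ := ∑ k ∈ range n, yy (Fs k)
  have hcox : ∀ γ, co x γ = ∑ k ∈ range n, co (yy (Fs k)) γ := by
    intro γ
    show co (∑ k ∈ range n, yy (Fs k)) γ = _
    rw [map_sum, Finset.sum_apply]
  have hxY : x ∈ Y := Y.sum_mem fun k _ => hyY _
  have hx1 : ∀ γ, |co x γ| ≤ 5 / 4 := by
    intro γ
    rw [hcox]
    refine (abs_sum_le_sum_abs _ _).trans ?_
    have h1 : ∀ k ∈ range n, |co (yy (Fs k)) γ| ≤
        θ + (if θ < |co (yy (Fs k)) γ| then (1 : ℝ) else 0) := by
      intro k _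
      split_ifs with h
      · have := hy1 (Fs k) γ
        linarith
      · rw [add_zero]; exact not_lt.mp h
    refine (sum_le_sum h1).trans ?_
    rw [sum_add_distrib, sum_const, card_range, nsmul_eq_mul, hnθ, sum_ite, sum_const_zero,
      add_zero, sum_const, nsmul_eq_mul, mul_one]
    have h2 : ((range n).filter fun k => θ < |co (yy (Fs k)) γ|).card ≤ 1 := by
      rw [card_le_one]
      intro i hi j hj
      rw [mem_filter] at hi hj
      rcases lt_trichotomy i j with h | h | h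
      · have := hzero i j γ h hi.2
        rw [this, abs_zero] at hj
        exact absurd hj.2 (not_lt.mpr hθpos.le)
      · exact h
      · have := hzero j i γ h hj.2
        rw [this, abs_zero] at hi
        exact absurd hi.2 (not_lt.mpr hθpos.le)
    have h3 : (((range n).filter fun k => θ < |co (yy (Fs k)) γ|).card : ℝ) ≤ 1 := by
      exact_mod_cast h2
    linarith
  have hgθ : ∀ k, θ < |co (yy (Fs k)) (gg (Fs k))| := fun k => by
    have := hyg (Fs k)
    linarith
  have hgnot : ∀ j k, j < k → ¬ θ < |co (yy (Fs j)) (gg (Fs k))| := by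
    intro j k hjk h
    have h1 := hzero j k _ hjk h
    have h2 := hgθ k
    rw [h1, abs_zero] at h2
    linarith
  have hx2 : ∀ k ∈ range n, 1 / 4 ≤ |co x (gg (Fs k))| := by
    intro k hk
    have h1 : co x (gg (Fs k)) = co (yy (Fs k)) (gg (Fs k)) +
        ∑ j ∈ (range n).erase k, co (yy (Fs j)) (gg (Fs k)) := by
      rw [hcox, ← add_sum_erase _ _ hk]
    have h2 : |∑ j ∈ (range n).erase k, co (yy (Fs j)) (gg (Fs k))| ≤ 1 / 4 := by
      refine (abs_sum_le_sum_abs _ _).trans ?_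
      have h3 : ∀ j ∈ (range n).erase k, |co (yy (Fs j)) (gg (Fs k))| ≤ θ := by
        intro j hj
        rw [mem_erase] at hj
        rcases lt_or_gt_of_ne hj.1 with h | h
        · exact not_lt.mp (hgnot j k h)
        · rw [hzero k j _ h (hgθ k), abs_zero]
          exact hθpos.le
      refine (sum_le_sum h3).trans ?_
      rw [sum_const, nsmul_eq_mul, ← hnθ]
      apply mul_le_mul_of_nonneg_right _ hθpos.le
      have : ((range n).erase k).card ≤ n := by
        have := card_le_card (erase_subset k (range n))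
        rwa [card_range] at this
      exact_mod_cast this
    have h4 := hyg (Fs k)
    have h5 := abs_sub_abs_le_abs_add (co (yy (Fs k)) (gg (Fs k)))
      (∑ j ∈ (range n).erase k, co (yy (Fs j)) (gg (Fs k)))
    rw [h1]
    linarith
  have hinj : Set.InjOn (fun k => gg (Fs k)) (range n : Set ℕ) := by
    intro i _ j _ hij
    simp only at hij
    rcases lt_trichotomy i j with h | h | h
    · exact absurd (by rw [← hij]; exact hgθ i) (hgnot i j h)
    · exact h
    · exact absurd (by rw [hij]; exact hgθ j) (hgnot j i h)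
  have hfin := many_coords x m ((range n).image fun k => gg (Fs k))
    (by rw [card_image_of_injOn hinj, card_range]) (1 / 4) (by
      intro γ hγ
      obtain ⟨k, hk, rfl⟩ := mem_image.mp hγ
      exact hx2 k hk)
  have h1 := hbig x hxY _ hx1
  have h2 : η * (2 ^ m * (1 / 4)) ≤ η * ‖x‖ := mul_le_mul_of_nonneg_left hfin hη.le
  linarith

/-- The unit vectors form a shrinking family. -/
theorem shrinking (f : X Γ →L[ℝ] ℝ) (ε : ℝ) (hε : 0 < ε) :
    ∃ F : Finset Γ, ∀ y : X Γ, ‖y‖ ≤ 1 → (∀ γ ∈ F, co y γ = 0) → f y ≤ ε := by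
  classical
  by_contra hcon
  push Not at hcon
  -- finitely supported vectors
  have hstep : ∀ F : Finset Γ, ∃ (y : X Γ) (G : Finset Γ), ‖y‖ ≤ 1 ∧ (∀ γ ∈ F, co y γ = 0) ∧
      (∀ γ, γ ∉ G → co y γ = 0) ∧ ε < f y := by
    intro F
    obtain ⟨y, hy1, hyF, hy⟩ := hcon F
    have h1 : Filter.Tendsto (fun G => f (fs G (co y))) Filter.atTop (𝓝 (f y)) :=
      (f.continuous.tendsto y).comp (tendsto_fs y)
    obtain ⟨G, hG⟩ := (h1.eventually (lt_mem_nhds hy)).exists
    refine ⟨fs G (co y), G, (norm_fs_co_le G y).trans hy1, fun γ hγ => ?_, fun γ hγ => ?_, hG⟩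
    · rw [co_fs, hyF γ hγ]; simp
    · rw [co_fs, if_neg hγ]
  choose yy GG hy1 hyF hyG hyf using hstep
  let Fs : ℕ → Finset Γ := fun k => Nat.rec ∅ (fun _ F => F ∪ GG F) k
  have hFs : ∀ k, Fs (k + 1) = Fs k ∪ GG (Fs k) := fun k => rfl
  have hFmono : Monotone Fs := monotone_nat_of_le_succ fun k => by
    rw [hFs]; exact subset_union_left
  have hzero : ∀ j k γ, j < k → co (yy (Fs j)) γ ≠ 0 → co (yy (Fs k)) γ = 0 := by
    intro j k γ hjk h
    apply hyF
    apply hFmono (show j + 1 ≤ k from hjk)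
    rw [hFs]
    apply mem_union_right
    by_contra hG
    exact h (hyG _ _ hG)
  let V : Set (X Γ) := {v | ‖v‖ ≤ 1 ∧ ε < f v}
  have hV2 : ∀ η : ℝ, 0 < η → ∃ v ∈ V, ∀ γ, |co v γ| ≤ η := by
    intro η hη
    obtain ⟨n, hn⟩ := exists_nat_gt (1 / η)
    have hn0 : (0 : ℝ) < n := lt_trans (by positivity) hn
    have hninv : (n : ℝ)⁻¹ ≤ η := by
      rw [inv_le_comm₀ hn0 hη, ← one_div]
      exact hn.le
    refine ⟨(n : ℝ)⁻¹ • ∑ k ∈ range n, yy (Fs k), ⟨?_, ?_⟩, fun γ => ?_⟩
    · rw [norm_smul, norm_inv, RCLike.norm_natCast, inv_mul_le_iff₀ hn0, mul_one]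
      refine (norm_sum_le _ _).trans ((sum_le_sum fun k _ => hy1 (Fs k)).trans ?_)
      simp
    · rw [map_smul, smul_eq_mul, lt_inv_mul_iff₀ hn0, map_sum]
      calc (n : ℝ) * ε = ∑ k ∈ range n, ε := by rw [sum_const, card_range, nsmul_eq_mul]
        _ < _ := by
          apply sum_lt_sum_of_nonempty
          · rw [nonempty_range_iff]
            rintro rfl
            simp at hn0
          · exact fun k _ => hyf _
    · rw [map_smul, Pi.smul_apply, smul_eq_mul, abs_mul, abs_inv, abs_of_pos hn0]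
      have h1 : |co (∑ k ∈ range n, yy (Fs k)) γ| ≤ 1 := by
        rw [map_sum, Finset.sum_apply]
        by_cases hex : ∃ k ∈ range n, co (yy (Fs k)) γ ≠ 0
        · obtain ⟨k, hk, hkγ⟩ := hex
          rw [sum_eq_single_of_mem k hk]
          · exact (co_le _ γ).trans (hy1 _)
          · intro j _ hjk
            by_contra hj
            rcases lt_or_gt_of_ne hjk with h | h
            · exact hkγ (hzero j k γ h hj)
            · exact hj (hzero k j γ h hkγ)
        · push Not at hex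
          rw [sum_eq_zero hex, abs_zero]
          exact zero_le_one
      calc (n : ℝ)⁻¹ * |co (∑ k ∈ range n, yy (Fs k)) γ| ≤ (n : ℝ)⁻¹ * 1 :=
            mul_le_mul_of_nonneg_left h1 (by positivity)
        _ ≤ η := by rw [mul_one]; exact hninv
  obtain ⟨N, hN⟩ := exists_nat_gt (‖f‖ * (9 / 4) / ε)
  obtain ⟨v, hvV, hup, -⟩ := c0_blocks V (fun v hv => hv.1) hV2 N
  have h1 := hup (fun _ => 1) 1 zero_le_one fun k _ => by simp
  have h2 : (N : ℝ) * ε ≤ f (∑ k ∈ range N, (fun _ : ℕ => (1 : ℝ)) k • v k) := by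
    rw [map_sum]
    calc (N : ℝ) * ε = ∑ k ∈ range N, ε := by rw [sum_const, card_range, nsmul_eq_mul]
      _ ≤ _ := sum_le_sum fun k _ => by
        simp only [one_smul]
        exact (hvV k).2.le
  have h3 := (le_abs_self _).trans (f.le_opNorm (∑ k ∈ range N, (fun _ : ℕ => (1 : ℝ)) k • v k))
  have h4 := mul_le_mul_of_nonneg_left h1 (norm_nonneg f)
  rw [div_lt_iff₀ hε] at hN
  linarith

/-- The space is reflexive. -/
theorem reflexive (φ : (X Γ →L[ℝ] ℝ) →L[ℝ] ℝ) : ∃ x : X Γ, ∀ f : X Γ →L[ℝ] ℝ, φ f = f x := by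
  classical
  let a : Γ → ℝ := fun γ => φ (coL γ)
  have hproj : ∀ (f : X Γ →L[ℝ] ℝ) (G : Finset Γ) (y : X Γ),
      (∑ γ ∈ G, f (e γ) • coL γ) y = f (fs G (co y)) := by
    intro f G y
    rw [fs, map_sum, _root_.sum_apply]
    refine sum_congr rfl fun γ _ => ?_
    rw [smul_apply, coL_apply, map_smul, smul_eq_mul, smul_eq_mul, mul_comm]
  have hφ : ∀ (f : X Γ →L[ℝ] ℝ) (G : Finset Γ),
      φ (∑ γ ∈ G, f (e γ) • coL γ) = f (fs G a) := by
    intro f G
    rw [fs, map_sum, map_sum]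
    refine sum_congr rfl fun γ _ => ?_
    rw [map_smul, map_smul, smul_eq_mul, smul_eq_mul, mul_comm]
  have hbound : ∀ G : Finset Γ, ‖fs G a‖ ≤ ‖φ‖ := by
    intro G
    obtain ⟨g, hg1, hg⟩ := exists_dual_vector'' ℝ (fs G a)
    have h1 : ‖∑ γ ∈ G, g (e γ) • coL γ‖ ≤ 1 := by
      refine ContinuousLinearMap.opNorm_le_bound _ zero_le_one fun y => ?_
      rw [hproj]
      calc _ ≤ ‖g‖ * ‖fs G (co y)‖ := g.le_opNorm _
        _ ≤ 1 * ‖y‖ := mul_le_mul hg1 (norm_fs_co_le G y) (norm_nonneg _) zero_le_one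
    have h2 : ‖fs G a‖ = φ (∑ γ ∈ G, g (e γ) • coL γ) := by
      rw [hφ]
      simpa using hg.symm
    rw [h2]
    calc _ ≤ ‖φ (∑ γ ∈ G, g (e γ) • coL γ)‖ := le_abs_self _
      _ ≤ ‖φ‖ * ‖∑ γ ∈ G, g (e γ) • coL γ‖ := φ.le_opNorm _
      _ ≤ ‖φ‖ * 1 := mul_le_mul_of_nonneg_left h1 φ.opNorm_nonneg
      _ = _ := mul_one _
  have hs := summable_of_bounded a ‖φ‖ hbound
  refine ⟨∑' γ, a γ • e γ, fun f => ?_⟩
  have h1 : Filter.Tendsto (fun G => f (fs G a)) Filter.atTop (𝓝 (f (∑' γ, a γ • e γ))) :=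
    (f.continuous.tendsto _).comp hs.hasSum
  have h2 : Filter.Tendsto (fun G : Finset Γ => ∑ γ ∈ G, f (e γ) • coL γ) Filter.atTop (𝓝 f) := by
    rw [Metric.tendsto_nhds]
    intro ε hε
    obtain ⟨F₁, hF₁⟩ := shrinking f (ε / 2) (half_pos hε)
    filter_upwards [Filter.eventually_ge_atTop F₁] with G hG
    rw [dist_comm, dist_eq_norm]
    refine lt_of_le_of_lt ?_ (half_lt_self hε)
    have key : ∀ y : X Γ, ‖y‖ ≤ 1 → f (y - fs G (co y)) ≤ ε / 2 := by
      intro y hy
      apply hF₁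
      · refine (norm_mono (z := y) fun γ => ?_).trans hy
        rw [map_sub, Pi.sub_apply, co_fs]
        split_ifs
        · simp
        · simp
      · intro γ hγ
        rw [map_sub, Pi.sub_apply, co_fs, if_pos (hG hγ), sub_self]
    refine ContinuousLinearMap.opNorm_le_of_unit_norm (half_pos hε).le fun y hy => ?_
    rw [sub_apply, hproj, ← map_sub, Real.norm_eq_abs, abs_le]
    constructor
    · have h3 := key (-y) (by rw [norm_neg]; exact hy.le)
      have h4 : -y - fs G (co (-y)) = -(y - fs G (co y)) := by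
        apply co_injective
        funext γ
        simp only [map_sub, map_neg, Pi.sub_apply, Pi.neg_apply, co_fs]
        split_ifs <;> ring
      rw [h4, map_neg] at h3
      linarith
    · exact key y hy.le
  have h3 : Filter.Tendsto (fun G : Finset Γ => φ (∑ γ ∈ G, f (e γ) • coL γ)) Filter.atTop
      (𝓝 (φ f)) := (φ.continuous.tendsto f).comp h2
  have h4 : (fun G : Finset Γ => φ (∑ γ ∈ G, f (e γ) • coL γ)) = fun G => f (fs G a) := by
    funext G
    exact hφ f G
  rw [h4] at h3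
  exact tendsto_nhds_unique h3 h1

end

end Pool.Agent.Helper519.TSpace
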