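import Mathlib
import Pool.Agent.Helper519.TMain

set_option autoImplicit false

namespace Pool.Agent.Helper519.TSpace

open Finset Pool.Agent.Helper519.Tsirelson
open scoped ENNReal Topology ZeroAtInfty

noncomputable section

lemma co_fs_finsupp {Γ : Type} (a : Γ →₀ ℝ) : co (fs a.support a) = a := by
  classical
  funext γ
  rw [co_fs]
  split_ifs with h
  · rfl
  · exact (Finsupp.notMem_support_iff.mp h).symm

theorem exists_dense : ∃ D : Set (X ℝ), Dense D ∧ Cardinal.mk D = Cardinal.continuum := by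
  classical
  refine ⟨Set.range fun a : ℝ →₀ ℝ => fs a.support a, ?_, ?_⟩
  · rw [Metric.dense_iff]
    intro y r hr
    obtain ⟨G, hG⟩ := exists_fs_near y hr
    let a : ℝ →₀ ℝ := Finsupp.onFinset G (fun γ => if γ ∈ G then co y γ else 0) fun γ h => by
      by_contra hγ
      exact h (if_neg hγ)
    refine ⟨fs G (co y), ?_, a, ?_⟩
    · rw [Metric.mem_ball, dist_comm, dist_eq_norm]
      exact hG
    · apply co_injective
      show co (fs a.support a) = _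
      rw [co_fs_finsupp]
      funext γ
      rw [co_fs]
      rfl
  · rw [Cardinal.mk_range_eq]
    · rw [Cardinal.mk_finsupp_of_infinite, max_self, Cardinal.mk_real]
    · intro a b h
      have h1 : co (fs a.support a) = co (fs b.support b) := congrArg co h
      rw [co_fs_finsupp, co_fs_finsupp] at h1
      exact DFunLike.coe_injective h1

theorem dense_card (D : Set (X ℝ)) (hD : Dense D) : Cardinal.continuum ≤ Cardinal.mk D := by
  classical
  have h1 : ∀ γ : ℝ, ∃ d ∈ D, ‖e γ - d‖ < 1 / 2 := by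
    intro γ
    obtain ⟨d, hd1, hd2⟩ := Metric.dense_iff.mp hD (e γ) (1 / 2) (by norm_num)
    refine ⟨d, hd2, ?_⟩
    rwa [Metric.mem_ball, dist_comm, dist_eq_norm] at hd1
  choose d hdD hd using h1
  have hinj : Function.Injective fun γ => (⟨d γ, hdD γ⟩ : D) := by
    intro γ γ' h
    by_contra hne
    have h2 : d γ = d γ' := congrArg Subtype.val h
    have h3 : ‖e γ - e γ'‖ < 1 := by
      have h4 : e γ - e γ' = (e γ - d γ) - (e γ' - d γ') := by rw [h2]; abel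
      rw [h4]
      calc _ ≤ ‖e γ - d γ‖ + ‖e γ' - d γ'‖ := norm_sub_le _ _
        _ < 1 := by
          have := hd γ
          have := hd γ'
          linarith
    have h4 := co_le (e γ - e γ') γ
    rw [map_sub, Pi.sub_apply, co_e, co_e, if_pos rfl, if_neg hne] at h4
    norm_num at h4
    linarith
  rw [← Cardinal.mk_real]
  exact Cardinal.mk_le_of_injective hinj

lemma exists_large_coord {v : C₀(ℕ, ℝ)} (hv : ‖v‖ = 1) : ∃ k, 1 / 2 < |v k| := by
  by_contra hcon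
  push Not at hcon
  have h1 : ‖v.toBCF‖ ≤ 1 / 2 := by
    rw [BoundedContinuousFunction.norm_le (by norm_num)]
    exact hcon
  rw [ZeroAtInftyContinuousMap.norm_toBCF_eq_norm, hv] at h1
  norm_num at h1

lemma c0_coord_le (v : C₀(ℕ, ℝ)) (k : ℕ) : |v k| ≤ ‖v‖ := by
  rw [← ZeroAtInftyContinuousMap.norm_toBCF_eq_norm]
  exact v.toBCF.norm_coe_le_norm k

lemma exists_n {E : Type*} [NormedAddCommGroup E] [NormedSpace ℝ E] [FiniteDimensional ℝ E]
    (c : ℕ → E →ₗ[ℝ] ℝ) (hn : ∀ v : E, ‖v‖ = 1 → ∃ k, 1 / 2 < |c k v|) :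
    ∃ n : ℕ, ∀ v : E, v ≠ 0 → ∃ k < n, ‖v‖ ≤ 2 * |c k v| := by
  have hcont : ∀ k : ℕ, Continuous fun v : E => |c k v| := fun k =>
    (LinearMap.continuous_of_finiteDimensional (c k)).abs
  have : ProperSpace E := FiniteDimensional.proper_real E
  have hcomp : IsCompact (Metric.sphere (0 : E) 1) := isCompact_sphere 0 1
  obtain ⟨s, hs⟩ := hcomp.elim_finite_subcover (fun k : ℕ => {v : E | 1 / 2 < |c k v|})
    (fun k => isOpen_lt continuous_const (hcont k)) (fun v hv => by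
      rw [mem_sphere_zero_iff_norm] at hv
      obtain ⟨k, hk⟩ := hn v hv
      exact Set.mem_iUnion.mpr ⟨k, hk⟩)
  refine ⟨s.sup id + 1, fun v hv => ?_⟩
  have hn : 0 < ‖v‖ := norm_pos_iff.mpr hv
  have hv1 : ‖v‖⁻¹ • v ∈ Metric.sphere (0 : E) 1 := by
    rw [mem_sphere_zero_iff_norm, norm_smul, norm_inv, norm_norm, inv_mul_cancel₀ hn.ne']
  obtain ⟨k, hks, hk⟩ := Set.mem_iUnion₂.mp (hs hv1)
  refine ⟨k, ?_, ?_⟩
  · have : k ≤ s.sup id := le_sup (f := id) hks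
    omega
  · have h1 : 1 / 2 < |c k (‖v‖⁻¹ • v)| := hk
    rw [map_smul, smul_eq_mul, abs_mul, abs_inv, abs_of_pos hn, lt_inv_mul_iff₀ hn] at h1
    linarith

theorem c0_saturated {Γ : Type} (Y : Submodule ℝ (X Γ)) (hY : ¬ FiniteDimensional ℝ Y) :
    ∃ K : ℝ, ∀ E : Submodule ℝ (C₀(ℕ, ℝ)), FiniteDimensional ℝ E →
      ∃ T : E →ₗ[ℝ] X Γ, (∀ v, T v ∈ Y) ∧ ∀ v : E, ‖v‖ ≤ ‖T v‖ ∧ ‖T v‖ ≤ K * ‖v‖ := by
  refine ⟨9, fun E hE => ?_⟩
  let c : ℕ → E →ₗ[ℝ] ℝ := fun k =>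
    { toFun := fun v => (v : C₀(ℕ, ℝ)) k
      map_add' := fun v w => rfl
      map_smul' := fun c v => rfl }
  obtain ⟨n, hn⟩ := exists_n (E := E) c
    (fun v hv => exists_large_coord (v := (v : C₀(ℕ, ℝ))) hv)
  obtain ⟨u, huV, hup, hlow⟩ := c0_blocks {v : X Γ | v ∈ Y ∧ ‖v‖ = 1} (fun v hv => hv.2.le)
    (exists_small Y hY) n
  let T : E →ₗ[ℝ] X Γ :=
    { toFun := fun v => (4 : ℝ) • ∑ k ∈ range n, (v : C₀(ℕ, ℝ)) k • u k
      map_add' := fun v w => by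
        rw [← smul_add, ← sum_add_distrib]
        congr 1
        refine sum_congr rfl fun k _ => ?_
        rw [← add_smul]
        rfl
      map_smul' := fun c v => by
        rw [RingHom.id_apply, smul_comm, smul_sum (r := c)]
        congr 1
        refine sum_congr rfl fun k _ => ?_
        rw [smul_smul]
        rfl }
  have hT : ∀ v, T v = (4 : ℝ) • ∑ k ∈ range n, (v : C₀(ℕ, ℝ)) k • u k := fun v => rfl
  refine ⟨T, fun v => ?_, fun v => ⟨?_, ?_⟩⟩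
  · rw [hT]
    exact Y.smul_mem _ (Y.sum_mem fun k _ => Y.smul_mem _ (huV k).1)
  · by_cases hv : v = 0
    · rw [hv]; simp
    obtain ⟨k₀, hk₀, hvk₀⟩ := hn v hv
    obtain ⟨j, hj, hjmax⟩ := exists_max_image (range n) (fun k => |(v : C₀(ℕ, ℝ)) k|)
      ⟨k₀, mem_range.mpr hk₀⟩
    have h1 := hlow (fun k => (v : C₀(ℕ, ℝ)) k) j (mem_range.mp hj) (huV j).2
      fun k hk => hjmax k (mem_range.mpr hk)
    have h2 : |(v : C₀(ℕ, ℝ)) k₀| ≤ |(v : C₀(ℕ, ℝ)) j| := hjmax k₀ (mem_range.mpr hk₀)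
    have h3 : ‖v‖ ≤ 2 * |(v : C₀(ℕ, ℝ)) k₀| := hvk₀
    have h4 : |(v : C₀(ℕ, ℝ)) j| / 2 ≤ ‖∑ k ∈ range n, (v : C₀(ℕ, ℝ)) k • u k‖ := h1
    rw [hT, norm_smul, Real.norm_ofNat]
    linarith
  · have h1 := hup (fun k => (v : C₀(ℕ, ℝ)) k) ‖v‖ (norm_nonneg v)
      fun k _ => c0_coord_le (v : C₀(ℕ, ℝ)) k
    have h2 : ‖∑ k ∈ range n, (v : C₀(ℕ, ℝ)) k • u k‖ ≤ 9 / 4 * ‖v‖ := h1
    rw [hT, norm_smul, Real.norm_ofNat]
    linarith

end

end Pool.Agent.Helper519.TSpace
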