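import Mathlib
import Pool.Agent.Helper519.Propagate

set_option autoImplicit false

namespace Pool.Agent.Helper519.Uniform

open scoped Topology NNReal
open Filter
open Pool.Agent.Helper519.Schauder Pool.Agent.Helper519.Renorm

noncomputable section

variable {𝕜 : Type*} [RCLike 𝕜] {E : Type*} [NormedAddCommGroup E] [NormedSpace 𝕜 E]

/-- the space `E` with the norm `p` -/
def Ren (p : Seminorm 𝕜 E) (_ : ∀ x, ‖x‖ ≤ p x) : Type _ := E

variable (p : Seminorm 𝕜 E) (hp : ∀ x, ‖x‖ ≤ p x)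

instance : AddCommGroup (Ren p hp) := inferInstanceAs (AddCommGroup E)

instance : Module 𝕜 (Ren p hp) := inferInstanceAs (Module 𝕜 E)

instance : NormedAddCommGroup (Ren p hp) :=
  AddGroupNorm.toNormedAddCommGroup
    { toFun := fun x : E => p x
      map_zero' := map_zero p
      add_le' := fun x y => map_add_le_add p x y
      neg' := fun x => map_neg_eq_map p x
      eq_zero_of_map_eq_zero' := fun x hx => by
        have h1 := hp x
        have h2 : p x = 0 := hx
        rw [h2] at h1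
        exact norm_le_zero_iff.mp h1 }

/-- the identity map -/
def φ : E ≃ₗ[𝕜] Ren p hp := LinearEquiv.refl 𝕜 E

lemma norm_φ (x : E) : ‖φ p hp x‖ = p x := rfl

instance : NormedSpace 𝕜 (Ren p hp) where
  norm_smul_le a x := by
    have h1 : p (a • (φ p hp).symm x) = ‖a‖ * p ((φ p hp).symm x) := map_smul_eq_mul p _ _
    exact h1.le

variable {p} {M : ℝ} (hM : ∀ x, p x ≤ M * ‖x‖)

include hM in
lemma tendsto_φ {x : ℕ → E} {y : E} (h : Tendsto x atTop (𝓝 y)) :
    Tendsto (fun n => φ p hp (x n)) atTop (𝓝 (φ p hp y)) := by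
  rw [tendsto_iff_norm_sub_tendsto_zero] at h ⊢
  have h1 : Tendsto (fun n => M * ‖x n - y‖) atTop (𝓝 0) := by
    simpa using h.const_mul M
  refine squeeze_zero (fun _ => norm_nonneg _) (fun n => ?_) h1
  rw [← map_sub, norm_φ]
  exact hM _

lemma tendsto_of_φ {x : ℕ → E} {y : E}
    (h : Tendsto (fun n => φ p hp (x n)) atTop (𝓝 (φ p hp y))) :
    Tendsto x atTop (𝓝 y) := by
  rw [tendsto_iff_norm_sub_tendsto_zero] at h ⊢
  refine squeeze_zero (fun _ => norm_nonneg _) (fun n => ?_) h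
  rw [← map_sub, norm_φ]
  exact hp _

include hM in
lemma basis_φ {e : ℕ → E} (h : IsBasis 𝕜 e) : IsBasis 𝕜 (fun n => φ p hp (e n)) := by
  intro x
  obtain ⟨y, rfl⟩ := (φ p hp).surjective x
  obtain ⟨a, ha, hu⟩ := h y
  have key : ∀ b : ℕ → 𝕜, (fun n : ℕ => ∑ i ∈ Finset.range n, b i • φ p hp (e i)) =
      fun n => φ p hp (∑ i ∈ Finset.range n, b i • e i) := by
    intro b
    funext n
    rw [map_sum]
    exact Finset.sum_congr rfl fun i _ => (map_smul _ _ _).symm
  refine ⟨a, ?_, fun b hb => hu b ?_⟩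
  · show Tendsto (fun n : ℕ => ∑ i ∈ Finset.range n, a i • φ p hp (e i)) atTop _
    rw [key]
    exact tendsto_φ hp hM ha
  · have hb' : Tendsto (fun n : ℕ => ∑ i ∈ Finset.range n, b i • φ p hp (e i)) atTop _ := hb
    rw [key] at hb'
    exact tendsto_of_φ hp hb'

lemma S_φ {e : ℕ → E} (h : IsBasis 𝕜 e) (h' : IsBasis 𝕜 (fun n => φ p hp (e n)))
    (hM : ∀ x, p x ≤ M * ‖x‖) (n : ℕ) (x : E) :
    S h' n (φ p hp x) = φ p hp (S h n x) := by
  have h1 : coef h x = coef h' (φ p hp x) := by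
    apply coef_unique
    have h2 := tendsto_φ hp hM (coef_spec h x)
    refine h2.congr fun n => ?_
    rw [map_sum]
    exact Finset.sum_congr rfl fun i _ => map_smul _ _ _
  rw [S_apply, S_apply, ← h1, map_sum]
  exact Finset.sum_congr rfl fun i _ => (map_smul _ _ _).symm

/-- the gain -/
def γ₀ : ℝ := (1 / 128) ^ 2 / 6000

/-- Every Banach space with a basis has an equivalent norm for which all basis constants are
larger than `1 + γ₀`. -/
theorem exists_norm [CompleteSpace E] {e : ℕ → E} (he : IsBasis 𝕜 e) :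
    ∃ (N : Seminorm 𝕜 E) (c C : ℝ), 0 < c ∧ 0 < C ∧ (∀ x, c * ‖x‖ ≤ N x ∧ N x ≤ C * ‖x‖) ∧
      ∀ {g : ℕ → E} (hg : IsBasis 𝕜 g), ¬ ∀ n x, N (S hg n x) ≤ (1 + γ₀) * N x := by
  obtain ⟨B⟩ := exists_BSys he
  have hBM := B.hM
  have hbdd : BddAbove (Set.range fun k => (normSeminorm 𝕜 𝕜).comp (B.f k)) := by
    refine ⟨(Real.toNNReal B.M) • normSeminorm 𝕜 E, ?_⟩
    rintro _ ⟨k, rfl⟩ y
    show ‖B.f k y‖ ≤ ((Real.toNNReal B.M) : ℝ) * ‖y‖
    rw [Real.coe_toNNReal _ (by linarith)]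
    exact B.nf k y
  let q : Seminorm 𝕜 E := ⨆ k, (normSeminorm 𝕜 𝕜).comp (B.f k)
  have hq : ∀ y, q y = ⨆ k, ‖B.f k y‖ := fun y => Seminorm.iSup_apply hbdd
  have hqM : ∀ y, q y ≤ B.M * ‖y‖ := by
    intro y
    rw [hq]
    exact ciSup_le fun k => B.nf k y
  have hqf : ∀ k y, ‖B.f k y‖ ≤ q y := by
    intro k y
    rw [hq]
    refine le_ciSup (f := fun k => ‖B.f k y‖) ⟨B.M * ‖y‖, ?_⟩ k
    rintro _ ⟨k, rfl⟩
    exact B.nf k y
  have hqx : ∀ j, q (B.x j) ≤ 1 := by
    intro j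
    rw [hq]
    refine ciSup_le fun k => ?_
    rw [B.ortho]
    split_ifs <;> simp
  let p : Seminorm 𝕜 E := normSeminorm 𝕜 E ⊔ q
  have hpa : ∀ y, p y = max ‖y‖ (q y) := fun y => rfl
  have hp : ∀ y, ‖y‖ ≤ p y := fun y => le_max_left _ _
  have hpM : ∀ y, p y ≤ B.M * ‖y‖ := by
    intro y
    rw [hpa]
    refine max_le ?_ (hqM y)
    have := mul_le_mul_of_nonneg_right hBM (norm_nonneg y)
    linarith
  let B' : BSys 𝕜 (Ren p hp) :=
    { x := fun j => φ p hp (B.x j)
      f := fun k => (B.f k).comp (φ p hp).symm.toLinearMap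
      M := 1
      hM := le_rfl
      nx := fun j => by
        rw [norm_φ, hpa, B.nx]
        exact max_eq_left (hqx j)
      nf := fun k y => by
        obtain ⟨z, rfl⟩ := (φ p hp).surjective y
        rw [norm_φ, one_mul]
        show ‖B.f k ((φ p hp).symm (φ p hp z))‖ ≤ _
        rw [LinearEquiv.symm_apply_apply]
        exact (hqf k z).trans (le_max_right _ _)
      ortho := fun i j => by
        show B.f i ((φ p hp).symm (φ p hp (B.x j))) = _
        rw [LinearEquiv.symm_apply_apply]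
        exact B.ortho i j }
  have hγ : B'.γ = γ₀ := by
    show (1 / (16 * (1 : ℝ)) / (8 * 1)) ^ 2 / 6000 = (1 / 128) ^ 2 / 6000
    norm_num
  refine ⟨B'.N.comp (φ p hp).toLinearMap, 1 / 2, 4 * B.M, by norm_num, by linarith, ?_, ?_⟩
  · intro x
    have h1 := B'.half_norm_le_N (φ p hp x)
    have h2 := B'.N_adm.1 (φ p hp x)
    have h3 : B'.M = 1 := rfl
    rw [h3] at h2
    rw [norm_φ] at h1 h2
    have h4 := hp x
    have h5 := hpM x
    constructor
    · show _ ≤ B'.N (φ p hp x)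
      linarith
    · show B'.N (φ p hp x) ≤ _
      linarith
  · intro g hg hall
    have hg' := basis_φ hp hpM hg
    refine B'.basis_const hg' fun n y => ?_
    obtain ⟨x, rfl⟩ := (φ p hp).surjective y
    rw [S_φ hp hg hg' hpM, hγ]
    exact hall n x

end

end Pool.Agent.Helper519.Uniform
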